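import Mathlib

/-! Few primes divide the values of all small polynomials at a rational number of large height. -/

set_option autoImplicit false

namespace Pool.Agent.N120.EH

open Finset

theorem card_primes_dvd (S : Finset ℕ) (hS : ∀ p ∈ S, p.Prime) (W : ℤ) (hW : W ≠ 0)
    (hd : ∀ p ∈ S, (p : ℤ) ∣ W) (L : ℝ) (hL : Real.log |(W : ℝ)| ≤ L) :
    (S.card : ℝ) ≤ L / Real.log 2 := by
  have h1 : ∏ p ∈ S, p ∣ W.natAbs := by
    refine Finset.prod_primes_dvd _ (fun p hp => (hS p hp).prime) fun p hp => ?_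
    exact Int.natCast_dvd.1 (hd p hp)
  have h2 : 2 ^ S.card ≤ ∏ p ∈ S, p := by
    rw [← prod_const]
    exact prod_le_prod (fun _ _ => by norm_num) fun p hp => (hS p hp).two_le
  have h3 : 2 ^ S.card ≤ W.natAbs := h2.trans (Nat.le_of_dvd (Int.natAbs_pos.2 hW) h1)
  have h4 : (2 : ℝ) ^ S.card ≤ |(W : ℝ)| := by
    have h5 : ((2 ^ S.card : ℕ) : ℝ) ≤ ((W.natAbs : ℕ) : ℝ) := by exact_mod_cast h3
    rw [Nat.cast_natAbs] at h5
    push_cast at h5
    exact h5
  have h5 := Real.log_le_log (by positivity) h4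
  rw [Real.log_pow] at h5
  rw [le_div_iff₀ (Real.log_pos (by norm_num))]
  exact h5.trans hL

theorem dvd_coeff (K : ℕ) (g : Fin (K + 1) → ℤ) (hg : g ≠ 0) (U V : ℤ) (hUV : IsCoprime U V)
    (hU : U ≠ 0) (h0 : ∑ i, g i * U ^ (i : ℕ) * V ^ (K - (i : ℕ)) = 0) :
    ∃ i, g i ≠ 0 ∧ U ∣ g i := by
  classical
  have hne : (univ.filter (fun i => g i ≠ 0)).Nonempty := by
    obtain ⟨i, hi⟩ := Function.ne_iff.1 hg
    exact ⟨i, by rw [mem_filter]; exact ⟨mem_univ _, hi⟩⟩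
  obtain ⟨i₀, hi₀⟩ : ∃ i₀, i₀ = (univ.filter (fun i => g i ≠ 0)).min' hne := ⟨_, rfl⟩
  have h1 : g i₀ ≠ 0 := by
    have := (univ.filter (fun i => g i ≠ 0)).min'_mem hne
    rw [← hi₀, mem_filter] at this
    exact this.2
  have h2 : ∀ i, i < i₀ → g i = 0 := by
    intro i hi
    by_contra h
    have := (univ.filter (fun i => g i ≠ 0)).min'_le i (by rw [mem_filter]; exact ⟨mem_univ _, h⟩)
    rw [← hi₀] at this
    exact absurd hi (not_lt.2 this)
  refine ⟨i₀, h1, ?_⟩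
  have h3 : U ^ ((i₀ : ℕ) + 1) ∣ ∑ i ∈ univ.erase i₀, g i * U ^ (i : ℕ) * V ^ (K - (i : ℕ)) := by
    refine dvd_sum fun i hi => ?_
    rcases lt_trichotomy i i₀ with h | h | h
    · rw [h2 i h, zero_mul, zero_mul]
      exact dvd_zero _
    · exact absurd h (ne_of_mem_erase hi)
    · have h4 : (i₀ : ℕ) + 1 ≤ i := h
      exact ((pow_dvd_pow U h4).mul_left _).mul_right _
  rw [← add_sum_erase _ _ (mem_univ i₀)] at h0
  have h4 : U ^ ((i₀ : ℕ) + 1) ∣ g i₀ * U ^ (i₀ : ℕ) * V ^ (K - (i₀ : ℕ)) := by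
    have := (dvd_add_left h3).1 (h0 ▸ dvd_zero _)
    exact this
  have h5 : U ^ (i₀ : ℕ) * U ∣ U ^ (i₀ : ℕ) * (g i₀ * V ^ (K - (i₀ : ℕ))) := by
    rw [← pow_succ]
    refine h4.trans (dvd_of_eq ?_)
    ring
  have h6 := (mul_dvd_mul_iff_left (pow_ne_zero _ hU)).1 h5
  exact (hUV.pow_right).dvd_of_dvd_mul_right h6

theorem value_ne_zero (K : ℕ) (g : Fin (K + 1) → ℤ) (hg : g ≠ 0) (U V : ℤ) (hUV : IsCoprime U V)
    (G : ℕ) (hG : 1 ≤ G) (hgG : ∀ i, |g i| ≤ G) (hbig : (G : ℤ) < max |U| |V|) :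
    ∑ i, g i * U ^ (i : ℕ) * V ^ (K - (i : ℕ)) ≠ 0 := by
  intro h0
  have hU : U ≠ 0 := by
    rintro rfl
    rw [isCoprime_zero_left, Int.isUnit_iff] at hUV
    rcases hUV with h | h <;> subst h <;> simp at hbig <;> omega
  have hV : V ≠ 0 := by
    rintro rfl
    rw [isCoprime_zero_right, Int.isUnit_iff] at hUV
    rcases hUV with h | h <;> subst h <;> simp at hbig <;> omega
  obtain ⟨i, hi, hUi⟩ := dvd_coeff K g hg U V hUV hU h0
  have h1 : |U| ≤ G := by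
    have h2 := Int.le_of_dvd (abs_pos.2 hi) ((abs_dvd_abs _ _).2 hUi)
    exact h2.trans (hgG i)
  have h0' : ∑ i, (fun i : Fin (K + 1) => g (Fin.rev i)) i * V ^ (i : ℕ) * U ^ (K - (i : ℕ)) = 0 := by
    rw [← h0, ← Equiv.sum_comp Fin.revPerm]
    refine sum_congr rfl fun i _ => ?_
    simp only [Fin.revPerm_apply, Fin.rev_rev, Fin.val_rev]
    have h2 : K + 1 - ((i : ℕ) + 1) = K - (i : ℕ) := by omega
    have h3 : K - (K - (i : ℕ)) = i := by have := i.2; omega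
    rw [h2, h3]
    ring
  have hg' : (fun i : Fin (K + 1) => g (Fin.rev i)) ≠ 0 := by
    intro h
    apply hg
    funext i
    have := congrFun h (Fin.rev i)
    simpa using this
  obtain ⟨i', hi', hVi⟩ := dvd_coeff K _ hg' V U hUV.symm hV h0'
  have h2 : |V| ≤ G := by
    have h3 := Int.le_of_dvd (abs_pos.2 hi') ((abs_dvd_abs _ _).2 hVi)
    exact h3.trans (hgG _)
  exact absurd hbig (not_lt.2 (max_le h1 h2))

open Classical in
/-- the exceptional primes -/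
noncomputable def badP (S : Finset ℕ) (K G : ℕ) (U V : ℤ) : Finset ℕ :=
  S.filter (fun p => ∃ g : Fin (K + 1) → ℤ, g ≠ 0 ∧ (∀ i, |g i| ≤ G) ∧
    (p : ℤ) ∣ ∑ i, g i * U ^ (i : ℕ) * V ^ (K - (i : ℕ)))

theorem card_badP (S : Finset ℕ) (hS : ∀ p ∈ S, p.Prime) (K G : ℕ) (U V : ℤ)
    (hUV : IsCoprime U V) (hG : 1 ≤ G) (hbig : (G : ℤ) < max |U| |V|) (T : ℝ) (hT : 0 ≤ T)
    (hU : |(U : ℝ)| ≤ Real.exp T) (hV : |(V : ℝ)| ≤ Real.exp T) :
    ((badP S K G U V).card : ℝ) ≤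
      (2 * (G : ℝ) + 1) ^ (K + 1) * ((Real.log ((K + 1) * G) + K * T) / Real.log 2) := by
  classical
  obtain ⟨B, hB⟩ : ∃ B : Finset (Fin (K + 1) → ℤ), B = (Fintype.piFinset
    (fun _ : Fin (K + 1) => Icc (-(G : ℤ)) G)).filter (fun g => g ≠ 0) := ⟨_, rfl⟩
  have hBc : (B.card : ℝ) ≤ (2 * (G : ℝ) + 1) ^ (K + 1) := by
    have h1 : B.card ≤ (Fintype.piFinset (fun _ : Fin (K + 1) => Icc (-(G : ℤ)) G)).card := by
      rw [hB]; exact card_filter_le _ _
    rw [Fintype.card_piFinset, prod_const, card_univ, Fintype.card_fin, Int.card_Icc] at h1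
    have h2 : ((G : ℤ) + 1 - -(G : ℤ)).toNat = 2 * G + 1 := by omega
    rw [h2] at h1
    exact_mod_cast h1
  have hsub : badP S K G U V ⊆ B.biUnion (fun g => S.filter (fun p : ℕ =>
      (p : ℤ) ∣ ∑ i, g i * U ^ (i : ℕ) * V ^ (K - (i : ℕ)))) := by
    intro p hp
    unfold badP at hp
    rw [mem_filter] at hp
    obtain ⟨hpS, g, hg0, hgG, hgd⟩ := hp
    rw [mem_biUnion]
    refine ⟨g, ?_, ?_⟩
    · rw [hB, mem_filter, Fintype.mem_piFinset]
      exact ⟨fun i => mem_Icc.2 (abs_le.1 (hgG i)), hg0⟩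
    · rw [mem_filter]
      exact ⟨hpS, hgd⟩
  have hG0 : (0 : ℝ) < G := by exact_mod_cast hG
  have hX0 : 0 ≤ (Real.log ((K + 1) * G) + K * T) / Real.log 2 := by
    refine div_nonneg (add_nonneg (Real.log_nonneg ?_) (by positivity))
      (Real.log_pos (by norm_num)).le
    have h1 : (1 : ℝ) ≤ G := by exact_mod_cast hG
    have h2 : (1 : ℝ) ≤ (K : ℝ) + 1 := by linarith [(Nat.cast_nonneg K : (0 : ℝ) ≤ K)]
    nlinarith
  have h1 : ((badP S K G U V).card : ℝ) ≤ ∑ g ∈ B, ((S.filter (fun p : ℕ =>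
      (p : ℤ) ∣ ∑ i, g i * U ^ (i : ℕ) * V ^ (K - (i : ℕ)))).card : ℝ) := by
    exact_mod_cast (card_le_card hsub).trans card_biUnion_le
  refine h1.trans ?_
  refine (sum_le_card_nsmul _ _ ((Real.log ((K + 1) * G) + K * T) / Real.log 2)
    fun g hg => ?_).trans ?_
  · rw [hB, mem_filter, Fintype.mem_piFinset] at hg
    have hgG : ∀ i, |g i| ≤ G := fun i => abs_le.2 (mem_Icc.1 (hg.1 i))
    have hne := value_ne_zero K g hg.2 U V hUV G hG hgG hbig
    refine card_primes_dvd _ (fun p hp => hS p (mem_filter.1 hp).1) _ hne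
      (fun p hp => (mem_filter.1 hp).2) _ ?_
    have hW : |((∑ i, g i * U ^ (i : ℕ) * V ^ (K - (i : ℕ)) : ℤ) : ℝ)| ≤
        ((K + 1) * G) * Real.exp T ^ K := by
      push_cast
      refine (abs_sum_le_sum_abs _ _).trans ?_
      refine (sum_le_card_nsmul _ _ (G * Real.exp T ^ K) fun i _ => ?_).trans (le_of_eq ?_)
      · rw [abs_mul, abs_mul, abs_pow, abs_pow, mul_assoc]
        have e1 : |(g i : ℝ)| ≤ G := by
          rw [← Int.cast_abs]
          exact_mod_cast hgG i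
        have e2 : Real.exp T ^ K = Real.exp T ^ (i : ℕ) * Real.exp T ^ (K - (i : ℕ)) := by
          rw [← pow_add]
          congr 1
          have := i.2
          omega
        rw [e2]
        refine mul_le_mul e1 ?_ (by positivity) hG0.le
        exact mul_le_mul (pow_le_pow_left₀ (abs_nonneg _) hU _)
          (pow_le_pow_left₀ (abs_nonneg _) hV _) (by positivity) (by positivity)
      · rw [card_univ, Fintype.card_fin, nsmul_eq_mul]
        push_cast
        ring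
    have hpos : 0 < |((∑ i, g i * U ^ (i : ℕ) * V ^ (K - (i : ℕ)) : ℤ) : ℝ)| := by
      rw [abs_pos]
      exact_mod_cast hne
    refine (Real.log_le_log hpos hW).trans (le_of_eq ?_)
    rw [Real.log_mul (by positivity) (by positivity), Real.log_pow, Real.log_exp]
  · rw [nsmul_eq_mul]
    exact mul_le_mul_of_nonneg_right hBc hX0

end Pool.Agent.N120.EH
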