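import Mathlib

/-! Classes modulo `N` of a finitely generated abelian group: at most `t N ^ rank`. -/

set_option autoImplicit false

namespace Pool.Agent.N120.EH

open Finset

theorem classes (G : Type) [AddCommGroup G] [AddGroup.FG G] : ∃ t : ℕ, ∀ N : ℕ, 0 < N →
    ∃ T : Finset G, T.card ≤ t * N ^ Module.finrank ℤ G ∧ ∀ g : G, ∃ g' ∈ T, ∃ R : G,
      g = g' + N • R := by
  classical
  have hfin : Module.Finite ℤ G := Module.Finite.iff_addGroup_fg.2 inferInstance
  obtain ⟨τ, hτ⟩ : ∃ τ : Submodule ℤ G, τ = Submodule.torsion ℤ G := ⟨_, rfl⟩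
  have hτt : Module.IsTorsion ℤ τ := by
    rw [hτ]
    exact Submodule.torsion_isTorsion
  have hτf : Finite τ := Module.finite_of_fg_torsion τ hτt
  have hfree : Module.Free ℤ (G ⧸ Submodule.torsion ℤ G) := inferInstance
  obtain ⟨n, hn⟩ : ∃ n : ℕ, n = Module.finrank ℤ (G ⧸ Submodule.torsion ℤ G) := ⟨_, rfl⟩
  have hrank : Module.finrank ℤ (G ⧸ Submodule.torsion ℤ G) = Module.finrank ℤ G := by
    unfold Module.finrank
    rw [rank_quotient_eq_of_le_torsion le_rfl]
  let b := Module.finBasis ℤ (G ⧸ Submodule.torsion ℤ G)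
  have hlift : ∀ i, ∃ g : G, (Submodule.torsion ℤ G).mkQ g = b i := fun i =>
    Submodule.mkQ_surjective _ _
  choose e he using hlift
  letI : Fintype τ := Fintype.ofFinite τ
  refine ⟨Fintype.card τ, fun N hN => ?_⟩
  refine ⟨((univ : Finset τ) ×ˢ (Fintype.piFinset
    fun _ : Fin (Module.finrank ℤ (G ⧸ Submodule.torsion ℤ G)) => range N)).image
    (fun x => (x.1 : G) + ∑ i, x.2 i • e i), ?_, ?_⟩
  · refine card_image_le.trans (le_of_eq ?_)
    rw [card_product, card_univ, Fintype.card_piFinset, prod_const, card_range, card_univ,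
      Fintype.card_fin, hrank]
  · intro g
    obtain ⟨c, hc⟩ : ∃ c : Fin (Module.finrank ℤ (G ⧸ Submodule.torsion ℤ G)) → ℤ,
        ∀ i, c i = b.repr ((Submodule.torsion ℤ G).mkQ g) i := ⟨_, fun i => rfl⟩
    have hN0 : (N : ℤ) ≠ 0 := by exact_mod_cast hN.ne'
    have h0 : (Submodule.torsion ℤ G).mkQ (g - ∑ i, c i • e i) = 0 := by
      rw [map_sub, map_sum]
      simp only [map_smul, he, hc]
      rw [b.sum_repr, sub_self]
    have h1 : g - ∑ i, c i • e i ∈ Submodule.torsion ℤ G :=
      (Submodule.Quotient.mk_eq_zero _).1 h0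
    have h2 : g - ∑ i, c i • e i ∈ τ := by rw [hτ]; exact h1
    refine ⟨(g - ∑ i, c i • e i) + ∑ i, (c i % N).toNat • e i, ?_, ∑ i, (c i / N) • e i, ?_⟩
    · rw [mem_image]
      refine ⟨(⟨g - ∑ i, c i • e i, h2⟩, fun i => (c i % N).toNat), ?_, rfl⟩
      rw [mem_product, Fintype.mem_piFinset]
      refine ⟨mem_univ _, fun i => ?_⟩
      rw [mem_range]
      have h3 := Int.emod_lt_of_pos (c i) (by exact_mod_cast hN : (0 : ℤ) < N)
      have h4 := Int.emod_nonneg (c i) hN0
      simp only
      omega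
    · have h5 : ∀ i, c i • e i = (c i % N).toNat • e i + N • ((c i / N) • e i) := by
        intro i
        have h4 := Int.emod_nonneg (c i) hN0
        have h6 : ((c i % N).toNat • e i) = (c i % N) • e i := by
          rw [← natCast_zsmul, Int.toNat_of_nonneg h4]
        rw [h6, ← natCast_zsmul, smul_smul, ← add_smul]
        congr 1
        exact (Int.emod_add_mul_ediv (c i) N).symm
      rw [smul_sum, add_assoc, ← sum_add_distrib]
      rw [← sum_congr rfl fun i _ => h5 i]
      abel

end Pool.Agent.N120.EH
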