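import Mathlib

/-! Hankel matrices of sequences which are geometric modulo `N`. -/

set_option autoImplicit false

namespace Pool.Agent.N120.EH

open Finset Polynomial

/-- the minors are divisible by a power of `N` -/
theorem det_dvd (K : ℕ) (N l : ℤ) (r : ℕ → ℤ) (n : ℕ) (hr : ∀ i ≤ n, N ∣ r i - r 0 * l ^ i)
    (c : Fin (K + 1) → ℕ) (hc : ∀ j, c j + K ≤ n) :
    N ^ K ∣ (Matrix.of (fun i j : Fin (K + 1) => r (i + c j))).det := by
  have h1 : ∀ i j : Fin (K + 1), N ∣ r (i + c j) - l ^ (i : ℕ) * r (c j) := by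
    intro i j
    have hi := i.2
    have h2 := hr (i + c j) (by have := hc j; omega)
    have h3 := hr (c j) (by have := hc j; omega)
    have h4 : r (i + c j) - l ^ (i : ℕ) * r (c j) =
        (r (i + c j) - r 0 * l ^ ((i : ℕ) + c j)) - l ^ (i : ℕ) * (r (c j) - r 0 * l ^ c j) := by
      rw [pow_add]; ring
    rw [h4]
    exact dvd_sub h2 (h3.mul_left _)
  choose E hE using h1
  obtain ⟨v, hv⟩ : ∃ v : Fin (K + 1) → ℤ, v = fun i => if i = 0 then 1 else N := ⟨_, rfl⟩
  obtain ⟨F, hF⟩ : ∃ F : Matrix (Fin (K + 1)) (Fin (K + 1)) ℤ, F = Matrix.of (fun i j =>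
    if i = 0 then r (c j) else E i j) := ⟨_, rfl⟩
  have h2 : (Matrix.of (fun i j : Fin (K + 1) => r (i + c j))).det =
      (Matrix.of fun i j => v i * F i j).det := by
    refine Matrix.det_eq_of_forall_row_eq_smul_add_const (fun i => if i = 0 then 0 else l ^ (i : ℕ))
      0 (by simp) ?_
    intro i j
    simp only [Matrix.of_apply, hF, hv]
    by_cases hi : i = 0
    · subst hi; simp
    · simp only [if_neg hi, if_true]
      have := hE i j
      linear_combination this
  rw [h2, Matrix.det_mul_column]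
  refine dvd_mul_of_dvd_left ?_ _
  rw [hv, Fin.prod_univ_succ]
  simp [Fin.succ_ne_zero]

/-- the minors vanish -/
theorem det_eq_zero (K : ℕ) (N : ℕ) (l : ℤ) (r : ℕ → ℤ) (n : ℕ)
    (hr : ∀ i ≤ n, (N : ℤ) ∣ r i - r 0 * l ^ i) (R : ℝ) (hR : ∀ i ≤ n, |(r i : ℝ)| ≤ R)
    (hsmall : ((K + 1).factorial : ℝ) * R ^ (K + 1) < (N : ℝ) ^ K)
    (c : Fin (K + 1) → ℕ) (hc : ∀ j, c j + K ≤ n) :
    (Matrix.of (fun i j : Fin (K + 1) => r (i + c j))).det = 0 := by
  have h1 := det_dvd K N l r n hr c hc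
  by_contra hne
  have h2 : (N : ℝ) ^ K ≤ |((Matrix.of (fun i j : Fin (K + 1) => r (i + c j))).det : ℝ)| := by
    have h3 := Int.le_of_dvd (abs_pos.2 hne) ((dvd_abs _ _).2 h1)
    have h4 : (((N : ℤ) ^ K : ℤ) : ℝ) ≤
        ((|(Matrix.of (fun i j : Fin (K + 1) => r (i + c j))).det| : ℤ) : ℝ) := by
      exact_mod_cast h3
    rw [Int.cast_abs, Int.cast_pow, Int.cast_natCast] at h4
    exact h4
  have h3 : |((Matrix.of (fun i j : Fin (K + 1) => r (i + c j))).det : ℝ)| ≤
      ((K + 1).factorial : ℝ) * R ^ (K + 1) := by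
    have h4 : ((Matrix.of (fun i j : Fin (K + 1) => r (i + c j))).det : ℝ) =
        (Matrix.of (fun i j : Fin (K + 1) => (r (i + c j) : ℝ))).det := by
      have := (Int.castRingHom ℝ).map_det (Matrix.of (fun i j : Fin (K + 1) => r (i + c j)))
      simpa [RingHom.mapMatrix_apply, Matrix.map] using this
    rw [h4]
    have h5 := Matrix.det_le (A := Matrix.of (fun i j : Fin (K + 1) => (r (i + c j) : ℝ)))
      (abv := (AbsoluteValue.abs : AbsoluteValue ℝ ℝ)) (x := R) (by
        intro i j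
        simp only [Matrix.of_apply, AbsoluteValue.abs_apply]
        exact hR _ (by have := hc j; have := i.2; omega))
    simpa [nsmul_eq_mul] using h5
  linarith

/-- if all maximal minors vanish, then the rows are linearly dependent -/
theorem exists_relation (k m : ℕ) (r : ℕ → ℤ)
    (h : ∀ c : Fin k → Fin m, (Matrix.of (fun i j : Fin k => r (i + (c j : ℕ)))).det = 0) :
    ∃ f : Fin k → ℚ, f ≠ 0 ∧ ∀ j < m, ∑ i, f i * (r (i + j) : ℚ) = 0 := by
  classical
  obtain ⟨A, hA⟩ : ∃ A : Matrix (Fin k) (Fin m) ℚ, A = Matrix.of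
      (fun (i : Fin k) (j : Fin m) => (r ((i : ℕ) + (j : ℕ)) : ℚ)) := ⟨_, rfl⟩
  by_cases hli : LinearIndependent ℚ A.row
  · exfalso
    have hrk : A.rank = k := by
      rw [hli.rank_matrix, Fintype.card_fin]
    have hsp := Matrix.rank_eq_finrank_span_cols A
    rw [hrk] at hsp
    obtain ⟨g', hg1', -, hg3'⟩ := Submodule.exists_fun_fin_finrank_span_eq ℚ (Set.range A.col)
    obtain ⟨g, hg⟩ : ∃ g : Fin k → (Fin k → ℚ), g = g' ∘ Fin.cast hsp := ⟨_, rfl⟩
    have hg1 : ∀ i, g i ∈ Set.range A.col := fun i => by rw [hg]; exact hg1' _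
    have hg3 : LinearIndependent ℚ g := by
      rw [hg]
      exact hg3'.comp _ (Fin.cast_injective hsp)
    choose c hc using hg1
    have h1 : (A.submatrix id c).det ≠ 0 := by
      have h2 : LinearIndependent ℚ (A.submatrix id c).col := by
        have : (A.submatrix id c).col = g := by
          funext i
          rw [← hc i]
          rfl
        rw [this]
        exact hg3
      have h3 := (Matrix.isUnit_iff_isUnit_det _).1 (Matrix.linearIndependent_cols_iff_isUnit.1 h2)
      exact h3.ne_zero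
    apply h1
    have h2 := h c
    have h4 : (A.submatrix id c).det =
        (((Matrix.of (fun i j : Fin k => r (i + (c j : ℕ)))).det : ℤ) : ℚ) := by
      have := (Int.castRingHom ℚ).map_det (Matrix.of (fun i j : Fin k => r (i + (c j : ℕ))))
      simp only [eq_intCast] at this
      rw [this]
      congr 1
      ext i j
      simp [hA]
    rw [h4, h2, Int.cast_zero]
  · rw [Fintype.not_linearIndependent_iff] at hli
    obtain ⟨f, hf, i, hi⟩ := hli
    refine ⟨f, fun h0 => hi (by rw [h0]; rfl), fun j hj => ?_⟩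
    have := congrFun hf ⟨j, hj⟩
    rw [hA] at this
    simpa [Matrix.row] using this

end Pool.Agent.N120.EH
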