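import Mathlib
import Pool.Agent.N120.EH.Hankel

/-! A small polynomial annihilating a sequence of low rank has a factor of low degree which
annihilates the sequence. -/

set_option autoImplicit false

namespace Pool.Agent.N120.EH

open Finset Polynomial

/-- the functional `X^i ↦ r i` -/
noncomputable def phi (r : ℕ → ℤ) : ℚ[X] →ₗ[ℚ] ℚ :=
  Polynomial.lsum fun i => (r i : ℚ) • (LinearMap.id : ℚ →ₗ[ℚ] ℚ)

theorem phi_C_mul_X_pow (r : ℕ → ℤ) (i : ℕ) (a : ℚ) : phi r (C a * X ^ i) = a * r i := by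
  unfold phi
  rw [C_mul_X_pow_eq_monomial, Polynomial.lsum_apply, sum_monomial_index _ _ (by simp)]
  simp [mul_comm]

theorem phi_mul_zero (r : ℕ → ℤ) (q h : ℚ[X]) (hh : ∀ i ≤ q.natDegree, phi r (h * X ^ i) = 0) :
    phi r (q * h) = 0 := by
  conv_lhs => rw [q.as_sum_range_C_mul_X_pow]
  rw [sum_mul, map_sum]
  refine sum_eq_zero fun i hi => ?_
  have h1 : C (q.coeff i) * X ^ i * h = q.coeff i • (h * X ^ i) := by
    rw [smul_eq_C_mul]; ring
  rw [h1, map_smul, hh i (by have := mem_range.1 hi; omega), smul_zero]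

theorem phi_sum (r : ℕ → ℤ) (k j : ℕ) (f : Fin k → ℚ) :
    phi r ((∑ i, C (f i) * X ^ (i : ℕ)) * X ^ j) = ∑ i, f i * (r (i + j) : ℚ) := by
  rw [sum_mul, map_sum]
  refine sum_congr rfl fun i _ => ?_
  rw [mul_assoc, ← pow_add, phi_C_mul_X_pow]

/-- the factor over `ℚ` -/
theorem exists_factor (r : ℕ → ℤ) (k l m : ℕ) (hm : l + k ≤ m) (hk : 1 ≤ k)
    (hrel : ∃ f : Fin k → ℚ, f ≠ 0 ∧ ∀ j < m, ∑ i, f i * (r (i + j) : ℚ) = 0)
    (G : ℚ[X]) (hGd : G.natDegree ≤ l) (hG : ∀ j < k, phi r (G * X ^ j) = 0) :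
    ∃ g : ℚ[X], g ≠ 0 ∧ g.natDegree < k ∧ g ∣ G ∧ phi r g = 0 := by
  classical
  have hP : ∃ e : ℕ, e < k ∧ ∃ f : ℚ[X], f ≠ 0 ∧ f.natDegree = e ∧ ∀ j < m, phi r (f * X ^ j) = 0 := by
    obtain ⟨f, hf0, hf⟩ := hrel
    refine ⟨(∑ i, C (f i) * X ^ (i : ℕ)).natDegree, ?_, ∑ i, C (f i) * X ^ (i : ℕ), ?_, rfl, ?_⟩
    · refine lt_of_le_of_lt (natDegree_sum_le_of_forall_le (n := k - 1) _ _ fun i _ => ?_) (by omega)
      refine (natDegree_C_mul_X_pow_le _ _).trans ?_
      have := i.2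
      omega
    · intro h0
      apply hf0
      funext i
      have h1 := congrArg (fun p => p.coeff (i : ℕ)) h0
      simp only [finsetSum_coeff, coeff_C_mul, coeff_X_pow, coeff_zero] at h1
      rw [sum_eq_single i] at h1
      · simpa using h1
      · intro j _ hj
        rw [if_neg, mul_zero]
        intro h
        exact hj (Fin.ext h.symm)
      · intro h
        exact absurd (mem_univ _) h
    · intro j hj
      rw [phi_sum]
      exact hf j hj
  obtain ⟨e, ⟨hek, g, hg0, hge, hg⟩, hmin⟩ : ∃ e : ℕ, (e < k ∧ ∃ f : ℚ[X], f ≠ 0 ∧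
      f.natDegree = e ∧ ∀ j < m, phi r (f * X ^ j) = 0) ∧ ∀ e' < e, ¬ (e' < k ∧ ∃ f : ℚ[X], f ≠ 0 ∧
      f.natDegree = e' ∧ ∀ j < m, phi r (f * X ^ j) = 0) :=
    ⟨Nat.find hP, Nat.find_spec hP, fun e' he' => Nat.find_min hP he'⟩
  refine ⟨g, hg0, by omega, ?_, ?_⟩
  · obtain ⟨ρ, hρ⟩ : ∃ ρ : ℚ[X], ρ = G % g := ⟨_, rfl⟩
    obtain ⟨q, hq⟩ : ∃ q : ℚ[X], q = G / g := ⟨_, rfl⟩
    have hdiv : g * q + ρ = G := by rw [hρ, hq]; exact EuclideanDomain.div_add_mod G g
    rw [← EuclideanDomain.mod_eq_zero, ← hρ]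
    by_contra hρ0
    have hρd : ρ.natDegree < g.natDegree := by
      refine natDegree_lt_natDegree hρ0 ?_
      rw [hρ]
      exact EuclideanDomain.mod_lt G hg0
    have hqd : q.natDegree ≤ l := by
      rw [hq]
      exact (natDegree_le_natDegree (degree_div_le G g)).trans hGd
    -- `ρ` annihilates the sequence
    have hall : ∀ j, j < m → phi r (ρ * X ^ j) = 0 := by
      intro j
      induction j using Nat.strong_induction_on with
      | _ j ih =>
        intro hj
        rcases lt_or_ge j k with hjk | hjk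
        · have h1 : ρ * X ^ j = G * X ^ j - q * (g * X ^ j) := by rw [← hdiv]; ring
          rw [h1, map_sub, hG j hjk, phi_mul_zero, sub_zero]
          intro i hi
          rw [mul_assoc, ← pow_add]
          exact hg _ (by omega)
        · have h1 : phi r (ρ * (g * X ^ (j - g.natDegree))) = 0 := by
            refine phi_mul_zero r _ _ fun i hi => ?_
            rw [mul_assoc, ← pow_add]
            exact hg _ (by omega)
          have h2 : phi r (g.eraseLead * (ρ * X ^ (j - g.natDegree))) = 0 := by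
            refine phi_mul_zero r _ _ fun i hi => ?_
            rw [mul_assoc, ← pow_add]
            have h3 := g.eraseLead_natDegree_le
            exact ih _ (by omega) (by omega)
          have h3 : ρ * (g * X ^ (j - g.natDegree)) = g.eraseLead * (ρ * X ^ (j - g.natDegree)) +
              g.leadingCoeff • (ρ * X ^ j) := by
            have h4 : (X : ℚ[X]) ^ j = X ^ g.natDegree * X ^ (j - g.natDegree) := by
              rw [← pow_add]
              congr 1
              omega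
            have h5 := g.eraseLead_add_C_mul_X_pow
            have h6 : ρ * (g * X ^ (j - g.natDegree)) = ρ * ((g.eraseLead +
                C g.leadingCoeff * X ^ g.natDegree) * X ^ (j - g.natDegree)) := by rw [h5]
            rw [smul_eq_C_mul, h4, h6]
            ring
          rw [h3, map_add, h2, zero_add, map_smul, smul_eq_mul] at h1
          exact (mul_eq_zero.1 h1).resolve_left (leadingCoeff_ne_zero.2 hg0)
    exact hmin ρ.natDegree (by omega) ⟨by omega, ρ, hρ0, rfl, hall⟩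
  · have := hg 0 (by omega)
    simpa using this

/-- the factor over `ℤ`, with a bound for its coefficients -/
theorem exists_int_factor (r : ℕ → ℤ) (k l m : ℕ) (hm : l + k ≤ m) (hk : 1 ≤ k)
    (hrel : ∃ f : Fin k → ℚ, f ≠ 0 ∧ ∀ j < m, ∑ i, f i * (r (i + j) : ℚ) = 0)
    (G : ℤ[X]) (hG0 : G ≠ 0) (hGd : G.natDegree ≤ l) (A : ℝ) (hA : ∀ i, |(G.coeff i : ℝ)| ≤ A)
    (hG : ∀ j < k, phi r (G.map (Int.castRingHom ℚ) * X ^ j) = 0) :
    ∃ g : ℤ[X], g ≠ 0 ∧ g.natDegree < k ∧ phi r (g.map (Int.castRingHom ℚ)) = 0 ∧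
      ∀ i, |(g.coeff i : ℝ)| ≤ 2 ^ k * ((l + 1) * A) := by
  classical
  obtain ⟨g₀, hg₀0, hg₀d, hg₀G, hg₀⟩ := exists_factor r k l m hm hk hrel
    (G.map (Int.castRingHom ℚ)) (natDegree_map_le.trans hGd) hG
  -- clear the denominators
  obtain ⟨b, hb, hbg⟩ := IsLocalization.integerNormalization_spec (nonZeroDivisors ℤ) g₀
  obtain ⟨g₁, hg₁⟩ : ∃ g₁ : ℤ[X], g₁ = IsLocalization.integerNormalization (nonZeroDivisors ℤ) g₀ :=
    ⟨_, rfl⟩
  rw [← hg₁] at hbg
  have hb0 : b ≠ 0 := nonZeroDivisors.ne_zero hb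
  have hbg' : g₁.map (Int.castRingHom ℚ) = (b : ℚ) • g₀ := by
    rw [show (Int.castRingHom ℚ) = algebraMap ℤ ℚ from rfl, hbg]
    ext i
    simp
  have hg₁0 : g₁ ≠ 0 := by
    intro h
    rw [h, Polynomial.map_zero] at hbg'
    have := (smul_eq_zero.1 hbg'.symm).resolve_left (by exact_mod_cast hb0)
    exact hg₀0 this
  have hcont : (g₁.content : ℚ) ≠ 0 := by
    have : g₁.content ≠ 0 := content_eq_zero_iff.not.2 hg₁0
    exact_mod_cast this
  have hpp : g₁.primPart.map (Int.castRingHom ℚ) = ((b : ℚ) / g₁.content) • g₀ := by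
    have h1 := congrArg (Polynomial.map (Int.castRingHom ℚ)) g₁.eq_C_content_mul_primPart
    rw [Polynomial.map_mul, map_C, hbg'] at h1
    have h2 : C ((Int.castRingHom ℚ) g₁.content) * g₁.primPart.map (Int.castRingHom ℚ) =
        (g₁.content : ℚ) • g₁.primPart.map (Int.castRingHom ℚ) := by
      rw [smul_eq_C_mul]; rfl
    rw [h2] at h1
    rw [div_eq_inv_mul, mul_smul, h1, smul_smul, inv_mul_cancel₀ hcont, one_smul]
  have hdvd : g₁.primPart ∣ G := by
    rw [IsPrimitive.Int.dvd_iff_map_cast_dvd_map_cast _ _ g₁.isPrimitive_primPart, hpp]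
    rw [smul_eq_C_mul]
    refine (IsUnit.mul_left_dvd ?_).2 hg₀G
    rw [isUnit_C, isUnit_iff_ne_zero]
    exact div_ne_zero (by exact_mod_cast hb0) hcont
  have hdeg : g₁.primPart.natDegree < k := by
    have h1 : (g₁.primPart.map (Int.castRingHom ℚ)).natDegree = g₁.primPart.natDegree :=
      natDegree_map_eq_of_injective (RingHom.injective_int _) _
    rw [← h1, hpp, natDegree_smul _ (div_ne_zero (by exact_mod_cast hb0) hcont)]
    exact hg₀d
  refine ⟨g₁.primPart, g₁.primPart_ne_zero, hdeg, ?_, ?_⟩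
  · rw [hpp, map_smul, hg₀, smul_zero]
  · -- Mignotte's bound
    obtain ⟨h, hh⟩ := hdvd
    have hh0 : h ≠ 0 := by
      rintro rfl
      rw [mul_zero] at hh
      exact hG0 hh
    intro i
    have hinj : Function.Injective (Int.castRingHom ℂ) := RingHom.injective_int _
    have hlead : 1 ≤ (h.map (Int.castRingHom ℂ)).mahlerMeasure := by
      refine one_le_mahlerMeasure_of_one_le_norm_leadingCoeff ?_
      rw [leadingCoeff_map_of_injective hinj]
      have h1 : (1 : ℤ) ≤ |h.leadingCoeff| := Int.one_le_abs (leadingCoeff_ne_zero.2 hh0)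
      have h2 : ((1 : ℤ) : ℝ) ≤ ((|h.leadingCoeff| : ℤ) : ℝ) := by exact_mod_cast h1
      rw [Int.cast_one, Int.cast_abs] at h2
      simpa using h2
    have h1 := norm_coeff_le_choose_mul_mahlerMeasure_of_one_le_mahlerMeasure i
      (g₁.primPart.map (Int.castRingHom ℂ)) (h.map (Int.castRingHom ℂ)) hlead
    rw [← Polynomial.map_mul, ← hh, coeff_map] at h1
    have h2 : ‖(Int.castRingHom ℂ) (g₁.primPart.coeff i)‖ = |(g₁.primPart.coeff i : ℝ)| := by
      simp
    rw [h2] at h1
    have h3 : ((g₁.primPart.map (Int.castRingHom ℂ)).natDegree.choose i : ℝ) ≤ 2 ^ k := by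
      have h4 : (g₁.primPart.map (Int.castRingHom ℂ)).natDegree < k := by
        rw [natDegree_map_eq_of_injective hinj]
        exact hdeg
      have h5 : (g₁.primPart.map (Int.castRingHom ℂ)).natDegree.choose i ≤ 2 ^ k :=
        (Nat.choose_le_two_pow _ _).trans (Nat.pow_le_pow_right (by norm_num) h4.le)
      exact_mod_cast h5
    have hA0 : 0 ≤ A := (abs_nonneg _).trans (hA 0)
    have h4 : (G.map (Int.castRingHom ℂ)).mahlerMeasure ≤ (l + 1) * A := by
      refine (mahlerMeasure_le_sum_norm_coeff _).trans ?_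
      rw [Polynomial.sum_over_range _ (fun n => norm_zero)]
      refine (sum_le_card_nsmul _ _ A fun j _ => ?_).trans ?_
      · rw [coeff_map]
        have : ‖(Int.castRingHom ℂ) (G.coeff j)‖ = |(G.coeff j : ℝ)| := by simp
        rw [this]
        exact hA j
      · rw [card_range, nsmul_eq_mul, natDegree_map_eq_of_injective hinj]
        refine mul_le_mul_of_nonneg_right ?_ hA0
        exact_mod_cast Nat.succ_le_succ hGd
    calc |(g₁.primPart.coeff i : ℝ)| ≤ _ := h1
      _ ≤ 2 ^ k * ((l + 1) * A) := mul_le_mul h3 h4 (mahlerMeasure_nonneg _) (by positivity)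

end Pool.Agent.N120.EH
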