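import Mathlib
import Pool.Agent.N120.EH.Factor

/-! If a geometric progression modulo `N` has small residues, then its ratio is a root modulo `N` of
a polynomial of small degree with small coefficients. -/

set_option autoImplicit false

namespace Pool.Agent.N120.EH

open Finset Polynomial

/-- Siegel's lemma for a Hankel system -/
theorem siegel (r : ℕ → ℤ) (k l : ℕ) (hk : 1 ≤ k) (hkl : k < l + 1) (R : ℝ) (hR1 : 1 ≤ R)
    (hR : ∀ i ≤ l + k, |(r i : ℝ)| ≤ R) :
    ∃ G : ℤ[X], G ≠ 0 ∧ G.natDegree ≤ l ∧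
      (∀ i, |(G.coeff i : ℝ)| ≤ ((l + 1) * R) ^ ((k : ℝ) / ((l + 1 : ℕ) - k))) ∧
      ∀ j < k, phi r (G.map (Int.castRingHom ℚ) * X ^ j) = 0 := by
  classical
  letI := @Matrix.seminormedAddCommGroup (Fin k) (Fin (l + 1)) ℤ _ _ _
  obtain ⟨A, hA⟩ : ∃ A : Matrix (Fin k) (Fin (l + 1)) ℤ, A = Matrix.of
      (fun (j : Fin k) (i : Fin (l + 1)) => r ((i : ℕ) + (j : ℕ))) := ⟨_, rfl⟩
  obtain ⟨t, ht0, ht1, ht2⟩ := Int.Matrix.exists_ne_zero_int_vec_norm_le A
    (by rw [Fintype.card_fin, Fintype.card_fin]; exact hkl) (by rw [Fintype.card_fin]; omega)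
  have hAn : ‖A‖ ≤ R := by
    rw [Matrix.norm_le_iff (by linarith)]
    intro j i
    rw [hA, Matrix.of_apply, Int.norm_eq_abs]
    exact hR _ (by have := i.2; have := j.2; omega)
  have hb : ∀ i, |(t i : ℝ)| ≤ ((l + 1) * R) ^ ((k : ℝ) / ((l + 1 : ℕ) - k)) := by
    intro i
    have h1 : |(t i : ℝ)| ≤ ‖t‖ := by
      rw [← Int.norm_eq_abs]
      exact norm_le_pi_norm t i
    refine h1.trans (ht2.trans ?_)
    rw [Fintype.card_fin, Fintype.card_fin]
    refine Real.rpow_le_rpow (by positivity) ?_ ?_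
    · push_cast
      exact mul_le_mul_of_nonneg_left (max_le hR1 hAn) (by positivity)
    · refine div_nonneg (Nat.cast_nonneg _) (sub_nonneg.2 ?_)
      exact_mod_cast hkl.le
  have hcoeff : ∀ i : Fin (l + 1), (∑ i : Fin (l + 1), C (t i) * X ^ (i : ℕ) : ℤ[X]).coeff i = t i := by
    intro i
    simp only [finsetSum_coeff, coeff_C_mul, coeff_X_pow]
    rw [sum_eq_single i]
    · simp
    · intro j _ hj
      rw [if_neg, mul_zero]
      intro h
      exact hj (Fin.ext h.symm)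
    · intro h
      exact absurd (mem_univ _) h
  have hdeg : (∑ i : Fin (l + 1), C (t i) * X ^ (i : ℕ) : ℤ[X]).natDegree ≤ l := by
    refine natDegree_sum_le_of_forall_le _ _ fun i _ => ?_
    refine (natDegree_C_mul_X_pow_le _ _).trans ?_
    have := i.2
    omega
  refine ⟨∑ i : Fin (l + 1), C (t i) * X ^ (i : ℕ), ?_, hdeg, ?_, ?_⟩
  · intro h0
    apply ht0
    funext i
    rw [← hcoeff i, h0]
    simp
  · intro i
    rcases lt_or_ge i (l + 1) with hi | hi
    · have := hcoeff ⟨i, hi⟩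
      simp only at this
      rw [this]
      exact hb _
    · rw [coeff_eq_zero_of_natDegree_lt (by omega), Int.cast_zero, abs_zero]
      positivity
  · intro j hj
    have h1 : (∑ i : Fin (l + 1), C (t i) * X ^ (i : ℕ) : ℤ[X]).map (Int.castRingHom ℚ) =
        ∑ i : Fin (l + 1), C ((t i : ℤ) : ℚ) * X ^ (i : ℕ) := by
      rw [Polynomial.map_sum]
      refine sum_congr rfl fun i _ => ?_
      rw [Polynomial.map_mul, map_C, Polynomial.map_pow, map_X]
      rfl
    rw [h1, phi_sum]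
    have h2 := congrFun ht1 ⟨j, hj⟩
    rw [hA] at h2
    simp only [Matrix.mulVec, dotProduct, Matrix.of_apply, Pi.zero_apply] at h2
    have h3 : ((∑ i : Fin (l + 1), r ((i : ℕ) + j) * t i : ℤ) : ℚ) = 0 := by
      rw [h2, Int.cast_zero]
    push_cast at h3
    rw [← h3]
    exact sum_congr rfl fun i _ => mul_comm _ _

theorem str (K l n : ℕ) (hl : K + 1 ≤ l) (hn : l + 2 * (K + 1) ≤ n) (N : ℕ) (lam : ℤ)
    (r : ℕ → ℤ) (hr : ∀ i ≤ n, (N : ℤ) ∣ r i - r 0 * lam ^ i) (hr0 : IsCoprime (r 0) (N : ℤ))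
    (R : ℝ) (hR1 : 1 ≤ R) (hR : ∀ i ≤ n, |(r i : ℝ)| ≤ R)
    (hsmall : ((K + 1).factorial : ℝ) * R ^ (K + 1) < (N : ℝ) ^ K) :
    ∃ g : Fin (K + 1) → ℤ, g ≠ 0 ∧ (∀ i, |(g i : ℝ)| ≤
      2 ^ (K + 1) * ((l + 1) * ((l + 1) * R) ^ (((K + 1 : ℕ) : ℝ) / ((l + 1 : ℕ) - (K + 1 : ℕ))))) ∧
      (N : ℤ) ∣ ∑ i, g i * lam ^ (i : ℕ) := by
  classical
  -- the relation
  have hrel := exists_relation (K + 1) (n + 1 - K) r (fun c => by
    refine det_eq_zero K N lam r n hr R hR hsmall (fun j => (c j : ℕ)) (fun j => ?_)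
    have := (c j).2
    omega)
  obtain ⟨G, hG0, hGd, hGc, hG⟩ := siegel r (K + 1) l (by omega) (by omega) R hR1
    (fun i hi => hR i (by omega))
  obtain ⟨g, hg0, hgd, hgφ, hgc⟩ := exists_int_factor r (K + 1) l (n + 1 - K) (by omega) (by omega)
    hrel G hG0 hGd _ hGc hG
  have hsum : (g.map (Int.castRingHom ℚ)) = ∑ i : Fin (K + 1), C ((g.coeff i : ℤ) : ℚ) * X ^ (i : ℕ) := by
    rw [(g.map (Int.castRingHom ℚ)).as_sum_range' (K + 1)
      (lt_of_le_of_lt natDegree_map_le hgd), sum_range]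
    refine sum_congr rfl fun i _ => ?_
    rw [coeff_map, C_mul_X_pow_eq_monomial]
    rfl
  refine ⟨fun i => g.coeff i, ?_, ?_, ?_⟩
  · intro h0
    apply hg0
    ext i
    rcases lt_or_ge i (K + 1) with hi | hi
    · exact congrFun h0 ⟨i, hi⟩
    · rw [coeff_eq_zero_of_natDegree_lt (by omega), coeff_zero]
  · intro i
    exact hgc i
  · have h1 : ∑ i : Fin (K + 1), g.coeff i * r i = 0 := by
      have h2 := phi_sum r (K + 1) 0 (fun i => ((g.coeff i : ℤ) : ℚ))
      rw [pow_zero, mul_one, ← hsum, hgφ] at h2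
      have h3 : ((∑ i : Fin (K + 1), g.coeff i * r i : ℤ) : ℚ) = 0 := by
        push_cast
        rw [h2]
        simp
      exact_mod_cast h3
    have h2 : (N : ℤ) ∣ ∑ i : Fin (K + 1), g.coeff i * (r i - r 0 * lam ^ (i : ℕ)) :=
      dvd_sum fun i _ => (hr i (by have := i.2; omega)).mul_left _
    have h3 : ∑ i : Fin (K + 1), g.coeff i * (r i - r 0 * lam ^ (i : ℕ)) =
        -(r 0 * ∑ i : Fin (K + 1), g.coeff i * lam ^ (i : ℕ)) := by
      have h4 : ∑ i : Fin (K + 1), g.coeff i * (r i - r 0 * lam ^ (i : ℕ)) =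
          ∑ i : Fin (K + 1), g.coeff i * r i - r 0 * ∑ i : Fin (K + 1), g.coeff i * lam ^ (i : ℕ) := by
        rw [mul_sum, ← sum_sub_distrib]
        exact sum_congr rfl fun i _ => by ring
      rw [h4, h1, zero_sub]
    rw [h3, dvd_neg] at h2
    exact (hr0.symm).dvd_of_dvd_mul_left h2

end Pool.Agent.N120.EH
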