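import Mathlib
import Pool.Agent.N120.EH.Str
import Pool.Agent.H442R2.EHI.Defs

/-! Frequencies that are close to each other come from small polynomials. -/

set_option autoImplicit false

namespace Pool.Agent.N120.EH

open Finset
open Pool.Agent.H442R2.EHI (nint)

theorem close_aux (K l n : ℕ) (hl : K + 1 ≤ l) (hn : l + 2 * (K + 1) ≤ n) (M Y N : ℕ) (hM : 1 ≤ M)
    (hN2 : 2 ≤ N) (hNY : N ≤ Y) (hYM : ((K + 1).factorial : ℝ) * Y < (2 * (M : ℝ)) ^ (K + 1))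
    (U V κ t : ℤ) (hV : IsCoprime V (N : ℤ)) (hκ : IsCoprime κ (N : ℤ)) (ht : IsCoprime t (N : ℤ))
    (hclose : ∀ i ≤ n, nint ((t : ℝ) * ((κ * V ^ (n - i) * U ^ i : ℤ) : ℝ) / N) ≤ 1 / (2 * (M : ℝ))) :
    ∃ g : Fin (K + 1) → ℤ, g ≠ 0 ∧ (∀ i, |(g i : ℝ)| ≤
      2 ^ (K + 1) * ((l + 1) * ((l + 1) * (Y : ℝ)) ^ (((K + 1 : ℕ) : ℝ) / ((l + 1 : ℕ) - (K + 1 : ℕ))))) ∧
      (N : ℤ) ∣ ∑ i, g i * U ^ (i : ℕ) * V ^ (K - (i : ℕ)) := by
  have hN0 : (0 : ℝ) < N := by positivity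
  have hM0 : (0 : ℝ) < M := by exact_mod_cast hM
  obtain ⟨x, y, hxy⟩ := hV
  obtain ⟨lam, hlam⟩ : ∃ lam : ℤ, lam = x * U := ⟨_, rfl⟩
  have hlV : (N : ℤ) ∣ lam * V - U := by
    refine ⟨-(U * y), ?_⟩
    rw [hlam]
    linear_combination U * hxy
  have hlVi : ∀ i : ℕ, (N : ℤ) ∣ (lam * V) ^ i - U ^ i := fun i =>
    hlV.trans (sub_dvd_pow_sub_pow _ _ i)
  have hV' : IsCoprime V (N : ℤ) := ⟨x, y, hxy⟩
  obtain ⟨r, hr⟩ : ∃ r : ℕ → ℤ, ∀ i, r i = t * (κ * V ^ (n - i) * U ^ i) -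
      N * round ((t : ℝ) * ((κ * V ^ (n - i) * U ^ i : ℤ) : ℝ) / N) := ⟨_, fun i => rfl⟩
  have hrR : ∀ i ≤ n, |(r i : ℝ)| ≤ N / (2 * (M : ℝ)) := by
    intro i hi
    have h1 := hclose i hi
    unfold nint at h1
    have h2 : (r i : ℝ) = N * ((t : ℝ) * ((κ * V ^ (n - i) * U ^ i : ℤ) : ℝ) / N -
        round ((t : ℝ) * ((κ * V ^ (n - i) * U ^ i : ℤ) : ℝ) / N)) := by
      rw [hr]
      push_cast
      field_simp
    rw [h2, abs_mul, abs_of_pos hN0]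
    calc (N : ℝ) * _ ≤ N * (1 / (2 * (M : ℝ))) := mul_le_mul_of_nonneg_left h1 hN0.le
      _ = N / (2 * (M : ℝ)) := by ring
  have hr0 : IsCoprime (r 0) (N : ℤ) := by
    have h1 : IsCoprime (t * (κ * V ^ (n - 0) * U ^ 0)) (N : ℤ) := by
      rw [pow_zero, mul_one]
      exact ht.mul_left (hκ.mul_left hV'.pow_left)
    rw [hr]
    have h2 := h1.add_mul_left_left (-round ((t : ℝ) * ((κ * V ^ (n - 0) * U ^ 0 : ℤ) : ℝ) / N))
    have h3 : t * (κ * V ^ (n - 0) * U ^ 0) - N * round ((t : ℝ) * ((κ * V ^ (n - 0) * U ^ 0 : ℤ) : ℝ) / N) =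
        t * (κ * V ^ (n - 0) * U ^ 0) + N * -round ((t : ℝ) * ((κ * V ^ (n - 0) * U ^ 0 : ℤ) : ℝ) / N) := by
      ring
    rw [h3]
    exact h2
  have hrl : ∀ i ≤ n, (N : ℤ) ∣ r i - r 0 * lam ^ i := by
    intro i hi
    rw [hr, hr]
    have h1 : V ^ (n - 0) = V ^ (n - i) * V ^ i := by
      rw [← pow_add]
      congr 1
      omega
    obtain ⟨w, hw⟩ := hlVi i
    rw [mul_pow] at hw
    refine ⟨-round ((t : ℝ) * ((κ * V ^ (n - i) * U ^ i : ℤ) : ℝ) / N) +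
      round ((t : ℝ) * ((κ * V ^ (n - 0) * U ^ 0 : ℤ) : ℝ) / N) * lam ^ i -
      t * κ * V ^ (n - i) * w, ?_⟩
    rw [pow_zero, mul_one]
    linear_combination (-(t * κ * lam ^ i)) * h1 - (t * κ * V ^ (n - i)) * hw
  -- the trivial case
  rcases lt_or_ge ((N : ℝ) / (2 * M)) 1 with hlt | hge
  · exfalso
    have h1 := (hrR 0 (Nat.zero_le _)).trans_lt hlt
    have h2 : r 0 = 0 := by
      rw [← Int.abs_lt_one_iff]
      have h3 : ((|r 0| : ℤ) : ℝ) < ((1 : ℤ) : ℝ) := by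
        rw [Int.cast_abs, Int.cast_one]; exact h1
      exact_mod_cast h3
    rw [h2, isCoprime_zero_left, Int.isUnit_iff] at hr0
    omega
  · have hsmall : ((K + 1).factorial : ℝ) * ((N : ℝ) / (2 * M)) ^ (K + 1) < (N : ℝ) ^ K := by
      rw [div_pow, mul_div_assoc', div_lt_iff₀ (by positivity), pow_succ (N : ℝ) K]
      have h1 : (N : ℝ) ≤ Y := by exact_mod_cast hNY
      calc ((K + 1).factorial : ℝ) * ((N : ℝ) ^ K * N) = (N : ℝ) ^ K * (((K + 1).factorial : ℝ) * N) := by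
            ring
        _ ≤ (N : ℝ) ^ K * (((K + 1).factorial : ℝ) * Y) := by
            refine mul_le_mul_of_nonneg_left (mul_le_mul_of_nonneg_left h1 (by positivity))
              (by positivity)
        _ < (N : ℝ) ^ K * (2 * (M : ℝ)) ^ (K + 1) := mul_lt_mul_of_pos_left hYM (by positivity)
    obtain ⟨g, hg0, hg1, hg2⟩ := str K l n hl hn N lam r hrl hr0 _ hge hrR hsmall
    refine ⟨g, hg0, fun i => (hg1 i).trans ?_, ?_⟩
    · refine mul_le_mul_of_nonneg_left (mul_le_mul_of_nonneg_left ?_ (by positivity)) (by positivity)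
      refine Real.rpow_le_rpow (by positivity) ?_ ?_
      · refine mul_le_mul_of_nonneg_left ?_ (by positivity)
        have h1 : (N : ℝ) ≤ Y := by exact_mod_cast hNY
        have h2 : (1 : ℝ) ≤ 2 * M := by
          have : (1 : ℝ) ≤ M := by exact_mod_cast hM
          linarith
        exact (div_le_self hN0.le h2).trans h1
      · refine div_nonneg (Nat.cast_nonneg _) (sub_nonneg.2 ?_)
        exact_mod_cast (by omega : K + 1 ≤ l + 1)
    · have h1 : (N : ℤ) ∣ (∑ i : Fin (K + 1), g i * lam ^ (i : ℕ)) * V ^ K := hg2.mul_right _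
      have h2 : (N : ℤ) ∣ ∑ i : Fin (K + 1), g i * V ^ (K - (i : ℕ)) *
          ((lam * V) ^ (i : ℕ) - U ^ (i : ℕ)) := dvd_sum fun i _ => (hlVi i).mul_left _
      have h3 : ∑ i : Fin (K + 1), g i * U ^ (i : ℕ) * V ^ (K - (i : ℕ)) =
          (∑ i : Fin (K + 1), g i * lam ^ (i : ℕ)) * V ^ K - ∑ i : Fin (K + 1),
            g i * V ^ (K - (i : ℕ)) * ((lam * V) ^ (i : ℕ) - U ^ (i : ℕ)) := by
        rw [sum_mul, ← sum_sub_distrib]
        refine sum_congr rfl fun i _ => ?_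
        have h4 : V ^ K = V ^ (i : ℕ) * V ^ (K - (i : ℕ)) := by
          rw [← pow_add]
          congr 1
          have := i.2
          omega
        rw [h4, mul_pow]
        ring
      rw [h3]
      exact dvd_sub h1 h2

theorem close_bad (K l n : ℕ) (hl : K + 1 ≤ l) (hn : l + 2 * (K + 1) ≤ n) (M X : ℕ) (hM : 1 ≤ M)
    (hXM : ((K + 1).factorial : ℝ) * ((X ^ 2 : ℕ) : ℝ) < (2 * (M : ℝ)) ^ (K + 1))
    (U V κ : ℤ) (p p' : ℕ) (hp : p.Prime) (hp' : p'.Prime) (hpX : p ≤ X) (hpX' : p' ≤ X)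
    (hpV : ¬ (p : ℤ) ∣ V) (hpV' : ¬ (p' : ℤ) ∣ V) (hpκ : ¬ (p : ℤ) ∣ κ) (hpκ' : ¬ (p' : ℤ) ∣ κ)
    (a a' : ℕ) (ha : 0 < a) (hap : a < p) (ha' : 0 < a') (hap' : a' < p')
    (hne : ¬ (p = p' ∧ a = a'))
    (hclose : ∀ i ≤ n, nint ((a : ℝ) * ((κ * V ^ (n - i) * U ^ i : ℤ) : ℝ) / p -
      (a' : ℝ) * ((κ * V ^ (n - i) * U ^ i : ℤ) : ℝ) / p') ≤ 1 / (2 * (M : ℝ))) :
    ∃ g : Fin (K + 1) → ℤ, g ≠ 0 ∧ (∀ i, |(g i : ℝ)| ≤
      2 ^ (K + 1) * ((l + 1) * ((l + 1) * ((X ^ 2 : ℕ) : ℝ)) ^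
        (((K + 1 : ℕ) : ℝ) / ((l + 1 : ℕ) - (K + 1 : ℕ))))) ∧
      (p : ℤ) ∣ ∑ i, g i * U ^ (i : ℕ) * V ^ (K - (i : ℕ)) := by
  have hpz := Nat.prime_iff_prime_int.1 hp
  have hpz' := Nat.prime_iff_prime_int.1 hp'
  have hcop : ∀ z : ℤ, ¬ (p : ℤ) ∣ z → IsCoprime z (p : ℤ) := fun z hz =>
    (hpz.irreducible.coprime_iff_not_dvd.2 hz).symm
  have hcop' : ∀ z : ℤ, ¬ (p' : ℤ) ∣ z → IsCoprime z (p' : ℤ) := fun z hz =>
    (hpz'.irreducible.coprime_iff_not_dvd.2 hz).symm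
  have hpR : (p : ℝ) ≠ 0 := by exact_mod_cast hp.ne_zero
  have hpR' : (p' : ℝ) ≠ 0 := by exact_mod_cast hp'.ne_zero
  by_cases hpp : p = p'
  · subst hpp
    have haa : a ≠ a' := fun h => hne ⟨rfl, h⟩
    have ht : IsCoprime ((a : ℤ) - a') (p : ℤ) := by
      refine hcop _ fun hd => ?_
      have := Int.eq_zero_of_abs_lt_dvd hd (by rw [abs_lt]; constructor <;> omega)
      omega
    exact close_aux K l n hl hn M (X ^ 2) p hM hp.two_le (by nlinarith [hp.two_le]) hXM U V κ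
      ((a : ℤ) - a') (hcop V hpV) (hcop κ hpκ) ht (fun i hi => by
        have h1 := hclose i hi
        have h2 : (((a : ℤ) - a' : ℤ) : ℝ) * ((κ * V ^ (n - i) * U ^ i : ℤ) : ℝ) / (p : ℝ) =
            (a : ℝ) * ((κ * V ^ (n - i) * U ^ i : ℤ) : ℝ) / p -
              (a' : ℝ) * ((κ * V ^ (n - i) * U ^ i : ℤ) : ℝ) / p := by
          push_cast
          ring
        rw [h2]
        exact h1)
  · have hpd : ¬ (p : ℤ) ∣ (p' : ℤ) := by
      intro h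
      have h1 : p ∣ p' := by exact_mod_cast h
      exact hpp ((Nat.prime_dvd_prime_iff_eq hp hp').1 h1)
    have hpd' : ¬ (p' : ℤ) ∣ (p : ℤ) := by
      intro h
      have h1 : p' ∣ p := by exact_mod_cast h
      exact hpp ((Nat.prime_dvd_prime_iff_eq hp' hp).1 h1).symm
    have hpa : ¬ (p : ℤ) ∣ (a : ℤ) := by
      intro h
      have h1 : p ∣ a := by exact_mod_cast h
      exact absurd (Nat.le_of_dvd ha h1) (by omega)
    have hpa' : ¬ (p' : ℤ) ∣ (a' : ℤ) := by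
      intro h
      have h1 : p' ∣ a' := by exact_mod_cast h
      exact absurd (Nat.le_of_dvd ha' h1) (by omega)
    have hNc : ((p * p' : ℕ) : ℤ) = (p : ℤ) * (p' : ℤ) := by push_cast; ring
    have ht : IsCoprime ((a : ℤ) * p' - a' * p) ((p * p' : ℕ) : ℤ) := by
      rw [hNc]
      refine (hcop _ fun hd => ?_).mul_right (hcop' _ fun hd => ?_)
      · have h1 : (p : ℤ) ∣ (a : ℤ) * p' := by
          have := dvd_add hd (Dvd.intro_left (a' : ℤ) rfl : (p : ℤ) ∣ a' * p)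
          simpa using this
        rcases hpz.dvd_or_dvd h1 with h | h
        · exact hpa h
        · exact hpd h
      · have h1 : (p' : ℤ) ∣ (a' : ℤ) * p := by
          have := dvd_sub (Dvd.intro_left (a : ℤ) rfl : (p' : ℤ) ∣ a * p') hd
          simpa using this
        rcases hpz'.dvd_or_dvd h1 with h | h
        · exact hpa' h
        · exact hpd' h
    have hN2 : 2 ≤ p * p' := by nlinarith [hp.two_le, hp'.two_le]
    have hNX : p * p' ≤ X ^ 2 := by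
      rw [sq]
      exact Nat.mul_le_mul hpX hpX'
    obtain ⟨g, hg0, hg1, hg2⟩ := close_aux K l n hl hn M (X ^ 2) (p * p') hM hN2 hNX hXM U V κ
      ((a : ℤ) * p' - a' * p) (by rw [hNc]; exact (hcop V hpV).mul_right (hcop' V hpV'))
      (by rw [hNc]; exact (hcop κ hpκ).mul_right (hcop' κ hpκ')) ht (fun i hi => by
        have h1 := hclose i hi
        have h2 : (((a : ℤ) * p' - a' * p : ℤ) : ℝ) * ((κ * V ^ (n - i) * U ^ i : ℤ) : ℝ) /
            ((p * p' : ℕ) : ℝ) = (a : ℝ) * ((κ * V ^ (n - i) * U ^ i : ℤ) : ℝ) / p -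
              (a' : ℝ) * ((κ * V ^ (n - i) * U ^ i : ℤ) : ℝ) / p' := by
          push_cast
          field_simp
        rw [h2]
        exact h1)
    exact ⟨g, hg0, hg1, dvd_trans (by rw [hNc]; exact Dvd.intro _ rfl) hg2⟩

end Pool.Agent.N120.EH
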