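import Mathlib
import Pool.Agent.N120.EH.Classes
import Pool.Agent.H678RR.RR_F
import Pool.Agent.Helper94.RR_HUP
import Pool.Agent.H769R2.RR_HDB
import Pool.Agent.H64R2.DC_MW

/-! The number of the rational points of bounded height of an elliptic curve. -/

set_option autoImplicit false

namespace Pool.Agent.N120.EH

open Finset Pool.Agent.H925R3.DC Pool.Agent.H925R3.RR

theorem ht_nonneg (q : ℚ) : 0 ≤ ht q := Pool.Agent.H769R2.rr_ht_nonneg q

theorem htp_nonneg {a b : ℚ} (P : (crv ℚ a b).Point) : 0 ≤ htp P := by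
  unfold htp
  split_ifs
  · exact le_rfl
  · exact ht_nonneg _

theorem finite_ht (T : ℝ) : {q : ℚ | ht q ≤ T}.Finite := by
  obtain ⟨M, hM⟩ : ∃ M : ℤ, M = ⌊Real.exp T⌋ := ⟨_, rfl⟩
  have h1 : ({q : ℚ | ht q ≤ T}.image (fun q : ℚ => (q.num, q.den))).Finite := by
    refine ((Set.finite_Icc (-M) M).prod (Set.finite_Icc 0 M.toNat)).subset ?_
    rintro _ ⟨q, hq, rfl⟩
    have hq1 : ht q ≤ T := hq
    unfold ht at hq1
    have hd : (0 : ℤ) < q.den := by exact_mod_cast q.den_pos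
    have hmx : (0 : ℤ) < max |q.num| (q.den : ℤ) := lt_of_lt_of_le hd (le_max_right _ _)
    have h2 : ((max |q.num| (q.den : ℤ) : ℤ) : ℝ) ≤ Real.exp T := by
      rw [← Real.log_le_iff_le_exp (by exact_mod_cast hmx)]
      exact hq1
    have h3 : max |q.num| (q.den : ℤ) ≤ M := by
      rw [hM]
      exact Int.le_floor.2 h2
    have h4 := (le_max_left |q.num| (q.den : ℤ)).trans h3
    have h5 := (le_max_right |q.num| (q.den : ℤ)).trans h3
    rw [Set.mem_prod, Set.mem_Icc, Set.mem_Icc]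
    refine ⟨abs_le.1 h4, Nat.zero_le _, ?_⟩
    simp only
    omega
  refine Set.Finite.of_finite_image h1 ?_
  rintro q - q' - he
  simp only [Prod.mk.injEq] at he
  exact Rat.ext he.1 he.2

/-- Northcott -/
theorem finite_htp (a b : ℤ) (T : ℝ) :
    {P : (crv ℚ (a : ℚ) (b : ℚ)).Point | htp P ≤ T}.Finite := by
  have h1 : {P : (crv ℚ (a : ℚ) (b : ℚ)).Point | htp P ≤ T} ⊆ {0} ∪ ⋃ x ∈ {q : ℚ | ht q ≤ T},
      {P : (crv ℚ (a : ℚ) (b : ℚ)).Point | P ≠ 0 ∧ xc P = x} := by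
    intro P hP
    by_cases hP0 : P = 0
    · left; exact hP0
    · right
      rw [Set.mem_iUnion₂]
      refine ⟨xc P, ?_, hP0, rfl⟩
      have : htp P ≤ T := hP
      unfold htp at this
      rwa [if_neg hP0] at this
  refine Set.Finite.subset ((Set.finite_singleton _).union ((finite_ht T).biUnion fun x _ => ?_)) h1
  by_cases hne : ∃ P : (crv ℚ (a : ℚ) (b : ℚ)).Point, P ≠ 0 ∧ xc P = x
  · obtain ⟨P, hP0, hPx⟩ := hne
    refine Set.Finite.subset ((Set.finite_singleton P).union (Set.finite_singleton (-P))) ?_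
    rintro Q ⟨hQ0, hQx⟩
    rcases (Pool.Agent.H678RR.feq ℚ (a : ℚ) (b : ℚ) Q P).2.1 hQ0 hP0 (hQx.trans hPx.symm) with h | h
    · left; exact h
    · right; exact h
  · refine Set.Finite.subset Set.finite_empty ?_
    intro P hP
    exact hne ⟨P, hP⟩

theorem count_points (a b : ℤ) (hab : 4 * a ^ 3 + 27 * b ^ 2 ≠ 0) (ε : ℝ) (hε : 0 < ε) :
    ∃ C : ℝ, 0 < C ∧ ∀ T : ℝ, 1 ≤ T →
      ∀ U : Finset (crv ℚ (a : ℚ) (b : ℚ)).Point, (∀ P ∈ U, htp P ≤ T) →
      (U.card : ℝ) ≤ C * T ^ ((Module.finrank ℤ (crv ℚ (a : ℚ) (b : ℚ)).Point : ℝ) / 2 + ε) := by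
  classical
  haveI := Pool.Agent.H64R2.DCMW.mw a b hab
  obtain ⟨C₁, hC₁⟩ := Pool.Agent.Helper94.RRHUP.hup Pool.Agent.H678RR.fsp Pool.Agent.H678RR.fdb
    Pool.Agent.H678RR.feq a b hab
  obtain ⟨C₂, hC₂⟩ := Pool.Agent.H769R2.rr_hdb Pool.Agent.H678RR.fdb Pool.Agent.H678RR.feq a b hab
  obtain ⟨t, ht⟩ := classes (crv ℚ (a : ℚ) (b : ℚ)).Point
  obtain ⟨ρ, hρ⟩ : ∃ ρ : ℕ, ρ = Module.finrank ℤ (crv ℚ (a : ℚ) (b : ℚ)).Point := ⟨_, rfl⟩
  obtain ⟨κ, hκ⟩ : ∃ κ : ℝ, κ = (ρ : ℝ) / 2 + ε := ⟨_, rfl⟩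
  rw [← hρ, ← hκ]
  rw [← hρ] at ht
  have hκ0 : 0 < κ := by rw [hκ]; positivity
  -- doubling
  have hdbl : ∀ k : ℕ, ∃ D : ℝ, 0 ≤ D ∧ ∀ P : (crv ℚ (a : ℚ) (b : ℚ)).Point,
      4 ^ k * htp P ≤ htp ((2 ^ k : ℕ) • P) + D := by
    intro k
    induction k with
    | zero => exact ⟨0, le_rfl, fun P => by simp⟩
    | succ k ih =>
      obtain ⟨D, hD0, hD⟩ := ih
      refine ⟨4 * D + |C₂|, by positivity, fun P => ?_⟩
      have h1 := hD P
      have h2 := hC₂ ((2 ^ k : ℕ) • P)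
      have h3 : (2 ^ k : ℕ) • P + (2 ^ k : ℕ) • P = (2 ^ (k + 1) : ℕ) • P := by
        rw [← add_smul]
        congr 1
        ring
      rw [h3] at h2
      have h4 := le_abs_self C₂
      rw [pow_succ]
      linarith
  -- choice of `k`
  obtain ⟨k, hk⟩ : ∃ k : ℕ, (t : ℝ) * 3 ^ κ ≤ 2 ^ (2 * (k : ℝ) * ε) ∧ 1 ≤ k := by
    have h1 : Filter.Tendsto (fun k : ℕ => (2 : ℝ) ^ (2 * (k : ℝ) * ε)) Filter.atTop Filter.atTop := by
      have h2 : Filter.Tendsto (fun k : ℕ => (((2 : ℝ) ^ (2 * ε)) ^ k)) Filter.atTop Filter.atTop :=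
        tendsto_pow_atTop_atTop_of_one_lt (Real.one_lt_rpow (by norm_num) (by positivity))
      refine h2.congr fun k => ?_
      rw [← Real.rpow_natCast, ← Real.rpow_mul (by norm_num)]
      congr 1
      ring
    exact ((h1.eventually (Filter.eventually_ge_atTop _)).and (Filter.eventually_ge_atTop 1)).exists
  obtain ⟨hk1, hk2⟩ := hk
  obtain ⟨D, hD0, hD⟩ := hdbl k
  obtain ⟨R, hRc, hR⟩ := ht (2 ^ k) (by positivity)
  -- bound for the heights of the representatives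
  obtain ⟨E, hE0, hE⟩ : ∃ E : ℝ, 0 ≤ E ∧ ∀ g ∈ R, htp g ≤ E := by
    refine ⟨∑ g ∈ R, htp g, sum_nonneg fun g _ => htp_nonneg g, fun g hg => ?_⟩
    exact single_le_sum (f := fun g => htp g) (fun g _ => htp_nonneg g) hg
  obtain ⟨F, hF⟩ : ∃ F : ℝ, F = 2 * E + |C₁| + D := ⟨_, rfl⟩
  have hF0 : 0 ≤ F := by rw [hF]; positivity
  obtain ⟨T₀, hT₀⟩ : ∃ T₀ : ℝ, T₀ = max F (4 ^ k) := ⟨_, rfl⟩
  have hT₀F : F ≤ T₀ := by rw [hT₀]; exact le_max_left _ _
  have hT₀4 : (4 : ℝ) ^ k ≤ T₀ := by rw [hT₀]; exact le_max_right _ _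
  have h4k : (4 : ℝ) ≤ 4 ^ k := by
    calc (4 : ℝ) = 4 ^ 1 := by norm_num
      _ ≤ 4 ^ k := pow_le_pow_right₀ (by norm_num) hk2
  have hT₀1 : 1 ≤ T₀ := by linarith
  -- base
  obtain ⟨B, hB⟩ : ∃ B : ℕ, ∀ U : Finset (crv ℚ (a : ℚ) (b : ℚ)).Point,
      (∀ P ∈ U, htp P ≤ T₀) → U.card ≤ B := by
    refine ⟨(finite_htp a b T₀).toFinset.card, fun U hU => card_le_card fun P hP => ?_⟩
    rw [Set.Finite.mem_toFinset]
    exact hU P hP
  obtain ⟨C, hC⟩ : ∃ C : ℝ, C = (B : ℝ) + 1 := ⟨_, rfl⟩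
  have hC0 : 0 < C := by rw [hC]; positivity
  refine ⟨C, hC0, ?_⟩
  -- recursion step
  have hstep : ∀ (T K : ℝ), T₀ ≤ T → (∀ U : Finset (crv ℚ (a : ℚ) (b : ℚ)).Point,
      (∀ P ∈ U, htp P ≤ 3 * T / 4 ^ k) → (U.card : ℝ) ≤ K) →
      ∀ U : Finset (crv ℚ (a : ℚ) (b : ℚ)).Point, (∀ P ∈ U, htp P ≤ T) →
      (U.card : ℝ) ≤ ((t : ℝ) * (2 ^ k) ^ ρ) * K := by
    intro T K hT hK U hU
    have hK0 : 0 ≤ K := by simpa using hK ∅ (by simp)
    choose r hr Q hQ using hR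
    have h1 : (U.card : ℝ) = ∑ g ∈ R, ((U.filter (fun P => r P = g)).card : ℝ) := by
      exact_mod_cast card_eq_sum_card_fiberwise (fun P _ => hr P)
    have h2 : ∀ g ∈ R, ((U.filter (fun P => r P = g)).card : ℝ) ≤ K := by
      intro g hg
      have h3 : ((U.filter (fun P => r P = g)).image Q).card = (U.filter (fun P => r P = g)).card := by
        refine card_image_of_injOn ?_
        intro P hP P' hP' he
        have e1 := (mem_filter.1 hP).2
        have e2 := (mem_filter.1 hP').2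
        have he' : Q P = Q P' := he
        rw [hQ P, hQ P', e1, e2, he']
      rw [← h3]
      refine hK _ fun q hq => ?_
      obtain ⟨P, hP, rfl⟩ := mem_image.1 hq
      obtain ⟨hPU, hPg⟩ := mem_filter.1 hP
      have h4 := hD (Q P)
      have h5 : (2 ^ k : ℕ) • Q P = P - r P := by
        rw [eq_sub_iff_add_eq, add_comm]
        exact (hQ P).symm
      rw [h5] at h4
      have h6 := hC₁ P (r P)
      have h7 := htp_nonneg (P + r P)
      have h8 : htp (r P) ≤ E := by rw [hPg]; exact hE g hg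
      have h9 := hU P hPU
      have h10 := le_abs_self C₁
      have h11 : 4 ^ k * htp (Q P) ≤ 3 * T := by linarith
      rw [le_div_iff₀ (by positivity)]
      linarith
    rw [h1]
    refine (sum_le_card_nsmul _ _ K h2).trans ?_
    rw [nsmul_eq_mul]
    refine mul_le_mul_of_nonneg_right ?_ hK0
    exact_mod_cast hRc
  -- induction
  have hmain : ∀ n : ℕ, ∀ T : ℝ, 1 ≤ T → T ≤ T₀ * (4 / 3) ^ n →
      ∀ U : Finset (crv ℚ (a : ℚ) (b : ℚ)).Point, (∀ P ∈ U, htp P ≤ T) →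
      (U.card : ℝ) ≤ C * T ^ κ := by
    have hbase : ∀ T : ℝ, 1 ≤ T → T ≤ T₀ →
        ∀ U : Finset (crv ℚ (a : ℚ) (b : ℚ)).Point, (∀ P ∈ U, htp P ≤ T) →
        (U.card : ℝ) ≤ C * T ^ κ := by
      intro T hT1 hT U hU
      have h1 : (U.card : ℝ) ≤ B := by exact_mod_cast hB U fun P hP => (hU P hP).trans hT
      have h2 : 1 ≤ T ^ κ := Real.one_le_rpow hT1 hκ0.le
      calc (U.card : ℝ) ≤ B := h1
        _ ≤ C := by rw [hC]; linarith
        _ = C * 1 := (mul_one _).symm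
        _ ≤ C * T ^ κ := mul_le_mul_of_nonneg_left h2 hC0.le
    intro n
    induction n with
    | zero =>
      intro T hT1 hT
      rw [pow_zero, mul_one] at hT
      exact hbase T hT1 hT
    | succ n ih =>
      intro T hT1 hT U hU
      rcases le_total T T₀ with h | h
      · exact hbase T hT1 h U hU
      · have h1 : 3 * T / 4 ^ k ≤ T₀ * (4 / 3) ^ n := by
          rw [div_le_iff₀ (by positivity)]
          rw [pow_succ] at hT
          have h2 : (0 : ℝ) < (4 / 3) ^ n := by positivity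
          have h3 : 3 * T ≤ T₀ * (4 / 3) ^ n * 4 := by linarith
          refine h3.trans ?_
          exact mul_le_mul_of_nonneg_left h4k (by positivity)
        have h2 : 1 ≤ 3 * T / 4 ^ k := by
          rw [le_div_iff₀ (by positivity)]
          linarith
        have h3 := hstep T (C * (3 * T / 4 ^ k) ^ κ) h (ih _ h2 h1) U hU
        refine h3.trans ?_
        have hT0 : 0 < T := by linarith
        have e1 : (3 * T / 4 ^ k) ^ κ = 3 ^ κ * T ^ κ / (4 ^ k) ^ κ := by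
          rw [Real.div_rpow (by positivity) (by positivity), Real.mul_rpow (by norm_num) hT0.le]
        have e2 : ((4 : ℝ) ^ k) ^ κ = (2 ^ k) ^ ρ * 2 ^ (2 * (k : ℝ) * ε) := by
          rw [show (4 : ℝ) = 2 ^ (2 : ℕ) by norm_num, ← pow_mul, ← pow_mul, ← Real.rpow_natCast,
            ← Real.rpow_mul (by norm_num), ← Real.rpow_natCast, ← Real.rpow_add (by norm_num), hκ]
          congr 1
          push_cast
          ring
        rw [e1, e2]
        have h5 : (0 : ℝ) < (2 ^ k) ^ ρ := by positivity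
        have h6 : (0 : ℝ) < 2 ^ (2 * (k : ℝ) * ε) := by positivity
        have h7 : 0 < T ^ κ := Real.rpow_pos_of_pos hT0 κ
        calc (t : ℝ) * (2 ^ k) ^ ρ * (C * (3 ^ κ * T ^ κ / ((2 ^ k) ^ ρ * 2 ^ (2 * (k : ℝ) * ε)))) =
            ((t : ℝ) * 3 ^ κ) / 2 ^ (2 * (k : ℝ) * ε) * (C * T ^ κ) := by
              field_simp
          _ ≤ 1 * (C * T ^ κ) := by
              refine mul_le_mul_of_nonneg_right ?_ (by positivity)
              rw [div_le_one h6]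
              exact hk1
          _ = C * T ^ κ := one_mul _
  intro T hT U hU
  obtain ⟨n, hn⟩ : ∃ n : ℕ, T ≤ T₀ * (4 / 3) ^ n := by
    obtain ⟨n, hn⟩ := pow_unbounded_of_one_lt T (by norm_num : (1 : ℝ) < 4 / 3)
    refine ⟨n, hn.le.trans ?_⟩
    have : (0 : ℝ) < (4 / 3) ^ n := by positivity
    nlinarith
  exact hmain n T hT hn U hU

end Pool.Agent.N120.EH
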