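import Mathlib
import Pool.Agent.H925R3.RR.Stubs

/-! Definitions. -/

set_option autoImplicit false

namespace Pool.Agent.N120.EH

open Finset Pool.Agent.H925R3.DC

/-- the index type of the coefficients of `(f_1, …, f_d)`, where `f_(i+1)` is a form of degree
`(i+1) m` in variables indexed by `σ`; the monomials of degree `k` are the multisets of `k`
variables -/
abbrev Idx (σ : Type) (m d : ℕ) : Type := Σ i : Fin d, Sym σ ((i.1 + 1) * m)

/-- the form `f_(i+1)` with the integral coefficients `c` -/
def form {σ : Type} [Fintype σ] [DecidableEq σ] {m d : ℕ} (c : Idx σ m d → ℤ) (i : Fin d)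
    (x : σ → ℚ) : ℚ :=
  ∑ s : Sym σ ((i.1 + 1) * m), (c ⟨i, s⟩ : ℚ) * ((s : Multiset σ).map x).prod

/-- the cover `w^d + f_1 w^(d-1) + ⋯ + f_d = 0` of projective space (`w` has weight `m`) has a
rational point over the point with the homogeneous coordinates `x` -/
def PointOver {σ : Type} [Fintype σ] [DecidableEq σ] {m d : ℕ} (c : Idx σ m d → ℤ)
    (x : σ → ℚ) : Prop :=
  ∃ w : ℚ, w ^ d + ∑ i : Fin d, form c i x * w ^ (d - 1 - i.1) = 0

/-- homogeneous coordinates in the projective plane of a point of `y² = x³ + a x + b` -/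
def plane {a b : ℚ} : (crv ℚ a b).Point → Fin 3 → ℚ
  | .zero => ![0, 1, 0]
  | .some x y _ => ![x, y, 1]

/-- homogeneous coordinates (Segre embedding) of a point of a product of elliptic curves -/
def segre {r : ℕ} {a b : Fin r → ℤ} (P : (i : Fin r) → (crv ℚ (a i : ℚ) (b i : ℚ)).Point) :
    (Fin r → Fin 3) → ℚ :=
  fun e => ∏ i, plane (P i) (e i)

end Pool.Agent.N120.EH
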