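import Mathlib

/-! Fibres over several coordinates. -/

set_option autoImplicit false

namespace Pool.Agent.N120.EH

open Finset

theorem card_le_fibres {ι κ : Type} [Fintype ι] [DecidableEq ι] [Fintype κ] (H : ℕ) (f : κ → ι)
    (hf : Function.Injective f) (T : Finset (ι → ℤ)) (hT : ∀ c ∈ T, ∀ j, |c j| ≤ H) (K : ℝ)
    (hK : ∀ c' : ι → ℤ, ∀ U : Finset (κ → ℤ), (∀ t ∈ U, Function.extend f t c' ∈ T) →
      (U.card : ℝ) ≤ K) :
    (T.card : ℝ) ≤ (2 * (H : ℝ) + 1) ^ (Fintype.card ι - Fintype.card κ) * K := by
  classical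
  have hK0 : 0 ≤ K := by simpa using hK 0 ∅ (by simp)
  obtain ⟨D, hD⟩ : ∃ D : Finset (ι → ℤ), D = Fintype.piFinset
    (fun j => if j ∈ univ.image f then ({0} : Finset ℤ) else Icc (-(H : ℤ)) H) := ⟨_, rfl⟩
  have hDc : D.card = (2 * H + 1) ^ (Fintype.card ι - Fintype.card κ) := by
    rw [hD, Fintype.card_piFinset]
    have h1 : ∀ j, (if j ∈ univ.image f then ({0} : Finset ℤ) else Icc (-(H : ℤ)) H).card =
        if j ∈ univ.image f then 1 else 2 * H + 1 := by
      intro j
      split_ifs
      · exact card_singleton _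
      · rw [Int.card_Icc]; omega
    rw [prod_congr rfl fun j _ => h1 j, prod_ite, prod_const_one, one_mul, prod_const]
    congr 1
    have h2 : univ.filter (fun j => j ∉ univ.image f) = univ \ univ.image f := by
      ext j; simp
    rw [h2, card_sdiff_of_subset (subset_univ _), card_univ, card_image_of_injective _ hf,
      card_univ]
  have hmaps : ∀ c ∈ T, Function.extend f (fun _ => (0 : ℤ)) c ∈ D := by
    intro c hc
    rw [hD, Fintype.mem_piFinset]
    intro j
    by_cases hj : j ∈ univ.image f
    · rw [if_pos hj]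
      obtain ⟨i, -, rfl⟩ := mem_image.1 hj
      rw [hf.extend_apply]
      exact mem_singleton_self _
    · rw [if_neg hj, Function.extend_apply' _ _ _ (by
        rintro ⟨i, rfl⟩
        exact hj (mem_image_of_mem _ (mem_univ _))), mem_Icc]
      exact abs_le.1 (hT c hc j)
  have h1 : (T.card : ℝ) = ∑ c' ∈ D,
      ((T.filter (fun c => Function.extend f (fun _ => (0 : ℤ)) c = c')).card : ℝ) := by
    exact_mod_cast card_eq_sum_card_fiberwise hmaps
  have h2 : ∀ c' ∈ D,
      ((T.filter (fun c => Function.extend f (fun _ => (0 : ℤ)) c = c')).card : ℝ) ≤ K := by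
    intro c' _
    have hrec : ∀ c ∈ T.filter (fun c => Function.extend f (fun _ => (0 : ℤ)) c = c'),
        Function.extend f (fun i => c (f i)) c' = c := by
      intro c hc
      have hc2 := (mem_filter.1 hc).2
      funext j
      by_cases hj : ∃ i, f i = j
      · obtain ⟨i, rfl⟩ := hj
        rw [hf.extend_apply]
      · rw [Function.extend_apply' _ _ _ hj, ← hc2, Function.extend_apply' _ _ _ hj]
    have h3 := hK c' ((T.filter (fun c => Function.extend f (fun _ => (0 : ℤ)) c = c')).image
      (fun c i => c (f i))) (by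
      intro t ht
      obtain ⟨c, hc, rfl⟩ := mem_image.1 ht
      rw [hrec c hc]
      exact (mem_filter.1 hc).1)
    rw [card_image_of_injOn] at h3
    · exact h3
    · intro c hc c2 hc2 he
      have he' : (fun i => c (f i)) = (fun i => c2 (f i)) := he
      rw [← hrec c hc, ← hrec c2 hc2, he']
  rw [h1]
  refine (sum_le_card_nsmul _ _ K h2).trans (le_of_eq ?_)
  rw [nsmul_eq_mul, hDc]
  push_cast
  ring

end Pool.Agent.N120.EH
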