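import Mathlib
import Pool.Agent.Helper602.PNT

/-! Primes `p ≡ 1 mod d`: a lower bound of the right order (the first proof follows
`Pool.Agent.N912.PM.thm_tendsto`). -/

set_option autoImplicit false

namespace Pool.Agent.N120.EH

open Finset Filter

/-- the sum of `log p` over the primes `p ≤ x`, `p ≡ 1 mod m` -/
noncomputable def thm (m : ℕ) (x : ℝ) : ℝ :=
  ∑ p ∈ (Icc 1 ⌊x⌋₊).filter (fun p : ℕ => p.Prime ∧ p ≡ 1 [MOD m]), Real.log p

theorem thm_tendsto {m : ℕ} (hm : 1 ≤ m) :
    Tendsto (fun x : ℝ => thm m x / x) atTop (nhds ((m.totient : ℝ)⁻¹)) := by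
  haveI : NeZero m := ⟨by omega⟩
  have h0 := Pool.Agent.Helper602.PNT.pnt_residueClass (q := m) (a := 1) isUnit_one
  obtain ⟨C, hC⟩ := Chebyshev.psi_sub_theta_le_mul_sqrt
  -- the difference
  have hdiff : ∀ x : ℝ, 0 ≤ x →
      0 ≤ ∑ k ∈ Icc 1 ⌊x⌋₊, ArithmeticFunction.vonMangoldt.residueClass (1 : ZMod m) k - thm m x ∧
      ∑ k ∈ Icc 1 ⌊x⌋₊, ArithmeticFunction.vonMangoldt.residueClass (1 : ZMod m) k - thm m x ≤
        Chebyshev.psi x - Chebyshev.theta x := by
    intro x hx
    have e1 : thm m x = ∑ k ∈ Icc 1 ⌊x⌋₊,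
        (if k.Prime ∧ k ≡ 1 [MOD m] then Real.log k else 0) := by
      unfold thm
      rw [sum_filter]
    have e2 : Chebyshev.psi x - Chebyshev.theta x = ∑ k ∈ Icc 1 ⌊x⌋₊,
        (ArithmeticFunction.vonMangoldt k - (if k.Prime then Real.log k else 0)) := by
      unfold Chebyshev.psi Chebyshev.theta
      rw [sum_sub_distrib, sum_filter]
      have e : Ioc 0 ⌊x⌋₊ = Icc 1 ⌊x⌋₊ := by
        ext n
        simp only [mem_Ioc, mem_Icc]
        omega
      rw [e]
    rw [e1, e2, ← sum_sub_distrib]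
    have key : ∀ k : ℕ, 0 ≤ ArithmeticFunction.vonMangoldt.residueClass (1 : ZMod m) k -
        (if k.Prime ∧ k ≡ 1 [MOD m] then Real.log k else 0) ∧
        ArithmeticFunction.vonMangoldt.residueClass (1 : ZMod m) k -
        (if k.Prime ∧ k ≡ 1 [MOD m] then Real.log k else 0) ≤
        ArithmeticFunction.vonMangoldt k - (if k.Prime then Real.log k else 0) := by
      intro k
      have hk : (k : ZMod m) = 1 ↔ k ≡ 1 [MOD m] := by
        rw [← Nat.cast_one, ZMod.natCast_eq_natCast_iff]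
      have hL := ArithmeticFunction.vonMangoldt_nonneg (n := k)
      have hP : k.Prime → ArithmeticFunction.vonMangoldt k = Real.log k := fun h =>
        ArithmeticFunction.vonMangoldt_apply_prime h
      have hr : ArithmeticFunction.vonMangoldt.residueClass (1 : ZMod m) k =
          if k ≡ 1 [MOD m] then ArithmeticFunction.vonMangoldt k else 0 := by
        unfold ArithmeticFunction.vonMangoldt.residueClass
        rw [Set.indicator_apply]
        by_cases h : k ≡ 1 [MOD m]
        · rw [if_pos h, if_pos (by simpa using hk.2 h)]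
        · rw [if_neg h, if_neg (by simpa using fun h' => h (hk.1 h'))]
      rw [hr]
      by_cases h1 : k ≡ 1 [MOD m] <;> by_cases h2 : k.Prime
      · simp only [h1, h2, and_self, if_true, hP h2]
        simp
      · simp only [h1, h2, false_and, if_true, if_false]
        simpa using hL
      · simp only [h1, h2, and_false, if_true, if_false, hP h2]
        simp
      · simp only [h1, h2, and_false, if_false]
        simpa using hL
    exact ⟨sum_nonneg fun k _ => (key k).1, sum_le_sum fun k _ => (key k).2⟩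
  have h2 : Tendsto (fun x : ℝ => C * (Real.sqrt x)⁻¹) atTop (nhds 0) := by
    have := (tendsto_inv_atTop_zero.comp Real.tendsto_sqrt_atTop).const_mul C
    simpa [Function.comp_def] using this
  have h1 : Tendsto (fun x : ℝ => (∑ k ∈ Icc 1 ⌊x⌋₊,
      ArithmeticFunction.vonMangoldt.residueClass (1 : ZMod m) k - thm m x) / x) atTop (nhds 0) := by
    refine squeeze_zero' ?_ ?_ h2
    · filter_upwards [eventually_gt_atTop 0] with x hx
      exact div_nonneg (hdiff x hx.le).1 hx.le
    · filter_upwards [eventually_gt_atTop 0] with x hx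
      rw [div_le_iff₀ hx]
      refine ((hdiff x hx.le).2.trans (hC x)).trans (le_of_eq ?_)
      have hs : 0 < Real.sqrt x := Real.sqrt_pos.mpr hx
      have hx2 : Real.sqrt x * Real.sqrt x = x := Real.mul_self_sqrt hx.le
      field_simp
      rw [sq, hx2]
  have h3 := h0.sub h1
  simp only [sub_zero] at h3
  refine h3.congr fun x => ?_
  rw [← sub_div]
  congr 1
  ring

/-- many primes `p ≤ X`, `p ≡ 1 mod d` -/
theorem primes_one (d : ℕ) (hd : 1 ≤ d) : ∃ c : ℝ, 0 < c ∧ ∃ X₀ : ℕ, ∀ X : ℕ, X₀ ≤ X →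
    c * X / Real.log X ≤
      (((Icc 1 X).filter (fun p : ℕ => p.Prime ∧ p ≡ 1 [MOD d])).card : ℝ) := by
  have hφ : (0 : ℝ) < (d.totient : ℝ)⁻¹ := inv_pos.2 (by exact_mod_cast Nat.totient_pos.2 (by omega))
  have h1 := (thm_tendsto hd).eventually (lt_mem_nhds (half_lt_self hφ))
  obtain ⟨x₀, hx₀⟩ := (h1.and (eventually_ge_atTop (2 : ℝ))).exists_forall_of_atTop
  refine ⟨(d.totient : ℝ)⁻¹ / 2, half_pos hφ, ⌈x₀⌉₊, fun X hX => ?_⟩
  have hXx : x₀ ≤ (X : ℝ) := (Nat.le_ceil x₀).trans (by exact_mod_cast hX)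
  obtain ⟨h2, h3⟩ := hx₀ X hXx
  have hX0 : (0 : ℝ) < X := by linarith
  have hl : 0 < Real.log X := Real.log_pos (by linarith)
  rw [div_le_iff₀ hl]
  rw [lt_div_iff₀ hX0] at h2
  refine h2.le.trans ?_
  unfold thm
  rw [Nat.floor_natCast]
  refine (sum_le_card_nsmul _ _ (Real.log X) fun p hp => ?_).trans (le_of_eq (nsmul_eq_mul _ _))
  rw [mem_filter, mem_Icc] at hp
  exact Real.log_le_log (by exact_mod_cast hp.1.1) (by exact_mod_cast hp.1.2)

end Pool.Agent.N120.EH
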