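import Mathlib
import Pool.Agent.H174R3.D6.TaskLS

/-! Integers of an interval that lie in few residue classes modulo many primes (from the large
sieve). -/

set_option autoImplicit false

namespace Pool.Agent.N120.EH

open Finset

theorem sieve1 (S : Finset ℕ) (X H : ℕ) (η : ℝ) (hη : 0 < η) (α β : ℕ → ℤ)
    (B : (p : ℕ) → Set (ZMod p))
    (hS : ∀ p ∈ S, p.Prime ∧ p ≤ X ∧ ¬ (p : ℤ) ∣ α p ∧ (Nat.card (B p) : ℝ) ≤ (1 - η) * p)
    (T : Finset ℤ)
    (hT : ∀ t ∈ T, |t| ≤ H ∧ ∀ p ∈ S, ((α p * t + β p : ℤ) : ZMod p) ∈ B p) :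
    (T.card : ℝ) * (η ^ 2 * S.card) ≤ 6 * (2 * H + 1 + (X : ℝ) ^ 2) := by
  classical
  rcases Finset.eq_empty_or_nonempty S with hSe | hSe
  · subst hSe
    simp only [card_empty, Nat.cast_zero, mul_zero]
    positivity
  have hS0 : (0 : ℝ) < S.card := by exact_mod_cast hSe.card_pos
  obtain ⟨I, hI⟩ : ∃ I : ℕ → Finset ℕ, ∀ q, I q = (range q).filter
      (fun n : ℕ => ((α q * ((n : ℤ) - (H + 1)) + β q : ℤ) : ZMod q) ∈ B q) := ⟨_, fun q => rfl⟩
  have h1 := Pool.Agent.H174R3.D6LS.taskLS (2 * H + 1) X S I (S.image (fun q => {q}))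
    (fun _ => 1) (fun q hq => (hS q hq).1) (fun q _ => by rw [hI]; exact filter_subset _ _)
    (by
      intro s hs
      obtain ⟨q, hq, rfl⟩ := mem_image.1 hs
      exact ⟨singleton_subset_iff.2 hq, by rw [prod_singleton]; exact (hS q hq).2.1⟩)
  have hinj : ∀ x ∈ S, ∀ y ∈ S, ({x} : Finset ℕ) = {y} → x = y := fun x _ y _ h =>
    singleton_injective h
  simp only [sum_image hinj, prod_singleton, one_mul, one_pow] at h1
  -- the sets are small
  have hIc : ∀ q ∈ S, ((I q).card : ℝ) ≤ (1 - η) * q := by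
    intro q hq
    obtain ⟨hqp, -, hα, hB⟩ := hS q hq
    haveI : Fact q.Prime := ⟨hqp⟩
    refine le_trans ?_ hB
    rw [Nat.card_eq_card_toFinset]
    have hle : (I q).card ≤ ((B q).toFinset).card := card_le_card_of_injOn
      (fun n : ℕ => ((α q * ((n : ℤ) - (H + 1)) + β q : ℤ) : ZMod q))
      (by
        intro n hn
        rw [hI] at hn
        have := (mem_filter.1 hn).2
        simpa using this)
      (by
        intro n hn n' hn' he
        rw [hI] at hn hn'
        have hn1 := mem_range.1 (mem_filter.1 hn).1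
        have hn2 := mem_range.1 (mem_filter.1 hn').1
        have hα0 : ((α q : ℤ) : ZMod q) ≠ 0 := by
          rwa [Ne, ZMod.intCast_zmod_eq_zero_iff_dvd]
        simp only [Int.cast_add, Int.cast_mul, Int.cast_sub, Int.cast_natCast, Int.cast_one,
          add_left_inj] at he
        have he2 := mul_left_cancel₀ hα0 he
        have he3 : (n : ZMod q) = (n' : ZMod q) := by linear_combination he2
        rw [ZMod.natCast_eq_natCast_iff'] at he3
        rwa [Nat.mod_eq_of_lt hn1, Nat.mod_eq_of_lt hn2] at he3)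
    exact_mod_cast hle
  have hq0 : ∀ q ∈ S, (0 : ℝ) < q := fun q hq => by exact_mod_cast (hS q hq).1.pos
  -- right side
  have h2 : ∑ q ∈ S, ((I q).card : ℝ) / q ≤ S.card := by
    rw [card_eq_sum_ones]
    push_cast
    refine sum_le_sum fun q hq => ?_
    rw [div_le_one (hq0 q hq)]
    refine (hIc q hq).trans ?_
    have := hq0 q hq
    nlinarith
  -- left side
  have h3 : (T.card : ℝ) * (η * S.card) ^ 2 ≤ ∑ n ∈ Icc 1 (2 * H + 1),
      (∑ q ∈ S, ((if n % q ∈ I q then (1 : ℝ) else 0) - ((I q).card : ℝ) / q)) ^ 2 := by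
    have himg : T.image (fun t : ℤ => (t + H + 1).toNat) ⊆ Icc 1 (2 * H + 1) := by
      intro n hn
      obtain ⟨t, ht, rfl⟩ := mem_image.1 hn
      have := abs_le.1 (hT t ht).1
      rw [mem_Icc]
      omega
    have hTi : Set.InjOn (fun t : ℤ => (t + H + 1).toNat) T := by
      intro t ht t' ht' he
      have h4 := abs_le.1 (hT t ht).1
      have h5 := abs_le.1 (hT t' ht').1
      simp only at he
      omega
    refine le_trans ?_ (sum_le_sum_of_subset_of_nonneg himg fun _ _ _ => sq_nonneg _)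
    rw [sum_image hTi, ← nsmul_eq_mul, ← sum_const]
    refine sum_le_sum fun t ht => ?_
    have h6 : η * S.card ≤ ∑ q ∈ S, ((if (t + H + 1).toNat % q ∈ I q then (1 : ℝ) else 0) -
        ((I q).card : ℝ) / q) := by
      rw [mul_comm, ← nsmul_eq_mul, ← sum_const]
      refine sum_le_sum fun q hq => ?_
      have h7 := abs_le.1 (hT t ht).1
      have h8 : (t + H + 1).toNat % q ∈ I q := by
        rw [hI, mem_filter, mem_range]
        refine ⟨Nat.mod_lt _ (hS q hq).1.pos, ?_⟩
        have h9 := (hT t ht).2 q hq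
        have h10 : ((((t + H + 1).toNat % q : ℕ) : ℤ) : ZMod q) = ((t + H + 1 : ℤ) : ZMod q) := by
          rw [Int.cast_natCast, ZMod.natCast_mod, ← Int.cast_natCast, Int.toNat_of_nonneg (by omega)]
        have h11 : ((α q * ((((t + H + 1).toNat % q : ℕ) : ℤ) - (H + 1)) + β q : ℤ) : ZMod q) =
            ((α q * t + β q : ℤ) : ZMod q) := by
          rw [Int.cast_add, Int.cast_mul, Int.cast_sub, h10]
          push_cast
          ring
        rw [h11]
        exact h9
      rw [if_pos h8]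
      have h12 : ((I q).card : ℝ) / q ≤ 1 - η := by
        rw [div_le_iff₀ (hq0 q hq)]
        exact hIc q hq
      linarith
    exact pow_le_pow_left₀ (by positivity) h6 2
  have h4 : (T.card : ℝ) * (η * S.card) ^ 2 ≤ 6 * (2 * H + 1 + (X : ℝ) ^ 2) * S.card := by
    refine h3.trans (h1.trans ?_)
    push_cast
    exact mul_le_mul_of_nonneg_left h2 (by positivity)
  have h5 : (T.card : ℝ) * (η ^ 2 * S.card) * S.card ≤ 6 * (2 * H + 1 + (X : ℝ) ^ 2) * S.card := by
    refine le_trans (le_of_eq ?_) h4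
    ring
  exact le_of_mul_le_mul_right h5 hS0

end Pool.Agent.N120.EH
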