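import Mathlib

/-! The value set of a monic polynomial of degree `d` over `𝔽_p`, `p ≡ 1 mod d`: at least
`p / (2 d)` values are missed. -/

set_option autoImplicit false

namespace Pool.Agent.N120.EH

open Finset Polynomial

variable {p : ℕ} [Fact p.Prime]

theorem sum_eval_of_natDegree_le (h : (ZMod p)[X]) (hh : h.natDegree ≤ p - 1) :
    ∑ w : ZMod p, h.eval w = - h.coeff (p - 1) := by
  have hp := (Fact.out : p.Prime)
  have hp1 : p - 1 + 1 = p := Nat.sub_add_cancel hp.one_le
  have h1 : ∀ w : ZMod p, h.eval w = ∑ i ∈ range p, h.coeff i * w ^ i := by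
    intro w
    exact eval_eq_sum_range' (n := p) (lt_of_le_of_lt hh (by omega)) w
  rw [sum_congr rfl fun w _ => h1 w, sum_comm]
  have h2 : ∀ i ∈ range p, ∑ w : ZMod p, h.coeff i * w ^ i =
      if i = p - 1 then - h.coeff (p - 1) else 0 := by
    intro i hi
    rw [← mul_sum]
    split_ifs with hip
    · have h3 : ∑ w : ZMod p, w ^ i = -1 := by
        have h4 : ∀ w : ZMod p, w ^ i = 1 - (if w = 0 then 1 else 0) := by
          intro w
          by_cases hw : w = 0
          · rw [hw, hip, zero_pow (by have := hp.two_le; omega), if_pos rfl, sub_self]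
          · rw [if_neg hw, sub_zero, hip]
            exact ZMod.pow_card_sub_one_eq_one hw
        rw [sum_congr rfl fun w _ => h4 w, sum_sub_distrib]
        simp
      rw [h3, hip]
      ring
    · have hi' : i < Fintype.card (ZMod p) - 1 := by
        rw [ZMod.card]
        have := mem_range.1 hi
        omega
      rw [FiniteField.sum_pow_lt_card_sub_one (ZMod p) i hi', mul_zero]
  rw [sum_congr rfl h2, sum_ite_eq']
  rw [if_pos (mem_range.2 (by have := hp.one_le; omega))]

theorem valueSet (d : ℕ) (hd : 2 ≤ d) (hdp : d ∣ p - 1) (f : (ZMod p)[X]) (hf : f.Monic)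
    (hfd : f.natDegree = d) :
    p ≤ 2 * d * (univ.filter (fun t : ZMod p => ∀ w, f.eval w ≠ t)).card := by
  classical
  have hp := (Fact.out : p.Prime)
  have hp2 := hp.two_le
  obtain ⟨n, hn⟩ := hdp
  have hn0 : 0 < n := by
    rcases Nat.eq_zero_or_pos n with h | h
    · subst h; omega
    · exact h
  obtain ⟨μ, hμ⟩ : ∃ μ : ZMod p → ℕ, ∀ v, μ v = (univ.filter (fun w : ZMod p => f.eval w = v)).card :=
    ⟨_, fun v => rfl⟩
  obtain ⟨M, hM⟩ : ∃ M : Finset (ZMod p), M = univ.filter (fun t : ZMod p => ∀ w, f.eval w ≠ t) :=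
    ⟨_, rfl⟩
  obtain ⟨T, hT⟩ : ∃ T : Finset (ZMod p), T = univ.filter (fun v => μ v ≠ 1) := ⟨_, rfl⟩
  rw [← hM]
  have hMμ : ∀ v, v ∈ M ↔ μ v = 0 := by
    intro v
    rw [hM, mem_filter, hμ, card_eq_zero, filter_eq_empty_iff]
    simp
  have hsum : ∑ v : ZMod p, μ v = p := by
    have h1 : (univ : Finset (ZMod p)).card = ∑ v : ZMod p, μ v := by
      rw [card_eq_sum_card_fiberwise (f := fun w => f.eval w) (t := univ) (fun _ _ => by simp)]
      exact sum_congr rfl fun v _ => (hμ v).symm
    rw [← h1, card_univ, ZMod.card]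
  -- at most `2 |M|` exceptional values
  have hT2 : T.card ≤ 2 * M.card := by
    have hMT : M ⊆ T := by
      intro v hv
      rw [hT, mem_filter]
      exact ⟨mem_univ _, by rw [(hMμ v).1 hv]; exact zero_ne_one⟩
    have h1 : (T \ M).card ≤ M.card := by
      have h2 : ∑ v : ZMod p, ((μ v : ℤ) - 1) = 0 := by
        rw [sum_sub_distrib, ← Nat.cast_sum, hsum]
        simp [ZMod.card]
      have h3 : ∑ v : ZMod p, ((μ v : ℤ) - 1) = ∑ v ∈ T, ((μ v : ℤ) - 1) := by
        refine (sum_subset (subset_univ _) fun v _ hv => ?_).symm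
        have : μ v = 1 := by
          by_contra h
          exact hv (by rw [hT, mem_filter]; exact ⟨mem_univ _, h⟩)
        rw [this]; simp
      have h4 : ∑ v ∈ T, ((μ v : ℤ) - 1) = ∑ v ∈ T \ M, ((μ v : ℤ) - 1) + ∑ v ∈ M, ((μ v : ℤ) - 1) :=
        (sum_sdiff hMT).symm
      have h5 : ∑ v ∈ M, ((μ v : ℤ) - 1) = - (M.card : ℤ) := by
        rw [sum_congr rfl fun v hv => by rw [(hMμ v).1 hv]]
        simp
      have h6 : ((T \ M).card : ℤ) ≤ ∑ v ∈ T \ M, ((μ v : ℤ) - 1) := by
        rw [card_eq_sum_ones]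
        push_cast
        refine sum_le_sum fun v hv => ?_
        rw [mem_sdiff, hMμ, hT, mem_filter] at hv
        have : 2 ≤ μ v := by omega
        omega
      omega
    have h7 : T.card = (T \ M).card + M.card := by
      have := card_sdiff_add_card_eq_card hMT
      omega
    omega
  -- there are more than `n` exceptional values
  have hTn : n < T.card := by
    by_contra hcon
    push Not at hcon
    obtain ⟨g, hg⟩ : ∃ g : (ZMod p)[X], g = X ^ (n - T.card) * ∏ v ∈ T, (X - C v) := ⟨_, rfl⟩
    have hgm : g.Monic := by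
      rw [hg]
      exact (monic_X_pow _).mul (monic_prod_of_monic _ _ fun v _ => monic_X_sub_C v)
    have hgd : g.natDegree = n := by
      rw [hg, (monic_X_pow _).natDegree_mul (monic_prod_of_monic _ _ fun v _ => monic_X_sub_C v),
        natDegree_X_pow, natDegree_prod_of_monic _ _ fun v _ => monic_X_sub_C v]
      simp only [natDegree_X_sub_C, sum_const, smul_eq_mul, mul_one]
      omega
    have hn1 : n < p - 1 := by
      rw [hn]
      nlinarith
    have h1 : ∑ v : ZMod p, g.eval v = 0 := by
      rw [sum_eval_of_natDegree_le g (by omega), coeff_eq_zero_of_natDegree_lt (by omega), neg_zero]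
    have hcd : (g.comp f).natDegree = p - 1 := by
      rw [natDegree_comp, hgd, hfd, hn, mul_comm]
    have hcm : (g.comp f).Monic := hgm.comp hf (by rw [hfd]; omega)
    have h2 : ∑ w : ZMod p, (g.comp f).eval w = -1 := by
      rw [sum_eval_of_natDegree_le _ hcd.le, ← hcd, hcm.coeff_natDegree]
    have h3 : ∑ w : ZMod p, (g.comp f).eval w = ∑ v : ZMod p, (μ v : ZMod p) * g.eval v := by
      rw [← sum_fiberwise univ (fun w => f.eval w) (fun w => (g.comp f).eval w)]
      refine sum_congr rfl fun v _ => ?_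
      rw [hμ, ← nsmul_eq_mul, ← sum_const]
      refine sum_congr rfl fun w hw => ?_
      rw [eval_comp, (mem_filter.1 hw).2]
    have h4 : ∑ v : ZMod p, (μ v : ZMod p) * g.eval v = ∑ v : ZMod p, g.eval v := by
      refine sum_congr rfl fun v _ => ?_
      by_cases hv : v ∈ T
      · have : g.eval v = 0 := by
          rw [hg, eval_mul, eval_prod, prod_eq_zero hv (by simp), mul_zero]
        rw [this, mul_zero]
      · have : μ v = 1 := by
          by_contra h
          exact hv (by rw [hT, mem_filter]; exact ⟨mem_univ _, h⟩)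
        rw [this, Nat.cast_one, one_mul]
    rw [h3, h4, h1] at h2
    exact one_ne_zero (neg_eq_zero.1 h2.symm)
  have h8 : n + 1 ≤ 2 * M.card := by omega
  calc p = d * n + 1 := by omega
    _ ≤ d * (n + 1) := by rw [mul_add]; omega
    _ ≤ d * (2 * M.card) := Nat.mul_le_mul_left _ h8
    _ = 2 * d * M.card := by ring

end Pool.Agent.N120.EH
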