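import Mathlib
import Pool.Agent.N120.EH.Primes
import Pool.Agent.N120.EH.ValueSet
import Pool.Agent.N120.EH.Sieve1

/-! Polynomials of degree `d` with an integral root whose coefficients are linear forms in the
coefficients `c`, `|c| ≤ H`, with a fixed vector `v`. -/

set_option autoImplicit false

namespace Pool.Agent.N120.EH

open Finset

theorem card_B (p : ℕ) [Fact p.Prime] (d : ℕ) (hd : 2 ≤ d) (hdp : d ∣ p - 1)
    (s : Fin d → ZMod p) :
    (Nat.card {t : ZMod p | ∃ w : ZMod p, w ^ d + ∑ i : Fin d,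
      (if i.1 = d - 1 then t else s i) * w ^ (d - 1 - i.1) = 0} : ℝ) ≤ (1 - 1 / (2 * d)) * p := by
  classical
  obtain ⟨g, hg⟩ : ∃ g : Polynomial (ZMod p), g = ∑ i : Fin d,
      Polynomial.C (if i.1 = d - 1 then 0 else s i) * Polynomial.X ^ (d - 1 - i.1) := ⟨_, rfl⟩
  have hgd : g.degree < d := by
    rw [hg]
    refine lt_of_le_of_lt (Polynomial.degree_sum_le _ _)
      ((Finset.sup_lt_iff (WithBot.bot_lt_coe d)).2 fun i _ => ?_)
    refine lt_of_le_of_lt (Polynomial.degree_C_mul_X_pow_le _ _) ?_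
    have := i.2
    exact Nat.cast_lt.2 (by omega : d - 1 - i.1 < d)
  have hfm : (Polynomial.X ^ d + g).Monic := Polynomial.monic_X_pow_add hgd
  have hfd : (Polynomial.X ^ d + g).natDegree = d := by
    have hd1 : (Polynomial.X ^ d + g : Polynomial (ZMod p)).degree = d := by
      rw [Polynomial.degree_add_eq_left_of_degree_lt (by rw [Polynomial.degree_X_pow]; exact hgd),
        Polynomial.degree_X_pow]
    exact Polynomial.natDegree_eq_of_degree_eq_some hd1
  have hV := valueSet d hd hdp _ hfm hfd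
  obtain ⟨M, hM⟩ : ∃ M : Finset (ZMod p), M = univ.filter
      (fun t : ZMod p => ∀ w : ZMod p, Polynomial.eval w (Polynomial.X ^ d + g) ≠ t) := ⟨_, rfl⟩
  rw [← hM] at hV
  have hev : ∀ w : ZMod p, (Polynomial.X ^ d + g).eval w = w ^ d + ∑ i : Fin d,
      (if i.1 = d - 1 then 0 else s i) * w ^ (d - 1 - i.1) := by
    intro w
    rw [hg, Polynomial.eval_add, Polynomial.eval_pow, Polynomial.eval_X, Polynomial.eval_finset_sum]
    congr 1
    refine sum_congr rfl fun i _ => ?_
    rw [Polynomial.eval_mul, Polynomial.eval_C, Polynomial.eval_pow, Polynomial.eval_X]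
  have hlast : ∀ (t w : ZMod p), ∑ i : Fin d, (if i.1 = d - 1 then t else s i) * w ^ (d - 1 - i.1) =
      ∑ i : Fin d, (if i.1 = d - 1 then 0 else s i) * w ^ (d - 1 - i.1) + t := by
    intro t w
    have h1 : ∑ i : Fin d, (if i = (⟨d - 1, by omega⟩ : Fin d) then t else 0) = t := by simp
    rw [← h1, ← sum_add_distrib]
    refine sum_congr rfl fun i _ => ?_
    by_cases hi : i.1 = d - 1
    · have hi2 : i = (⟨d - 1, by omega⟩ : Fin d) := Fin.ext hi
      simp [hi2]
    · have hi2 : i ≠ (⟨d - 1, by omega⟩ : Fin d) := fun h => hi (by rw [h])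
      rw [if_neg hi, if_neg hi, if_neg hi2, add_zero]
  have h1 : Nat.card {t : ZMod p | ∃ w : ZMod p, w ^ d + ∑ i : Fin d,
      (if i.1 = d - 1 then t else s i) * w ^ (d - 1 - i.1) = 0} ≤ (univ \ M).card := by
    rw [Nat.card_eq_card_toFinset]
    refine card_le_card_of_injOn (fun t => -t) ?_ (fun _ _ _ _ h => neg_injective h)
    intro t ht
    have ht2 : ∃ w : ZMod p, w ^ d + ∑ i : Fin d,
      (if i.1 = d - 1 then t else s i) * w ^ (d - 1 - i.1) = 0 := by simpa using ht
    obtain ⟨w, hw⟩ := ht2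
    rw [mem_coe, mem_sdiff, hM, mem_filter]
    refine ⟨mem_univ _, fun h => h.2 w ?_⟩
    rw [hev]
    rw [hlast] at hw
    linear_combination hw
  have h2 : (univ \ M).card + M.card = p := by
    rw [card_sdiff_add_card_eq_card (subset_univ _), card_univ, ZMod.card]
  have h3 : ((univ \ M).card : ℝ) + M.card = p := by exact_mod_cast h2
  have h4 : (p : ℝ) ≤ 2 * d * M.card := by exact_mod_cast hV
  have hd0 : (0 : ℝ) < 2 * d := by positivity
  have h5 : (1 / (2 * (d : ℝ))) * p ≤ M.card := by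
    rw [one_div, inv_mul_le_iff₀ hd0]
    exact h4
  calc (Nat.card {t : ZMod p | ∃ w : ZMod p, w ^ d + ∑ i : Fin d,
      (if i.1 = d - 1 then t else s i) * w ^ (d - 1 - i.1) = 0} : ℝ) ≤ (univ \ M).card := by
        exact_mod_cast h1
    _ = p - M.card := by linarith
    _ ≤ p - (1 / (2 * (d : ℝ))) * p := by linarith
    _ = (1 - 1 / (2 * d)) * p := by ring

/-- the fibres -/
theorem card_le_fibre {ι : Type} [Fintype ι] [DecidableEq ι] (H : ℕ) (j₀ : ι) (T : Finset (ι → ℤ))
    (hT : ∀ c ∈ T, ∀ j, |c j| ≤ H) (K : ℝ)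
    (hK : ∀ c' : ι → ℤ, ∀ U : Finset ℤ, (∀ t ∈ U, Function.update c' j₀ t ∈ T) → (U.card : ℝ) ≤ K) :
    (T.card : ℝ) ≤ (2 * (H : ℝ) + 1) ^ (Fintype.card ι - 1) * K := by
  classical
  have hK0 : 0 ≤ K := by simpa using hK 0 ∅ (by simp)
  obtain ⟨D, hD⟩ : ∃ D : Finset (ι → ℤ), D = Fintype.piFinset
    (fun j => if j = j₀ then ({0} : Finset ℤ) else Icc (-(H : ℤ)) H) := ⟨_, rfl⟩
  have hDc : D.card = (2 * H + 1) ^ (Fintype.card ι - 1) := by
    rw [hD, Fintype.card_piFinset, ← mul_prod_erase univ _ (mem_univ j₀)]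
    rw [if_pos rfl, card_singleton, one_mul]
    rw [prod_congr rfl (g := fun _ => 2 * H + 1), prod_const, card_erase_of_mem (mem_univ _),
      card_univ]
    intro j hj
    rw [if_neg (ne_of_mem_erase hj), Int.card_Icc]
    omega
  have hmaps : ∀ c ∈ T, Function.update c j₀ 0 ∈ D := by
    intro c hc
    rw [hD, Fintype.mem_piFinset]
    intro j
    by_cases hj : j = j₀
    · subst hj; simp
    · rw [if_neg hj, Function.update_of_ne hj, mem_Icc]
      exact abs_le.1 (hT c hc j)
  have h1 : (T.card : ℝ) = ∑ c' ∈ D, ((T.filter (fun c => Function.update c j₀ 0 = c')).card : ℝ) := by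
    exact_mod_cast card_eq_sum_card_fiberwise hmaps
  have h2 : ∀ c' ∈ D, ((T.filter (fun c => Function.update c j₀ 0 = c')).card : ℝ) ≤ K := by
    intro c' _
    have hrec : ∀ c ∈ T.filter (fun c => Function.update c j₀ 0 = c'),
        Function.update c' j₀ (c j₀) = c := by
      intro c hc
      rw [← (mem_filter.1 hc).2]
      simp
    have h3 := hK c' ((T.filter (fun c => Function.update c j₀ 0 = c')).image (fun c => c j₀)) (by
      intro t ht
      obtain ⟨c, hc, rfl⟩ := mem_image.1 ht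
      rw [hrec c hc]
      exact (mem_filter.1 hc).1)
    rw [card_image_of_injOn] at h3
    · exact h3
    · intro c hc c2 hc2 he
      rw [← hrec c hc, ← hrec c2 hc2]
      simp only at he
      rw [he]
  rw [h1]
  refine (sum_le_card_nsmul _ _ K h2).trans (le_of_eq ?_)
  rw [nsmul_eq_mul, hDc]
  push_cast
  ring

theorem sieveD (d : ℕ) (hd : 2 ≤ d) (N : ℕ) (hN : 1 ≤ N) : ∃ C : ℝ, 0 < C ∧
    ∀ (ι : Type) [Fintype ι], Fintype.card ι = N → ∀ (deg : ι → Fin d) (v : ι → ℤ),
    (∀ p : ℕ, p.Prime → ∃ j, (deg j).1 = d - 1 ∧ ¬ (p : ℤ) ∣ v j) → ∀ H : ℕ, 2 ≤ H →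
    ∀ T : Finset (ι → ℤ), (∀ c ∈ T, (∀ j, |c j| ≤ H) ∧ ∃ w : ℤ, w ^ d + ∑ i : Fin d,
      (∑ j, if deg j = i then c j * v j else 0) * w ^ (d - 1 - i.1) = 0) →
    (T.card : ℝ) ≤ C * (2 * (H : ℝ) + 1) ^ (N - 1) * (Real.sqrt H * Real.log H) := by
  classical
  obtain ⟨c₀, hc₀, X₀, hX₀⟩ := primes_one d (by omega)
  obtain ⟨X₁, hX₁⟩ : ∃ X₁ : ℕ, X₁ = max X₀ 2 := ⟨_, rfl⟩
  have hη : (0 : ℝ) < 1 / (2 * d) := by positivity
  obtain ⟨C₁, hC₁⟩ : ∃ C₁ : ℝ, C₁ = 2 * (2 * ((X₁ : ℝ) + 1) ^ 2 + 1) := ⟨_, rfl⟩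
  obtain ⟨C₂, hC₂⟩ : ∃ C₂ : ℝ, C₂ = 48 * N / ((1 / (2 * (d : ℝ))) ^ 2 * c₀) := ⟨_, rfl⟩
  have hN0 : (0 : ℝ) < N := by exact_mod_cast hN
  have hC₁0 : 0 < C₁ := by rw [hC₁]; positivity
  have hC₂0 : 0 < C₂ := by rw [hC₂]; positivity
  refine ⟨C₁ + C₂, by positivity, ?_⟩
  intro ι _ hcard deg v hv H hH T hT
  have hH1 : (2 : ℝ) ≤ H := by exact_mod_cast hH
  have hlog2 : (0.69 : ℝ) < Real.log 2 := by linarith [Real.log_two_gt_d9]
  have hlogH : Real.log 2 ≤ Real.log H := Real.log_le_log (by norm_num) hH1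
  have hsq1 : 1 ≤ Real.sqrt H := by
    rw [show (1 : ℝ) = Real.sqrt 1 by simp]
    exact Real.sqrt_le_sqrt (by linarith)
  have hsl : (1 / 2 : ℝ) ≤ Real.sqrt H * Real.log H := by nlinarith
  have hpow0 : (0 : ℝ) < (2 * (H : ℝ) + 1) ^ (N - 1) := by positivity
  rcases lt_or_ge (Nat.sqrt H) X₁ with hsm | hbig
  · -- small `H`
    have h1 : (T.card : ℝ) ≤ (2 * (H : ℝ) + 1) ^ N := by
      have h2 : T ⊆ Fintype.piFinset (fun _ => Icc (-(H : ℤ)) H) := by
        intro c hc
        rw [Fintype.mem_piFinset]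
        intro j
        rw [mem_Icc]
        exact abs_le.1 ((hT c hc).1 j)
      have h3 := card_le_card h2
      rw [Fintype.card_piFinset, prod_const, Int.card_Icc, card_univ, hcard] at h3
      have h4 : ((H : ℤ) + 1 - -(H : ℤ)).toNat = 2 * H + 1 := by omega
      rw [h4] at h3
      exact_mod_cast h3
    have h5 : (H : ℝ) ≤ ((X₁ : ℝ) + 1) ^ 2 := by
      have h6 : H < (Nat.sqrt H + 1) ^ 2 := Nat.lt_succ_sqrt' H
      have h7 : (Nat.sqrt H + 1) ^ 2 ≤ (X₁ + 1) ^ 2 := Nat.pow_le_pow_left (by omega) 2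
      have h8 : H ≤ (X₁ + 1) ^ 2 := by omega
      exact_mod_cast h8
    calc (T.card : ℝ) ≤ (2 * (H : ℝ) + 1) ^ N := h1
      _ = (2 * (H : ℝ) + 1) ^ (N - 1) * (2 * (H : ℝ) + 1) := by
          rw [← pow_succ, Nat.sub_add_cancel hN]
      _ ≤ (2 * (H : ℝ) + 1) ^ (N - 1) * (C₁ * (Real.sqrt H * Real.log H)) := by
          refine mul_le_mul_of_nonneg_left ?_ hpow0.le
          calc 2 * (H : ℝ) + 1 ≤ 2 * ((X₁ : ℝ) + 1) ^ 2 + 1 := by linarith
            _ = C₁ * (1 / 2) := by rw [hC₁]; ring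
            _ ≤ C₁ * (Real.sqrt H * Real.log H) := mul_le_mul_of_nonneg_left hsl hC₁0.le
      _ = C₁ * (2 * (H : ℝ) + 1) ^ (N - 1) * (Real.sqrt H * Real.log H) := by ring
      _ ≤ (C₁ + C₂) * (2 * (H : ℝ) + 1) ^ (N - 1) * (Real.sqrt H * Real.log H) := by
          have : 0 ≤ (2 * (H : ℝ) + 1) ^ (N - 1) * (Real.sqrt H * Real.log H) := by positivity
          nlinarith
  · -- large `H`
    obtain ⟨X, hX⟩ : ∃ X : ℕ, X = Nat.sqrt H := ⟨_, rfl⟩
    rw [← hX] at hbig
    have hXX0 : X₀ ≤ X := le_trans (by rw [hX₁]; exact le_max_left _ _) hbig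
    have hX2 : 2 ≤ X := le_trans (by rw [hX₁]; exact le_max_right _ _) hbig
    have hXH : X ^ 2 ≤ H := by rw [hX]; exact Nat.sqrt_le' H
    have hXHr : (X : ℝ) ^ 2 ≤ H := by exact_mod_cast hXH
    have hX2r : (2 : ℝ) ≤ X := by exact_mod_cast hX2
    have hXs : Real.sqrt H ≤ 2 * X := by
      rw [Real.sqrt_le_left (by positivity)]
      have h6 : H < (X + 1) ^ 2 := by rw [hX]; exact Nat.lt_succ_sqrt' H
      have h7 : (H : ℝ) ≤ ((X : ℝ) + 1) ^ 2 := by exact_mod_cast h6.le
      nlinarith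
    have hlX : 0 < Real.log X := Real.log_pos (by linarith)
    have hlXH : Real.log X ≤ Real.log H := Real.log_le_log (by linarith) (by nlinarith)
    obtain ⟨S, hS⟩ : ∃ S : Finset ℕ, S = (Icc 1 X).filter
      (fun p : ℕ => p.Prime ∧ p ≡ 1 [MOD d]) := ⟨_, rfl⟩
    have hSc := hX₀ X hXX0
    rw [← hS] at hSc
    have hSp : ∀ p ∈ S, p.Prime ∧ p ≤ X ∧ d ∣ p - 1 := by
      intro p hp
      rw [hS, mem_filter, mem_Icc] at hp
      exact ⟨hp.2.1, hp.1.2, (Nat.modEq_iff_dvd' hp.1.1).1 hp.2.2.symm⟩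
    have hv2 : ∀ p : ℕ, ∃ j, p ∈ S → (deg j).1 = d - 1 ∧ ¬ (p : ℤ) ∣ v j := by
      intro p
      by_cases hp : p ∈ S
      · obtain ⟨j, hj⟩ := hv p (hSp p hp).1
        exact ⟨j, fun _ => hj⟩
      · obtain ⟨j, -⟩ := hv 2 Nat.prime_two
        exact ⟨j, fun h => absurd h hp⟩
    choose jj hjj using hv2
    -- pigeonhole
    obtain ⟨j₀, hj₀⟩ : ∃ j₀, S.card ≤ N * (S.filter (fun p => jj p = j₀)).card := by
      by_contra hcon
      push Not at hcon
      have h1 : S.card = ∑ j : ι, (S.filter (fun p => jj p = j)).card :=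
        card_eq_sum_card_fiberwise (fun _ _ => by simp)
      have hne : (univ : Finset ι).Nonempty := by
        rw [← card_pos, card_univ, hcard]; omega
      have h2 : ∑ j : ι, N * (S.filter (fun p => jj p = j)).card < ∑ _j : ι, S.card :=
        sum_lt_sum_of_nonempty hne fun j _ => hcon j
      rw [← mul_sum, ← h1, sum_const, card_univ, hcard, smul_eq_mul] at h2
      exact lt_irrefl _ h2
    obtain ⟨S', hS'⟩ : ∃ S' : Finset ℕ, S' = S.filter (fun p => jj p = j₀) := ⟨_, rfl⟩
    rw [← hS'] at hj₀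
    have hS'p : ∀ p ∈ S', p ∈ S ∧ ¬ (p : ℤ) ∣ v j₀ ∧ (deg j₀).1 = d - 1 := by
      intro p hp
      rw [hS', mem_filter] at hp
      have := hjj p hp.1
      rw [hp.2] at this
      exact ⟨hp.1, this.2, this.1⟩
    have hS'0 : (0 : ℝ) < S'.card := by
      have h1 : 0 < c₀ * X / Real.log X := by positivity
      have h2 : (0 : ℝ) < S.card := lt_of_lt_of_le h1 hSc
      have h3 : (S.card : ℝ) ≤ N * S'.card := by exact_mod_cast hj₀
      by_contra hcon
      push Not at hcon
      nlinarith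
    have hj₀d : (deg j₀).1 = d - 1 := by
      have : 0 < S'.card := by exact_mod_cast hS'0
      obtain ⟨p, hp⟩ := card_pos.1 this
      exact (hS'p p hp).2.2
    have hKK : ∀ c' : ι → ℤ, ∀ U : Finset ℤ, (∀ t ∈ U, Function.update c' j₀ t ∈ T) →
        (U.card : ℝ) ≤ C₂ * (Real.sqrt H * Real.log H) := by
      intro c' U hU
      have h1 := sieve1 S' X H (1 / (2 * d)) hη (fun _ => v j₀)
        (fun _ => ∑ j, if j ≠ j₀ ∧ (deg j).1 = d - 1 then c' j * v j else 0)
        (fun p => {t : ZMod p | ∃ w : ZMod p, w ^ d + ∑ i : Fin d,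
          (if i.1 = d - 1 then t else
            (((∑ j, if deg j = i then c' j * v j else 0 : ℤ)) : ZMod p)) * w ^ (d - 1 - i.1) = 0})
        (by
          intro p hp
          obtain ⟨hp1, hp2, -⟩ := hS'p p hp
          obtain ⟨hp3, hp4, hp5⟩ := hSp p hp1
          haveI : Fact p.Prime := ⟨hp3⟩
          exact ⟨hp3, hp4, hp2, card_B p d hd hp5 _⟩)
        U (by
          intro t ht
          have h2 := hT _ (hU t ht)
          refine ⟨by simpa using h2.1 j₀, ?_⟩
          intro p hp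
          obtain ⟨w, hw⟩ := h2.2
          refine ⟨(w : ZMod p), ?_⟩
          have h3 := congrArg (fun z : ℤ => (z : ZMod p)) hw
          simp only [Int.cast_zero] at h3
          rw [← h3]
          push_cast
          congr 1
          refine sum_congr rfl fun i _ => ?_
          by_cases hi : i.1 = d - 1
          · rw [if_pos hi]
            congr 1
            have h4 : ∀ j, (if deg j = i then ((Function.update c' j₀ t j : ℤ) : ZMod p) * (v j : ZMod p)
                else 0) = (if j = j₀ then (v j₀ : ZMod p) * (t : ZMod p) else 0) +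
                (if j ≠ j₀ ∧ (deg j).1 = d - 1 then (c' j : ZMod p) * (v j : ZMod p) else 0) := by
              intro j
              by_cases hj : j = j₀
              · subst hj
                have h5 : deg j = i := Fin.ext (by rw [hj₀d, hi])
                rw [if_pos h5, if_pos rfl, if_neg (by simp), Function.update_self]
                ring
              · have h5 : deg j = i ↔ (deg j).1 = d - 1 := by
                  rw [Fin.ext_iff, hi]
                rw [if_neg hj, Function.update_of_ne hj, zero_add]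
                by_cases h6 : deg j = i
                · rw [if_pos h6, if_pos ⟨hj, h5.1 h6⟩]
                · rw [if_neg h6, if_neg (fun h => h6 (h5.2 h.2))]
            rw [sum_congr rfl fun j _ => h4 j, sum_add_distrib, sum_ite_eq' univ j₀, if_pos (mem_univ _)]
          · rw [if_neg hi]
            congr 1
            refine sum_congr rfl fun j _ => ?_
            by_cases hj : j = j₀
            · subst hj
              have h5 : deg j ≠ i := fun h => hi (by rw [← h, hj₀d])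
              rw [if_neg h5, if_neg h5]
            · rw [Function.update_of_ne hj])
      have h2 : (U.card : ℝ) * ((1 / (2 * (d : ℝ))) ^ 2 * S'.card) ≤ 24 * H := by
        refine h1.trans ?_
        linarith
      have hlH0 : 0 < Real.log H := by linarith
      have h3 : c₀ * Real.sqrt H / (2 * N * Real.log H) ≤ S'.card := by
        have h4 : (S.card : ℝ) ≤ N * S'.card := by exact_mod_cast hj₀
        have h5 : c₀ * X / Real.log X ≤ N * S'.card := hSc.trans h4
        rw [div_le_iff₀ hlX] at h5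
        rw [div_le_iff₀ (by positivity)]
        have h6 : N * (S'.card : ℝ) * Real.log X ≤ N * S'.card * Real.log H :=
          mul_le_mul_of_nonneg_left hlXH (by positivity)
        nlinarith
      have h4 : (U.card : ℝ) * ((1 / (2 * (d : ℝ))) ^ 2 *
          (c₀ * Real.sqrt H / (2 * N * Real.log H))) ≤ 24 * H := by
        refine le_trans ?_ h2
        exact mul_le_mul_of_nonneg_left (mul_le_mul_of_nonneg_left h3 (by positivity))
          (Nat.cast_nonneg _)
      have hs0 : 0 < Real.sqrt H := by linarith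
      have hss : Real.sqrt H * Real.sqrt H = H := Real.mul_self_sqrt (by linarith)
      have h5 : (U.card : ℝ) ≤ 24 * H / ((1 / (2 * (d : ℝ))) ^ 2 *
          (c₀ * Real.sqrt H / (2 * N * Real.log H))) := by
        rw [le_div_iff₀ (mul_pos (pow_pos hη 2) (by positivity))]
        exact h4
      refine h5.trans (le_of_eq ?_)
      rw [hC₂, ← hss]
      have hd0 : (d : ℝ) ≠ 0 := by
        have : (2 : ℝ) ≤ d := by exact_mod_cast hd
        linarith
      rw [Real.sqrt_mul_self hs0.le]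
      field_simp
      ring
    have h6 := card_le_fibre H j₀ T (fun c hc => (hT c hc).1) _ hKK
    rw [hcard] at h6
    calc (T.card : ℝ) ≤ (2 * (H : ℝ) + 1) ^ (N - 1) * (C₂ * (Real.sqrt H * Real.log H)) := h6
      _ = C₂ * (2 * (H : ℝ) + 1) ^ (N - 1) * (Real.sqrt H * Real.log H) := by ring
      _ ≤ (C₁ + C₂) * (2 * (H : ℝ) + 1) ^ (N - 1) * (Real.sqrt H * Real.log H) := by
          have : 0 ≤ (2 * (H : ℝ) + 1) ^ (N - 1) * (Real.sqrt H * Real.log H) := by positivity
          nlinarith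

end Pool.Agent.N120.EH
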