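import Mathlib
import Pool.Agent.H174R3.D6.TaskLS
import Pool.Agent.H291R2.FB_LsMulti

/-! Large sieve in several variables: a linear form with well spaced frequencies which lies in few
residue classes modulo the primes of `S`. -/

set_option autoImplicit false

namespace Pool.Agent.N120.EH

open Finset
open Pool.Agent.Helper112 (ee ls_ee_add ls_ee_int)
open Pool.Agent.H469R2.NK (e)
open Pool.Agent.H442R2.EHI (nint)
open Pool.Agent.H174R3.D6LS (fc fc_zero fc_inv fc_parseval)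

theorem ee_eq (x : ℝ) : ee x = e x := by
  unfold ee e
  push_cast
  rfl

theorem ee_congr {x y : ℝ} (n : ℤ) (h : x = y + n) : ee x = ee y := by
  rw [h, ls_ee_add, ls_ee_int, mul_one]

open Classical in
theorem sieveM (n : ℕ) (S : Finset ℕ) (M : ℕ) (hM : 1 ≤ M) (η : ℝ) (hη : 0 < η)
    (v : Fin n → ℤ) (β : ℤ) (B : (p : ℕ) → Set (ZMod p))
    (hS : ∀ p ∈ S, p.Prime ∧ (Nat.card (B p) : ℝ) ≤ (1 - η) * p)
    (hsep : ∀ p ∈ S, ∀ p' ∈ S, ∀ a a' : ℕ, 0 < a → a < p → 0 < a' → a' < p' →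
      ¬ (p = p' ∧ a = a') →
      ∃ i, 1 / (2 * (M : ℝ)) < nint ((a : ℝ) * v i / p - (a' : ℝ) * v i / p'))
    (T : Finset (Fin n → ℕ))
    (hT : ∀ c ∈ T, (∀ i, c i < M) ∧ ∀ p ∈ S, ((∑ i, (c i : ℤ) * v i + β : ℤ) : ZMod p) ∈ B p) :
    (T.card : ℝ) * (η ^ 2 * S.card) ≤ (10 * (M : ℝ)) ^ n := by
  rcases Finset.eq_empty_or_nonempty S with hSe | hSe
  · subst hSe
    simp only [card_empty, Nat.cast_zero, mul_zero]
    positivity
  have hS0 : (0 : ℝ) < S.card := by exact_mod_cast hSe.card_pos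
  have hp0 : ∀ p ∈ S, 0 < p := fun p hp => (hS p hp).1.pos
  obtain ⟨Q, hQ⟩ : ∃ Q : ℕ, Q = 8 * M * ∏ p ∈ S, p := ⟨_, rfl⟩
  have hQ0 : 0 < Q := by
    rw [hQ]
    exact Nat.mul_pos (by omega) (prod_pos hp0)
  have hQdvd : ∀ p ∈ S, p ∣ Q := fun p hp => by
    rw [hQ]
    exact (dvd_prod_of_mem (fun p => p) hp).mul_left _
  have hQM : 8 * M ≤ Q := by
    rw [hQ]
    exact Nat.le_mul_of_pos_right _ (prod_pos hp0)
  obtain ⟨I, hI⟩ : ∃ I : ℕ → Finset ℕ, ∀ p, I p = (range p).filter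
      (fun b : ℕ => (b : ZMod p) ∈ B p) := ⟨_, fun p => rfl⟩
  have hIr : ∀ p, I p ⊆ range p := fun p => by rw [hI]; exact filter_subset _ _
  have hIc : ∀ p ∈ S, ((I p).card : ℝ) ≤ (1 - η) * p := by
    intro p hp
    obtain ⟨hpp, hB⟩ := hS p hp
    haveI : Fact p.Prime := ⟨hpp⟩
    refine le_trans ?_ hB
    rw [Nat.card_eq_card_toFinset]
    have hle : (I p).card ≤ ((B p).toFinset).card := card_le_card_of_injOn
      (fun b : ℕ => (b : ZMod p))
      (by
        intro b hb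
        rw [hI] at hb
        have := (mem_filter.1 hb).2
        simpa using this)
      (by
        intro b hb b' hb' he
        have hb1 := mem_range.1 (hIr p hb)
        have hb2 := mem_range.1 (hIr p hb')
        have he' : (b : ZMod p) = (b' : ZMod p) := he
        rw [ZMod.natCast_eq_natCast_iff'] at he'
        rwa [Nat.mod_eq_of_lt hb1, Nat.mod_eq_of_lt hb2] at he')
    exact_mod_cast hle
  obtain ⟨J, hJ⟩ : ∃ J : Finset (Σ _ : ℕ, ℕ), J = S.sigma (fun p => (range p).erase 0) := ⟨_, rfl⟩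
  obtain ⟨u, hu⟩ : ∃ u : (Σ _ : ℕ, ℕ) → Fin n → ℤ, u = fun b i => (b.2 : ℤ) * v i * ((Q / b.1 : ℕ) : ℤ) :=
    ⟨_, rfl⟩
  obtain ⟨z, hz⟩ : ∃ z : (Σ _ : ℕ, ℕ) → ℂ, z = fun b => fc b.1 (I b.1) b.2 *
      ee ((β : ℝ) * ((b.2 : ℝ) / b.1)) := ⟨_, rfl⟩
  have hmain := Pool.Agent.H291R2.FB.ls_multi (ι := Fin n) Q hQ0 (fun _ => M)
    (fun _ => ⟨hM, hQM⟩) J u z
  have hQR : (0 : ℝ) < Q := by exact_mod_cast hQ0
  have hmemJ : ∀ b, b ∈ J ↔ b.1 ∈ S ∧ 0 < b.2 ∧ b.2 < b.1 := by
    intro b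
    rw [hJ, mem_sigma, mem_erase, mem_range]
    constructor
    · rintro ⟨h1, h2, h3⟩; exact ⟨h1, by omega, h3⟩
    · rintro ⟨h1, h2, h3⟩; exact ⟨h1, by omega, h3⟩
  have hu2 : ∀ b ∈ J, ∀ i, (u b i : ℝ) / Q = (b.2 : ℝ) * v i / b.1 := by
    intro b hb i
    obtain ⟨h1, -, -⟩ := (hmemJ b).1 hb
    have h2 : (b.1 : ℝ) ≠ 0 := by exact_mod_cast (hp0 _ h1).ne'
    rw [hu]
    simp only [Int.cast_mul, Int.cast_natCast]
    rw [Nat.cast_div (hQdvd _ h1) h2]
    field_simp
  -- the right side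
  have hright : ∑ b ∈ J, ∑ b' ∈ J,
      (if ∀ i, nint (((u b i - u b' i : ℤ) : ℝ) / Q) ≤ 1 / (2 * (M : ℝ)) then ‖z b‖ * ‖z b'‖
        else 0) ≤ S.card := by
    have h1 : ∀ b ∈ J, ∑ b' ∈ J,
        (if ∀ i, nint (((u b i - u b' i : ℤ) : ℝ) / Q) ≤ 1 / (2 * (M : ℝ)) then ‖z b‖ * ‖z b'‖
          else 0) ≤ ‖z b‖ ^ 2 := by
      intro b hb
      have h2 : ∀ b' ∈ J, b' ≠ b → (if ∀ i, nint (((u b i - u b' i : ℤ) : ℝ) / Q) ≤
          1 / (2 * (M : ℝ)) then ‖z b‖ * ‖z b'‖ else 0) = 0 := by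
        intro b' hb' hne
        rw [if_neg]
        intro hall
        obtain ⟨g1, g2, g3⟩ := (hmemJ b).1 hb
        obtain ⟨g4, g5, g6⟩ := (hmemJ b').1 hb'
        obtain ⟨i, hi⟩ := hsep _ g1 _ g4 _ _ g2 g3 g5 g6 (by
          rintro ⟨h3, h4⟩
          apply hne
          cases b; cases b'
          simp only at h3 h4
          subst h3; subst h4; rfl)
        have h3 := hall i
        have h4 : ((u b i - u b' i : ℤ) : ℝ) / Q = (b.2 : ℝ) * v i / b.1 - (b'.2 : ℝ) * v i / b'.1 := by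
          push_cast
          rw [sub_div, hu2 b hb i, hu2 b' hb' i]
        rw [h4] at h3
        linarith
      rw [sum_eq_single b h2 (fun h => absurd hb h)]
      split_ifs
      · rw [sq]
      · positivity
    refine (sum_le_sum h1).trans ?_
    have h3 : ∀ b, ‖z b‖ = ‖fc b.1 (I b.1) b.2‖ := by
      intro b
      rw [hz]
      simp only [norm_mul]
      rw [Pool.Agent.Helper112.ls_norm_ee, mul_one]
    simp only [h3]
    rw [hJ, sum_sigma]
    rw [card_eq_sum_ones]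
    push_cast
    refine sum_le_sum fun p hp => ?_
    have h4 := fc_parseval p (hp0 p hp) (I p) (hIr p)
    have h5 : ∑ a ∈ (range p).erase 0, ‖fc p (I p) a‖ ^ 2 ≤ ∑ a ∈ range p, ‖fc p (I p) a‖ ^ 2 :=
      sum_le_sum_of_subset_of_nonneg (erase_subset _ _) fun _ _ _ => by positivity
    refine h5.trans ?_
    rw [h4]
    have h6 : (0 : ℝ) < p := by exact_mod_cast hp0 p hp
    rw [div_le_one h6]
    refine (hIc p hp).trans ?_
    nlinarith
  -- the left side
  have hleft : (T.card : ℝ) * (η * S.card) ^ 2 ≤ ∑ x ∈ Fintype.piFinset (fun _ : Fin n => range M),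
      ‖∑ b ∈ J, z b * e ((∑ i, (u b i : ℝ) * (x i : ℝ)) / Q)‖ ^ 2 := by
    have hsub : T ⊆ Fintype.piFinset (fun _ : Fin n => range M) := by
      intro c hc
      rw [Fintype.mem_piFinset]
      intro i
      exact mem_range.2 ((hT c hc).1 i)
    refine le_trans ?_ (sum_le_sum_of_subset_of_nonneg hsub fun _ _ _ => by positivity)
    rw [← nsmul_eq_mul, ← sum_const]
    refine sum_le_sum fun c hc => ?_
    have h1 : ∑ b ∈ J, z b * e ((∑ i, (u b i : ℝ) * (c i : ℝ)) / Q) =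
        ((∑ p ∈ S, (1 - ((I p).card : ℝ) / p) : ℝ) : ℂ) := by
      rw [hJ, sum_sigma]
      push_cast
      refine sum_congr rfl fun p hp => ?_
      have hpR : (p : ℝ) ≠ 0 := by exact_mod_cast (hp0 p hp).ne'
      obtain ⟨w, hw⟩ : ∃ w : ℤ, w = ∑ i, (c i : ℤ) * v i + β := ⟨_, rfl⟩
      obtain ⟨s, hs⟩ : ∃ s : ℕ, s = (w % p).toNat := ⟨_, rfl⟩
      have hwp : (s : ℤ) = w % p := by
        rw [hs, Int.toNat_of_nonneg (Int.emod_nonneg _ (by exact_mod_cast (hp0 p hp).ne'))]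
      have hsp : s < p := by
        have := Int.emod_lt_of_pos w (by exact_mod_cast hp0 p hp : (0 : ℤ) < p)
        omega
      have hsI : s % p ∈ I p := by
        rw [Nat.mod_eq_of_lt hsp, hI, mem_filter, mem_range]
        refine ⟨hsp, ?_⟩
        have h3 := (hT c hc).2 p hp
        rw [← hw] at h3
        have h4 : ((s : ℕ) : ZMod p) = ((w : ℤ) : ZMod p) := by
          have : (((s : ℕ) : ℤ) : ZMod p) = ((w : ℤ) : ZMod p) := by
            rw [hwp, ZMod.intCast_mod]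
          simpa using this
        rw [h4]
        exact h3
      have h5 := fc_inv p (hp0 p hp) (I p) (hIr p) s
      rw [if_pos hsI] at h5
      have h6 : ∀ a ∈ (range p).erase 0, z ⟨p, a⟩ * e ((∑ i, (u ⟨p, a⟩ i : ℝ) * (c i : ℝ)) / Q) =
          fc p (I p) a * ee ((s : ℝ) * ((a : ℝ) / p)) := by
        intro a ha
        have hmem : (⟨p, a⟩ : Σ _ : ℕ, ℕ) ∈ J := by
          rw [hJ, mem_sigma]
          exact ⟨hp, ha⟩
        rw [hz, ← ee_eq]
        simp only
        rw [mul_assoc, ← ls_ee_add]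
        congr 1
        refine ee_congr ((w / p) * a) ?_
        have h7 : (∑ i, (u ⟨p, a⟩ i : ℝ) * (c i : ℝ)) / Q =
            (a : ℝ) / p * ((∑ i, (c i : ℤ) * v i : ℤ) : ℝ) := by
          rw [sum_div]
          push_cast
          rw [mul_sum]
          refine sum_congr rfl fun i _ => ?_
          have := hu2 _ hmem i
          simp only at this
          rw [mul_div_right_comm, this]
          ring
        have h8 : (w : ℝ) = (p : ℝ) * ((w / p : ℤ) : ℝ) + s := by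
          have h9 : (p : ℤ) * (w / p) + w % p = w := Int.mul_ediv_add_emod w p
          rw [← hwp] at h9
          have h10 : (((p : ℤ) * (w / p) + s : ℤ) : ℝ) = (w : ℝ) := by rw [h9]
          push_cast at h10
          exact h10.symm
        have h11 : ((∑ i, (c i : ℤ) * v i : ℤ) : ℝ) = (w : ℝ) - β := by
          rw [hw]; push_cast; ring
        rw [h7, h11, h8]
        push_cast
        field_simp
        ring
      rw [sum_congr rfl h6]
      rw [← add_sum_erase _ _ (mem_range.2 (hp0 p hp))] at h5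
      simp only [Nat.cast_zero, zero_div, mul_zero, Pool.Agent.Helper112.ls_ee_zero, mul_one,
        fc_zero] at h5
      rw [← h5]
      ring
    rw [h1, Complex.norm_real, Real.norm_eq_abs, sq_abs]
    refine pow_le_pow_left₀ (by positivity) ?_ 2
    rw [mul_comm, ← nsmul_eq_mul, ← sum_const]
    refine sum_le_sum fun p hp => ?_
    have h6 : (0 : ℝ) < p := by exact_mod_cast hp0 p hp
    have h7 : ((I p).card : ℝ) / p ≤ 1 - η := by
      rw [div_le_iff₀ h6]
      exact hIc p hp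
    linarith
  have h1 : (T.card : ℝ) * (η * S.card) ^ 2 ≤ (10 * (M : ℝ)) ^ n * S.card := by
    refine hleft.trans (hmain.trans ?_)
    rw [prod_const, card_univ, Fintype.card_fin]
    refine mul_le_mul_of_nonneg_left (le_trans (le_of_eq ?_) hright) (by positivity)
    refine sum_congr rfl fun b _ => sum_congr rfl fun b' _ => ?_
    by_cases hh : ∀ i, nint (((u b i - u b' i : ℤ) : ℝ) / Q) ≤ 1 / (2 * (M : ℝ))
    · rw [if_pos hh, if_pos hh]
    · rw [if_neg hh, if_neg hh]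
  have h2 : (T.card : ℝ) * (η ^ 2 * S.card) * S.card ≤ (10 * (M : ℝ)) ^ n * S.card := by
    refine le_trans (le_of_eq ?_) h1
    ring
  exact le_of_mul_le_mul_right h2 hS0

end Pool.Agent.N120.EH
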