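import Mathlib
import Pool.Agent.N120.EH.Defs

/-! Integral coordinates. -/

set_option autoImplicit false

namespace Pool.Agent.N120.EH

open Finset

/-- a rational root of a monic polynomial with integral coefficients is integral -/
theorem int_root {d : ℕ} (s : Fin d → ℤ) (w : ℚ)
    (h : w ^ d + ∑ i : Fin d, (s i : ℚ) * w ^ (d - 1 - i.1) = 0) :
    ∃ w' : ℤ, w' ^ d + ∑ i : Fin d, s i * w' ^ (d - 1 - i.1) = 0 := by
  obtain ⟨g, hg⟩ : ∃ g : Polynomial ℤ, g = ∑ i : Fin d,
      Polynomial.C (s i) * Polynomial.X ^ (d - 1 - i.1) := ⟨_, rfl⟩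
  have hgd : g.degree < d := by
    rw [hg]
    refine lt_of_le_of_lt (Polynomial.degree_sum_le _ _)
      ((Finset.sup_lt_iff (WithBot.bot_lt_coe d)).2 fun i _ => ?_)
    refine lt_of_le_of_lt (Polynomial.degree_C_mul_X_pow_le _ _) ?_
    have := i.2
    exact Nat.cast_lt.2 (by omega : d - 1 - i.1 < d)
  have hfm : (Polynomial.X ^ d + g).Monic := Polynomial.monic_X_pow_add hgd
  have hev : Polynomial.aeval w (Polynomial.X ^ d + g) = 0 := by
    rw [← h, hg, map_add, map_pow, Polynomial.aeval_X, map_sum]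
    congr 1
    refine sum_congr rfl fun i _ => ?_
    rw [map_mul, Polynomial.aeval_C, map_pow, Polynomial.aeval_X]
    simp
  obtain ⟨w', hw'⟩ := isInteger_of_is_root_of_monic hfm hev
  refine ⟨w', ?_⟩
  have hw2 : (w' : ℚ) = w := by simpa using hw'
  have h2 : ((w' ^ d + ∑ i : Fin d, s i * w' ^ (d - 1 - i.1) : ℤ) : ℚ) = 0 := by
    push_cast
    rw [hw2]
    exact h
  exact_mod_cast h2

theorem root_scale {d : ℕ} (s s' : Fin d → ℚ) (L w : ℚ) (hL : L ≠ 0)
    (hs : ∀ i, s i = L ^ (i.1 + 1) * s' i)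
    (h : w ^ d + ∑ i : Fin d, s i * w ^ (d - 1 - i.1) = 0) :
    (w / L) ^ d + ∑ i : Fin d, s' i * (w / L) ^ (d - 1 - i.1) = 0 := by
  have hLd : L ^ d ≠ 0 := pow_ne_zero _ hL
  have h1 : L ^ d * ((w / L) ^ d + ∑ i : Fin d, s' i * (w / L) ^ (d - 1 - i.1)) = 0 := by
    rw [← h, mul_add, mul_sum]
    congr 1
    · rw [div_pow]; field_simp
    · refine sum_congr rfl fun i _ => ?_
      have h2 : L ^ d = L ^ (i.1 + 1) * L ^ (d - 1 - i.1) := by
        rw [← pow_add]
        congr 1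
        have := i.2
        omega
      rw [h2, hs, div_pow]
      have h3 : L ^ (d - 1 - i.1) ≠ 0 := pow_ne_zero _ hL
      field_simp
  exact (mul_eq_zero.1 h1).resolve_left hLd

variable {σ : Type} [Fintype σ] [DecidableEq σ] {m d : ℕ}

theorem form_scale (c : Idx σ m d → ℤ) (i : Fin d) (l : ℚ) (x : σ → ℚ) :
    form c i (fun e => l * x e) = (l ^ m) ^ (i.1 + 1) * form c i x := by
  unfold form
  rw [mul_sum]
  refine sum_congr rfl fun s _ => ?_
  have h1 : ((s : Multiset σ).map (fun e => l * x e)).prod =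
      l ^ ((i.1 + 1) * m) * ((s : Multiset σ).map x).prod := by
    rw [Multiset.prod_map_mul, Multiset.map_const', Multiset.prod_replicate, Sym.card_coe]
  rw [h1, ← pow_mul, mul_comm m]
  ring

/-- the property does not depend on the homogeneous coordinates -/
theorem pointOver_scale (c : Idx σ m d → ℤ) (l : ℚ) (hl : l ≠ 0) (x : σ → ℚ)
    (h : PointOver c (fun e => l * x e)) : PointOver c x := by
  obtain ⟨w, hw⟩ := h
  exact ⟨w / l ^ m, root_scale _ _ _ w (pow_ne_zero _ hl) (fun i => form_scale c i l x) hw⟩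

/-- the vector of the values of the monomials -/
def vec (x : σ → ℤ) (j : Idx σ m d) : ℤ := ((j.2 : Multiset σ).map x).prod

theorem int_root_of_pointOver (c : Idx σ m d → ℤ) (x : σ → ℤ)
    (h : PointOver c (fun e => (x e : ℚ))) :
    ∃ w : ℤ, w ^ d + ∑ i : Fin d,
      (∑ j : Idx σ m d, if j.1 = i then c j * vec x j else 0) * w ^ (d - 1 - i.1) = 0 := by
  obtain ⟨w, hw⟩ := h
  refine int_root (fun i => ∑ j : Idx σ m d, if j.1 = i then c j * vec x j else 0) w ?_
  rw [← hw]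
  congr 1
  refine sum_congr rfl fun i _ => ?_
  congr 1
  push_cast
  rw [Fintype.sum_sigma]
  rw [sum_eq_single i]
  · unfold form vec
    refine sum_congr rfl fun s _ => ?_
    rw [if_pos rfl]
    congr 1
    have h1 := map_multiset_prod (Int.castRingHom ℚ) ((s : Multiset σ).map x)
    rw [Multiset.map_map] at h1
    simpa using h1
  · intro i' _ hi'
    exact sum_eq_zero fun s _ => if_neg hi'
  · intro h
    exact absurd (mem_univ _) h

/-- every nonzero vector is proportional to a primitive one -/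
theorem exists_primitive (x : σ → ℤ) (hx : x ≠ 0) : ∃ (g : ℤ) (y : σ → ℤ), g ≠ 0 ∧
    (∀ e, x e = g * y e) ∧ (∀ p : ℕ, p.Prime → ∃ e, ¬ (p : ℤ) ∣ y e) ∧ (∀ e, |y e| ≤ |x e|) ∧
    univ.gcd y = 1 := by
  classical
  obtain ⟨e₀, he₀⟩ := Function.ne_iff.1 hx
  obtain ⟨y, hy1, hy2⟩ := (univ : Finset σ).extract_gcd x ⟨e₀, mem_univ _⟩
  have hg : univ.gcd x ≠ 0 := by
    intro h
    rw [Finset.gcd_eq_zero_iff] at h
    exact he₀ (h e₀ (mem_univ _))
  refine ⟨univ.gcd x, y, hg, fun e => hy1 e (mem_univ _), ?_, ?_, hy2⟩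
  · intro p hp
    by_contra hcon
    push Not at hcon
    have h1 : (p : ℤ) ∣ univ.gcd y := Finset.dvd_gcd fun e _ => hcon e
    rw [hy2] at h1
    exact (Nat.prime_iff_prime_int.1 hp).not_isUnit (isUnit_of_dvd_one h1)
  · intro e
    rw [hy1 e (mem_univ _), abs_mul]
    exact le_mul_of_one_le_left (abs_nonneg _) (Int.one_le_abs hg)

/-- the monomial `e^n` of the last form -/
def powIdx (m d : ℕ) (hd : 1 ≤ d) (e : σ) : Idx σ m d :=
  ⟨⟨d - 1, by omega⟩, Sym.replicate ((d - 1 + 1) * m) e⟩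

theorem vec_powIdx (hd : 1 ≤ d) (x : σ → ℤ) (e : σ) :
    vec x (powIdx m d hd e) = x e ^ ((d - 1 + 1) * m) := by
  unfold vec powIdx
  simp only [Sym.coe_replicate]
  rw [Multiset.map_replicate, Multiset.prod_replicate]

end Pool.Agent.N120.EH
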