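import Mathlib
import Pool.Agent.N120.EH.Vec
import Pool.Agent.N120.EH.Bad
import Pool.Agent.N120.EH.Close
import Pool.Agent.N120.EH.Fibre
import Pool.Agent.N120.EH.SieveM
import Pool.Agent.N120.EH.SieveD

/-! Points of large height. -/

set_option autoImplicit false

namespace Pool.Agent.N120.EH

open Finset
open Pool.Agent.H442R2.EHI (nint)

variable {σ : Type} [Fintype σ] [DecidableEq σ] {m d : ℕ}

/-- the monomials `e₀^(n-i) e₁^i` of the last form -/
def emb (m d : ℕ) (hd : 1 ≤ d) (e₀ e₁ : σ) (i : Fin ((d - 1 + 1) * m + 1)) : Idx σ m d :=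
  ⟨⟨d - 1, by omega⟩, ⟨Multiset.replicate ((d - 1 + 1) * m - i) e₀ + Multiset.replicate i e₁, by
    rw [Multiset.card_add, Multiset.card_replicate, Multiset.card_replicate]
    exact Nat.sub_add_cancel (Nat.lt_succ_iff.1 i.2)⟩⟩

theorem emb_injective (hd : 1 ≤ d) (e₀ e₁ : σ) (hne : e₀ ≠ e₁) :
    Function.Injective (emb m d hd e₀ e₁) := by
  intro i j hij
  unfold emb at hij
  rw [Sigma.mk.inj_iff] at hij
  have h1 := eq_of_heq hij.2
  have h2 : Multiset.count e₁ (Multiset.replicate ((d - 1 + 1) * m - (i : ℕ)) e₀ +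
      Multiset.replicate (i : ℕ) e₁) = Multiset.count e₁ (Multiset.replicate ((d - 1 + 1) * m -
      (j : ℕ)) e₀ + Multiset.replicate (j : ℕ) e₁) :=
    congrArg (fun s : Sym σ ((d - 1 + 1) * m) => Multiset.count e₁ (s : Multiset σ)) h1
  simp only [Multiset.count_add, Multiset.count_replicate, if_neg hne, if_true, zero_add] at h2
  exact Fin.ext h2

theorem vec_emb (hd : 1 ≤ d) (e₀ e₁ : σ) (x : σ → ℤ) (i : Fin ((d - 1 + 1) * m + 1)) :
    vec x (emb m d hd e₀ e₁ i) = x e₀ ^ ((d - 1 + 1) * m - (i : ℕ)) * x e₁ ^ (i : ℕ) := by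
  have h1 : ((emb m d hd e₀ e₁ i).2 : Multiset σ) =
      Multiset.replicate ((d - 1 + 1) * m - i) e₀ + Multiset.replicate i e₁ := rfl
  unfold vec
  rw [h1, Multiset.map_add, Multiset.prod_add, Multiset.map_replicate, Multiset.map_replicate,
    Multiset.prod_replicate, Multiset.prod_replicate]

/-- splitting off the coordinates of the embedding -/
theorem sum_extend {ι κ : Type} [Fintype ι] [DecidableEq ι] [Fintype κ] (f : κ → ι)
    (hf : Function.Injective f) (t : κ → ℤ) (c' v : ι → ℤ) (P : ι → Prop) [DecidablePred P]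
    (hP : ∀ i, P (f i)) :
    (∑ j, if P j then Function.extend f t c' j * v j else 0) =
      ∑ i, t i * v (f i) + ∑ j, if P j ∧ j ∉ univ.image f then c' j * v j else 0 := by
  classical
  have h1 : ∀ j, (if P j then Function.extend f t c' j * v j else 0) =
      (if j ∈ univ.image f then Function.extend f t c' j * v j else 0) +
      (if P j ∧ j ∉ univ.image f then c' j * v j else 0) := by
    intro j
    by_cases hj : j ∈ univ.image f
    · obtain ⟨i, -, rfl⟩ := mem_image.1 hj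
      rw [if_pos (hP i), if_pos hj, if_neg (fun h => h.2 hj), add_zero]
    · have h2 : Function.extend f t c' j = c' j := Function.extend_apply' _ _ _ (by
        rintro ⟨i, rfl⟩
        exact hj (mem_image_of_mem _ (mem_univ _)))
      rw [if_neg hj, zero_add, h2]
      by_cases h3 : P j
      · rw [if_pos h3, if_pos ⟨h3, hj⟩]
      · rw [if_neg h3, if_neg (fun h => h3 h.1)]
  rw [sum_congr rfl fun j _ => h1 j, sum_add_distrib]
  congr 1
  rw [sum_ite_mem, univ_inter, sum_image (fun i _ j _ h => hf h)]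
  refine sum_congr rfl fun i _ => ?_
  rw [hf.extend_apply]

theorem large_core (hd : 2 ≤ d) (K l : ℕ) (hl : K + 1 ≤ l)
    (hn : l + 2 * (K + 1) ≤ (d - 1 + 1) * m) (H X G : ℕ)
    (hXM : ((K + 1).factorial : ℝ) * ((X ^ 2 : ℕ) : ℝ) < (2 * ((2 * H + 1 : ℕ) : ℝ)) ^ (K + 1))
    (hG : 2 ^ (K + 1) * ((l + 1) * ((l + 1) * ((X ^ 2 : ℕ) : ℝ)) ^
        (((K + 1 : ℕ) : ℝ) / ((l + 1 : ℕ) - (K + 1 : ℕ)))) ≤ (G : ℝ))
    (x : σ → ℤ) (e₀ e₁ : σ) (hne : e₀ ≠ e₁) (g U V : ℤ) (h0 : x e₀ = g * V) (h1 : x e₁ = g * U)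
    (S : Finset ℕ) (hS : ∀ p ∈ S, p.Prime ∧ p ≤ X ∧ d ∣ p - 1 ∧ ¬ (p : ℤ) ∣ x e₀)
    (hbad : ∀ p ∈ S, ∀ f : Fin (K + 1) → ℤ, f ≠ 0 → (∀ i, |f i| ≤ G) →
      ¬ (p : ℤ) ∣ ∑ i, f i * U ^ (i : ℕ) * V ^ (K - (i : ℕ)))
    (T : Finset (Idx σ m d → ℤ))
    (hT : ∀ c ∈ T, (∀ j, |c j| ≤ H) ∧ ∃ w : ℤ, w ^ d + ∑ i : Fin d,
      (∑ j : Idx σ m d, if j.1 = i then c j * vec x j else 0) * w ^ (d - 1 - i.1) = 0) :
    (T.card : ℝ) * ((1 / (2 * (d : ℝ))) ^ 2 * S.card) ≤
      10 ^ ((d - 1 + 1) * m + 1) * (2 * (H : ℝ) + 1) ^ Fintype.card (Idx σ m d) := by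
  classical
  rcases Finset.eq_empty_or_nonempty S with hSe | hSe
  · subst hSe
    simp only [card_empty, Nat.cast_zero, mul_zero]
    positivity
  have hS0 : (0 : ℝ) < S.card := by exact_mod_cast hSe.card_pos
  have hd0 : (0 : ℝ) < d := by
    have : (2 : ℝ) ≤ d := by exact_mod_cast hd
    linarith
  have hη : (0 : ℝ) < 1 / (2 * (d : ℝ)) := by positivity
  obtain ⟨n, hnn⟩ : ∃ n : ℕ, n = (d - 1 + 1) * m := ⟨_, rfl⟩
  have hd1 : 1 ≤ d := by omega
  obtain ⟨f, hf⟩ : ∃ f : Fin ((d - 1 + 1) * m + 1) → Idx σ m d, f = emb m d hd1 e₀ e₁ := ⟨_, rfl⟩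
  have hfi : Function.Injective f := by rw [hf]; exact emb_injective hd1 e₀ e₁ hne
  obtain ⟨last, hlast⟩ : ∃ last : Fin d, last = ⟨d - 1, by omega⟩ := ⟨_, rfl⟩
  have hlast1 : last.1 = d - 1 := by rw [hlast]
  have hfd : ∀ i, (f i).1 = last := fun i => by rw [hf, hlast]; rfl
  have hfv : ∀ i, vec x (f i) = (g ^ ((d - 1 + 1) * m)) * V ^ ((d - 1 + 1) * m - (i : ℕ)) *
      U ^ (i : ℕ) := by
    intro i
    rw [hf, vec_emb, h0, h1, mul_pow, mul_pow]
    have h2 : g ^ ((d - 1 + 1) * m) = g ^ ((d - 1 + 1) * m - (i : ℕ)) * g ^ (i : ℕ) := by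
      rw [← pow_add]
      congr 1
      have := i.2
      omega
    rw [h2]
    ring
  have hM1 : 1 ≤ 2 * H + 1 := by omega
  have hpg : ∀ p ∈ S, ¬ (p : ℤ) ∣ g ∧ ¬ (p : ℤ) ∣ V := by
    intro p hp
    have h2 := (hS p hp).2.2.2
    rw [h0] at h2
    exact ⟨fun h => h2 (h.mul_right _), fun h => h2 (h.mul_left _)⟩
  have hsep : ∀ p ∈ S, ∀ p' ∈ S, ∀ a a' : ℕ, 0 < a → a < p → 0 < a' → a' < p' →
      ¬ (p = p' ∧ a = a') →
      ∃ i : Fin ((d - 1 + 1) * m + 1), 1 / (2 * ((2 * H + 1 : ℕ) : ℝ)) <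
        nint ((a : ℝ) * vec x (f i) / p - (a' : ℝ) * vec x (f i) / p') := by
    intro p hp p' hp' a a' ha hap ha' hap' hna
    by_contra hcon
    push Not at hcon
    obtain ⟨hpp, hpX, -, -⟩ := hS p hp
    obtain ⟨hpp', hpX', -, -⟩ := hS p' hp'
    have hpz := Nat.prime_iff_prime_int.1 hpp
    have hpz' := Nat.prime_iff_prime_int.1 hpp'
    obtain ⟨q, hq0, hq1, hq2⟩ := close_bad K l ((d - 1 + 1) * m) hl hn (2 * H + 1) X hM1 hXM U V
      (g ^ ((d - 1 + 1) * m)) p p' hpp hpp' hpX hpX' (hpg p hp).2 (hpg p' hp').2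
      (fun h => (hpg p hp).1 (hpz.dvd_of_dvd_pow h)) (fun h => (hpg p' hp').1 (hpz'.dvd_of_dvd_pow h))
      a a' ha hap ha' hap' hna (fun i hi => by
        have h2 := hcon ⟨i, by omega⟩
        rw [hfv] at h2
        exact h2)
    refine hbad p hp q hq0 (fun i => ?_) hq2
    have h2 := (hq1 i).trans hG
    rw [← Int.cast_abs] at h2
    exact_mod_cast h2
  obtain ⟨B, hB⟩ : ∃ B : (c' : Idx σ m d → ℤ) → (p : ℕ) → Set (ZMod p), ∀ c' p, B c' p =
      {t : ZMod p | ∃ w : ZMod p, w ^ d + ∑ i : Fin d,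
          (if i.1 = d - 1 then t else
            (((∑ j : Idx σ m d, if j.1 = i then c' j * vec x j else 0 : ℤ)) : ZMod p)) *
              w ^ (d - 1 - i.1) = 0} := ⟨_, fun c' p => rfl⟩
  have hfib := card_le_fibres H f hfi T (fun c hc => (hT c hc).1)
    ((10 * ((2 * H + 1 : ℕ) : ℝ)) ^ ((d - 1 + 1) * m + 1) /
      ((1 / (2 * (d : ℝ))) ^ 2 * S.card)) (by
    intro c' W hW
    rw [le_div_iff₀ (by positivity)]
    have hWH : ∀ t ∈ W, ∀ i, |t i| ≤ H := by
      intro t ht i
      have h2 := (hT _ (hW t ht)).1 (f i)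
      rwa [hfi.extend_apply] at h2
    have hcardW : (W.image (fun (t : Fin ((d - 1 + 1) * m + 1) → ℤ) i => (t i + H).toNat)).card =
        W.card := by
      refine card_image_of_injOn ?_
      intro t ht t' ht' he
      funext i
      have h2 := congrFun he i
      have h3 := abs_le.1 (hWH t ht i)
      have h4 := abs_le.1 (hWH t' ht' i)
      simp only at h2
      omega
    have h2 := sieveM ((d - 1 + 1) * m + 1) S (2 * H + 1) hM1 (1 / (2 * d)) hη
      (fun i => vec x (f i))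
      (∑ j : Idx σ m d, (if j.1 = last ∧ j ∉ univ.image f then
        c' j * vec x j else 0) - ∑ i, (H : ℤ) * vec x (f i)) (B c')
      (by
        intro p hp
        obtain ⟨hp3, -, hp5, -⟩ := hS p hp
        haveI : Fact p.Prime := ⟨hp3⟩
        rw [hB]
        exact ⟨hp3, card_B p d hd hp5 _⟩)
      hsep (W.image (fun (t : Fin ((d - 1 + 1) * m + 1) → ℤ) i => (t i + H).toNat))
      (by
        intro y hy
        obtain ⟨t, ht, rfl⟩ := mem_image.1 hy
        refine ⟨fun i => ?_, fun p hp => ?_⟩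
        · have h3 := abs_le.1 (hWH t ht i)
          simp only
          omega
        · obtain ⟨w, hw⟩ := (hT _ (hW t ht)).2
          rw [hB]
          refine ⟨(w : ZMod p), ?_⟩
          have h3 := congrArg (fun z : ℤ => (z : ZMod p)) hw
          simp only [Int.cast_zero] at h3
          have h3' : ∀ F : Fin d → ℤ, ((w ^ d + ∑ i : Fin d, F i * w ^ (d - 1 - i.1) : ℤ) : ZMod p) =
              (w : ZMod p) ^ d + ∑ i : Fin d, (F i : ZMod p) * (w : ZMod p) ^ (d - 1 - i.1) := by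
            intro F
            push_cast
            rfl
          rw [← h3, h3']
          congr 1
          refine sum_congr rfl fun i _ => ?_
          congr 1
          by_cases hi : i.1 = d - 1
          · rw [if_pos hi]
            have hi' : i = last := Fin.ext (by rw [hi, hlast1])
            rw [hi', sum_extend f hfi t c' (vec x) (fun j => j.1 = last) hfd]
            congr 1
            have h4 : ∀ i, (((t i + H).toNat : ℕ) : ℤ) = t i + H := fun i => by
              have h5 := abs_le.1 (hWH t ht i)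
              omega
            simp only [h4]
            have h6 : ∑ i, (t i + (H : ℤ)) * vec x (f i) =
                ∑ i, t i * vec x (f i) + ∑ i, (H : ℤ) * vec x (f i) := by
              rw [← sum_add_distrib]
              exact sum_congr rfl fun i _ => by ring
            rw [h6]
            ring
          · rw [if_neg hi]
            congr 1
            refine sum_congr rfl fun j _ => ?_
            by_cases hj : j.1 = i
            · rw [if_pos hj, if_pos hj, Function.extend_apply' _ _ _ (by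
                rintro ⟨i', rfl⟩
                apply hi
                rw [← hj, hfd, hlast1])]
            · rw [if_neg hj, if_neg hj])
    rw [hcardW] at h2
    exact h2)
  have hcard : (d - 1 + 1) * m + 1 ≤ Fintype.card (Idx σ m d) := by
    have := Fintype.card_le_of_injective f hfi
    rwa [Fintype.card_fin] at this
  rw [Fintype.card_fin] at hfib
  rw [mul_div_assoc', le_div_iff₀ (by positivity)] at hfib
  refine hfib.trans (le_of_eq ?_)
  have h2 : (2 * (H : ℝ) + 1) ^ Fintype.card (Idx σ m d) =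
      (2 * (H : ℝ) + 1) ^ (Fintype.card (Idx σ m d) - ((d - 1 + 1) * m + 1)) *
        (2 * (H : ℝ) + 1) ^ ((d - 1 + 1) * m + 1) := by
    rw [← pow_add]
    congr 1
    omega
  rw [h2]
  push_cast
  rw [mul_pow]
  ring

end Pool.Agent.N120.EH
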