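import Mathlib
import Pool.Agent.N120.EH.Large

/-! Points of large height: choice of the parameters. -/

set_option autoImplicit false

namespace Pool.Agent.N120.EH

open Finset

/-- the set of vectors `c` in the box with a root over `x` -/
def Good {σ : Type} [Fintype σ] [DecidableEq σ] {m d : ℕ} (H : ℕ) (x : σ → ℤ)
    (c : Idx σ m d → ℤ) : Prop :=
  (∀ j, |c j| ≤ H) ∧ ∃ w : ℤ, w ^ d + ∑ i : Fin d,
      (∑ j : Idx σ m d, if j.1 = i then c j * vec x j else 0) * w ^ (d - 1 - i.1) = 0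

theorem aux1 {C y : ℝ} (h1 : C + 1 ≤ y) (h2 : 1 ≤ y) : C * y ≤ y * y - 1 := by nlinarith

theorem aux2 {L l h : ℝ} (hL : 1 ≤ L) (hl : 1 ≤ l) (hh : 1 ≤ h) : L ≤ h * (L * l) := by
  have h1 : L ≤ L * l := le_mul_of_one_le_right (by linarith) hl
  have h2 : L * l ≤ h * (L * l) := le_mul_of_one_le_left (by linarith) hh
  linarith

theorem aux3 {a L l g : ℝ} (ha : 0 ≤ a) (hL : 1 ≤ L) (hl : 1 ≤ l) (hg : g ≤ l) :
    a + g ≤ (a + 1) * (L * l) := by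
  have h1 : l ≤ L * l := le_mul_of_one_le_left (by linarith) hL
  have h2 : a * 1 ≤ a * (L * l) := mul_le_mul_of_nonneg_left (by linarith) ha
  linarith

theorem aux4 {a b L l g : ℝ} (hb : 0 ≤ b) (hL : 1 ≤ L) (hl : 1 ≤ l)
    (hg : g ≤ (a + 1) * (L * l)) : g + b * L ≤ (a + 1 + b) * (L * l) := by
  have h1 : L ≤ L * l := le_mul_of_one_le_right (by linarith) hl
  have h2 : b * L ≤ b * (L * l) := mul_le_mul_of_nonneg_left h1 hb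
  linarith

theorem aux5 {x y : ℝ} (h0 : 0 ≤ x) (h : x ≤ 8 * y) : x * x ≤ 64 * (y * y) := by nlinarith

theorem aux6 {B γ N : ℝ} (hN : 4 * B * (2 * B + 1) < N * γ) (hγ : 0 < γ) :
    2 * B * (2 * B + 1) ≤ γ / 2 * (N + 1) := by nlinarith

theorem aux7 {A Bb D n : ℝ} (hB : 0 < Bb) (hl : 0 < D) {c₀ P T e lM : ℝ} (hc₀ : 0 < c₀) (hP : 0 < P)
    (hlM : 0 < lM) (h : T ≤ A * P ^ n / (e * (c₀ * D / (Bb * lM) / 2))) (he : 0 < e) :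
    T ≤ A * (2 * Bb) / (e * c₀) * P ^ n * (lM / D) := by
  refine h.trans (le_of_eq ?_)
  field_simp

theorem large_param (d : ℕ) (hd : 2 ≤ d) (B : ℕ) (hB : 1 ≤ B) (γ : ℝ) (hγ : 0 < γ)
    (hγB : γ * (2 * B + 1) ≤ 1 / 2) :
    ∃ n₀ : ℕ, ∀ (σ : Type) [Fintype σ] [DecidableEq σ] (m : ℕ), n₀ ≤ (d - 1 + 1) * m →
    ∃ C : ℝ, 0 < C ∧ ∃ M₀ : ℕ, ∀ H : ℕ, M₀ ≤ 2 * H + 1 →
    ∀ (x : σ → ℤ) (e₀ e₁ : σ) (g U V : ℤ), e₀ ≠ e₁ → x e₀ = g * V → x e₁ = g * U → IsCoprime U V →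
    x e₀ ≠ 0 → (2 * (H : ℝ) + 1) ^ γ < ((max |U| |V| : ℤ) : ℝ) →
    |(x e₀ : ℝ)| ≤ Real.exp ((2 * (H : ℝ) + 1) ^ (B - 1)) →
    |(x e₁ : ℝ)| ≤ Real.exp ((2 * (H : ℝ) + 1) ^ (B - 1)) →
    ∀ T : Finset (Idx σ m d → ℤ), (∀ c ∈ T, Good H x c) →
    (T.card : ℝ) ≤ C * (2 * (H : ℝ) + 1) ^ Fintype.card (Idx σ m d) *
      (Real.log (2 * (H : ℝ) + 1) / (2 * (H : ℝ) + 1) ^ B) := by
  classical
  obtain ⟨c₀, hc₀, X₀, hX₀⟩ := primes_one d (by omega)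
  have hBr : (1 : ℝ) ≤ B := by exact_mod_cast hB
  obtain ⟨l, hl1, hl2⟩ : ∃ l : ℕ, 2 * B + 1 ≤ l ∧
      2 * (B : ℝ) * (((2 * B + 1 : ℕ) : ℝ) / ((l + 1 : ℕ) - (2 * B + 1 : ℕ))) ≤ γ / 2 := by
    obtain ⟨N, hN⟩ := exists_nat_gt (4 * (B : ℝ) * (2 * B + 1) / γ)
    refine ⟨N + (2 * B + 1), by omega, ?_⟩
    rw [div_lt_iff₀ hγ] at hN
    push_cast
    have h1 : (0 : ℝ) < (N : ℝ) + 1 := by positivity
    have h2 : ((N : ℝ) + (2 * B + 1) + 1 - (2 * B + 1)) = N + 1 := by ring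
    rw [h2, ← mul_div_assoc, div_le_iff₀ h1]
    exact aux6 hN hγ
  refine ⟨l + 2 * (2 * B + 1), ?_⟩
  intro σ _ _ m hm
  obtain ⟨C₁, hC₁⟩ : ∃ C₁ : ℝ, C₁ = 2 ^ (2 * B + 1) * (((l : ℝ) + 1) * ((l : ℝ) + 1) ^
    (((2 * B + 1 : ℕ) : ℝ) / ((l + 1 : ℕ) - (2 * B + 1 : ℕ)))) := ⟨_, rfl⟩
  have hC₁0 : 0 < C₁ := by rw [hC₁]; positivity
  have hl20 : (0 : ℝ) < Real.log 2 := Real.log_pos (by norm_num)
  obtain ⟨C₂, hC₂⟩ : ∃ C₂ : ℝ, C₂ = (1 + 3 ^ (2 * B + 1) * (Real.log (2 * B + 1) + 1 + 2 * B)) /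
    Real.log 2 := ⟨_, rfl⟩
  have hlogB : 0 ≤ Real.log (2 * B + 1) := Real.log_nonneg (by linarith)
  have hC₂0 : 0 < C₂ := by rw [hC₂]; positivity
  obtain ⟨C₅, hC₅⟩ : ∃ C₅ : ℝ, C₅ = 2 * B * C₂ / c₀ := ⟨_, rfl⟩
  have hd0 : (0 : ℝ) < d := by
    have : (2 : ℝ) ≤ d := by exact_mod_cast hd
    linarith
  obtain ⟨C, hC⟩ : ∃ C : ℝ, C = 10 ^ ((d - 1 + 1) * m + 1) * (2 * B) /
    ((1 / (2 * (d : ℝ))) ^ 2 * c₀) := ⟨_, rfl⟩
  have hC0 : 0 < C := by rw [hC]; positivity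
  refine ⟨C, hC0, ?_⟩
  -- `M` is large
  have ev1 := (tendsto_rpow_atTop (by positivity : (0 : ℝ) < γ / 2)).eventually_ge_atTop (C₁ + 1)
  have ev2 := (tendsto_rpow_atTop (by norm_num : (0 : ℝ) < 1 / 4)).eventually_ge_atTop (64 * C₅)
  obtain ⟨y₀, hy₀⟩ := (ev1.and ev2).exists_forall_of_atTop
  obtain ⟨M₀, hM₀⟩ : ∃ M₀ : ℕ, M₀ = max (max ⌈y₀⌉₊ ((2 * B + 1).factorial)) (max X₀ 3) := ⟨_, rfl⟩
  refine ⟨M₀, ?_⟩
  intro H hH x e₀ e₁ g U V hne h0 h1 hUV hx0 hbig hxe₀ hxe₁ T hT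
  obtain ⟨M, hM⟩ : ∃ M : ℕ, M = 2 * H + 1 := ⟨_, rfl⟩
  have hMr : (2 * (H : ℝ) + 1) = (M : ℝ) := by rw [hM]; push_cast; ring
  rw [hMr] at hbig hxe₀ hxe₁ ⊢
  rw [← hM] at hH
  have hM1 : ⌈y₀⌉₊ ≤ M := by
    refine le_trans ?_ hH
    rw [hM₀]; exact (le_max_left _ _).trans (le_max_left _ _)
  have hM2 : (2 * B + 1).factorial ≤ M := by
    refine le_trans ?_ hH
    rw [hM₀]; exact (le_max_right _ _).trans (le_max_left _ _)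
  have hM3 : X₀ ≤ M := by
    refine le_trans ?_ hH
    rw [hM₀]; exact (le_max_left _ _).trans (le_max_right _ _)
  have hM4 : 3 ≤ M := by
    refine le_trans ?_ hH
    rw [hM₀]; exact (le_max_right _ _).trans (le_max_right _ _)
  have hM5 : y₀ ≤ M := (Nat.le_ceil _).trans (by exact_mod_cast hM1)
  obtain ⟨hy1, hy2⟩ := hy₀ M hM5
  have hM3r : (3 : ℝ) ≤ M := by exact_mod_cast hM4
  have hM0 : (0 : ℝ) < M := by linarith
  have hM1r : (1 : ℝ) ≤ M := by linarith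
  have hlM : 1 ≤ Real.log M := by
    rw [Real.le_log_iff_exp_le hM0]
    have := Real.exp_one_lt_d9
    linarith
  have hlM0 : 0 < Real.log M := by linarith
  -- the parameters
  obtain ⟨X, hX⟩ : ∃ X : ℕ, X = M ^ B := ⟨_, rfl⟩
  have hXr : (X : ℝ) = (M : ℝ) ^ B := by rw [hX]; push_cast; rfl
  have hMX : M ≤ X := by rw [hX]; exact Nat.le_self_pow (by omega) M
  have hXX₀ : X₀ ≤ X := hM3.trans hMX
  obtain ⟨G, hG⟩ : ∃ G : ℕ, G = ⌊(M : ℝ) ^ γ⌋₊ := ⟨_, rfl⟩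
  have hMγ0 : 0 < (M : ℝ) ^ γ := Real.rpow_pos_of_pos hM0 _
  have hMγ1 : 1 ≤ (M : ℝ) ^ γ := Real.one_le_rpow hM1r hγ.le
  have hGle : (G : ℝ) ≤ (M : ℝ) ^ γ := by rw [hG]; exact Nat.floor_le hMγ0.le
  have hG1 : 1 ≤ G := by rw [hG]; exact Nat.le_floor (by exact_mod_cast hMγ1)
  have hGr1 : (1 : ℝ) ≤ G := by exact_mod_cast hG1
  have hGge : (M : ℝ) ^ γ - 1 ≤ G := by rw [hG]; exact (Nat.sub_one_lt_floor _).le
  have hXM : ((2 * B + 1).factorial : ℝ) * ((X ^ 2 : ℕ) : ℝ) <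
      (2 * ((2 * H + 1 : ℕ) : ℝ)) ^ (2 * B + 1) := by
    rw [← hM]
    push_cast
    rw [hXr, ← pow_mul, mul_comm B 2, mul_pow, pow_succ (M : ℝ) (2 * B)]
    have e1 : ((2 * B + 1).factorial : ℝ) ≤ M := by exact_mod_cast hM2
    have e2 : (1 : ℝ) < 2 ^ (2 * B + 1) := one_lt_pow₀ (by norm_num) (by omega)
    have e3 : (0 : ℝ) < (M : ℝ) ^ (2 * B) := by positivity
    calc ((2 * B + 1).factorial : ℝ) * (M : ℝ) ^ (2 * B) ≤ M * (M : ℝ) ^ (2 * B) :=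
          mul_le_mul_of_nonneg_right e1 e3.le
      _ = 1 * ((M : ℝ) ^ (2 * B) * M) := by ring
      _ < 2 ^ (2 * B + 1) * ((M : ℝ) ^ (2 * B) * M) := mul_lt_mul_of_pos_right e2 (by positivity)
  have hGb : 2 ^ (2 * B + 1) * ((l + 1) * ((l + 1) * ((X ^ 2 : ℕ) : ℝ)) ^
        (((2 * B + 1 : ℕ) : ℝ) / ((l + 1 : ℕ) - (2 * B + 1 : ℕ)))) ≤ (G : ℝ) := by
    obtain ⟨E, hE⟩ : ∃ E : ℝ, E = ((2 * B + 1 : ℕ) : ℝ) / ((l + 1 : ℕ) - (2 * B + 1 : ℕ)) := ⟨_, rfl⟩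
    rw [← hE] at hC₁ hl2 ⊢
    have e1 : ((X ^ 2 : ℕ) : ℝ) = (M : ℝ) ^ (2 * (B : ℝ)) := by
      push_cast
      rw [hXr, ← pow_mul, ← Real.rpow_natCast]
      congr 1
      push_cast
      ring
    have e2 : ((M : ℝ) ^ (2 * (B : ℝ))) ^ E ≤ (M : ℝ) ^ (γ / 2) := by
      rw [← Real.rpow_mul hM0.le]
      exact Real.rpow_le_rpow_of_exponent_le hM1r hl2
    have e3 : ((l + 1) * ((X ^ 2 : ℕ) : ℝ)) ^ E ≤ ((l : ℝ) + 1) ^ E * (M : ℝ) ^ (γ / 2) := by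
      rw [e1, Real.mul_rpow (by positivity) (by positivity)]
      exact mul_le_mul_of_nonneg_left e2 (by positivity)
    have e4 : (M : ℝ) ^ γ = (M : ℝ) ^ (γ / 2) * (M : ℝ) ^ (γ / 2) := by
      rw [← Real.rpow_add hM0]
      congr 1
      ring
    have e5 : 1 ≤ (M : ℝ) ^ (γ / 2) := Real.one_le_rpow hM1r (by positivity)
    calc 2 ^ (2 * B + 1) * ((l + 1) * ((l + 1) * ((X ^ 2 : ℕ) : ℝ)) ^ E)
        ≤ 2 ^ (2 * B + 1) * ((l + 1) * (((l : ℝ) + 1) ^ E * (M : ℝ) ^ (γ / 2))) := by gcongr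
      _ = C₁ * (M : ℝ) ^ (γ / 2) := by rw [hC₁]; ring
      _ ≤ (M : ℝ) ^ γ - 1 := by
          rw [e4]
          exact aux1 hy1 e5
      _ ≤ G := hGge
  -- the primes
  obtain ⟨S₀, hS₀⟩ : ∃ S₀ : Finset ℕ, S₀ = (Icc 1 X).filter
    (fun p : ℕ => p.Prime ∧ p ≡ 1 [MOD d]) := ⟨_, rfl⟩
  have hS₀c := hX₀ X hXX₀
  rw [← hS₀] at hS₀c
  have hS₀p : ∀ p ∈ S₀, p.Prime ∧ p ≤ X ∧ d ∣ p - 1 := by
    intro p hp
    rw [hS₀, mem_filter, mem_Icc] at hp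
    exact ⟨hp.2.1, hp.1.2, (Nat.modEq_iff_dvd' hp.1.1).1 hp.2.2.symm⟩
  obtain ⟨S, hS⟩ : ∃ S : Finset ℕ, S = (S₀.filter (fun p : ℕ => ¬ (p : ℤ) ∣ x e₀)) \
    badP S₀ (2 * B) G U V := ⟨_, rfl⟩
  have hSp : ∀ p ∈ S, p.Prime ∧ p ≤ X ∧ d ∣ p - 1 ∧ ¬ (p : ℤ) ∣ x e₀ := by
    intro p hp
    rw [hS, mem_sdiff, mem_filter] at hp
    obtain ⟨a1, a2, a3⟩ := hS₀p p hp.1.1
    exact ⟨a1, a2, a3, hp.1.2⟩
  have hSb : ∀ p ∈ S, ∀ f : Fin (2 * B + 1) → ℤ, f ≠ 0 → (∀ i, |f i| ≤ G) →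
      ¬ (p : ℤ) ∣ ∑ i, f i * U ^ (i : ℕ) * V ^ (2 * B - (i : ℕ)) := by
    intro p hp f hf0 hfG hdvd
    rw [hS, mem_sdiff, mem_filter] at hp
    apply hp.2
    unfold badP
    rw [mem_filter]
    exact ⟨hp.1.1, f, hf0, hfG, hdvd⟩
  have hgne : g ≠ 0 := by
    rintro rfl
    rw [zero_mul] at h0
    exact hx0 h0
  have hVe : |(V : ℝ)| ≤ Real.exp ((M : ℝ) ^ (B - 1)) := by
    refine le_trans ?_ hxe₀
    rw [h0, Int.cast_mul, abs_mul]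
    have : (1 : ℝ) ≤ |(g : ℝ)| := by
      rw [← Int.cast_abs]
      exact_mod_cast Int.one_le_abs hgne
    exact le_mul_of_one_le_left (abs_nonneg _) this
  have hUe : |(U : ℝ)| ≤ Real.exp ((M : ℝ) ^ (B - 1)) := by
    refine le_trans ?_ hxe₁
    rw [h1, Int.cast_mul, abs_mul]
    have : (1 : ℝ) ≤ |(g : ℝ)| := by
      rw [← Int.cast_abs]
      exact_mod_cast Int.one_le_abs hgne
    exact le_mul_of_one_le_left (abs_nonneg _) this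
  have hGbig : (G : ℤ) < max |U| |V| := by
    have : (G : ℝ) < ((max |U| |V| : ℤ) : ℝ) := lt_of_le_of_lt hGle hbig
    exact_mod_cast this
  obtain ⟨L, hL⟩ : ∃ L : ℝ, L = (M : ℝ) ^ (B - 1) := ⟨_, rfl⟩
  have hL1 : 1 ≤ L := by rw [hL]; exact one_le_pow₀ hM1r
  rw [← hL] at hVe hUe hxe₀
  -- the exceptional primes
  have hb1 : ((S₀.filter (fun p : ℕ => (p : ℤ) ∣ x e₀)).card : ℝ) ≤ L / Real.log 2 := by
    refine card_primes_dvd _ (fun p hp => (hS₀p p (mem_filter.1 hp).1).1) (x e₀) hx0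
      (fun p hp => (mem_filter.1 hp).2) _ ?_
    have : 0 < |(x e₀ : ℝ)| := abs_pos.2 (by exact_mod_cast hx0)
    rw [Real.log_le_iff_le_exp this]
    exact hxe₀
  have hb2 := card_badP S₀ (fun p hp => (hS₀p p hp).1) (2 * B) G U V hUV hG1 hGbig L (by linarith)
    hUe hVe
  have hsplit : (S₀.card : ℝ) ≤ S.card + (S₀.filter (fun p : ℕ => (p : ℤ) ∣ x e₀)).card +
      (badP S₀ (2 * B) G U V).card := by
    have e1 : S₀.card = (S₀.filter (fun p : ℕ => (p : ℤ) ∣ x e₀)).card +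
        (S₀.filter (fun p : ℕ => ¬ (p : ℤ) ∣ x e₀)).card :=
      (card_filter_add_card_filter_not _).symm
    have e2 : (S₀.filter (fun p : ℕ => ¬ (p : ℤ) ∣ x e₀)).card ≤ S.card +
        (badP S₀ (2 * B) G U V).card := by
      rw [hS]
      have := le_card_sdiff (badP S₀ (2 * B) G U V) (S₀.filter (fun p : ℕ => ¬ (p : ℤ) ∣ x e₀))
      omega
    have e3 : S₀.card ≤ S.card + (S₀.filter (fun p : ℕ => (p : ℤ) ∣ x e₀)).card +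
      (badP S₀ (2 * B) G U V).card := by omega
    exact_mod_cast e3
  have hMhalf : (2 * (G : ℝ) + 1) ^ (2 * B + 1) ≤ 3 ^ (2 * B + 1) * (M : ℝ) ^ (1 / 2 : ℝ) := by
    have e1 : 2 * (G : ℝ) + 1 ≤ 3 * (M : ℝ) ^ γ := by linarith
    calc (2 * (G : ℝ) + 1) ^ (2 * B + 1) ≤ (3 * (M : ℝ) ^ γ) ^ (2 * B + 1) :=
          pow_le_pow_left₀ (by positivity) e1 _
      _ = 3 ^ (2 * B + 1) * (M : ℝ) ^ (γ * (2 * B + 1)) := by
          rw [mul_pow, ← Real.rpow_natCast ((M : ℝ) ^ γ), ← Real.rpow_mul hM0.le]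
          push_cast
          rfl
      _ ≤ 3 ^ (2 * B + 1) * (M : ℝ) ^ (1 / 2 : ℝ) := by
          refine mul_le_mul_of_nonneg_left ?_ (by positivity)
          exact Real.rpow_le_rpow_of_exponent_le hM1r hγB
  have hMh1 : 1 ≤ (M : ℝ) ^ (1 / 2 : ℝ) := Real.one_le_rpow hM1r (by norm_num)
  have hlogG : Real.log ((2 * (B : ℝ) + 1) * G) ≤ (Real.log (2 * B + 1) + 1) * (L * Real.log M) := by
    rw [Real.log_mul (by positivity) (by positivity)]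
    have e1 : Real.log G ≤ Real.log M := by
      refine Real.log_le_log (by linarith) (hGle.trans ?_)
      calc (M : ℝ) ^ γ ≤ (M : ℝ) ^ (1 : ℝ) := by
            refine Real.rpow_le_rpow_of_exponent_le hM1r ?_
            have : γ * 1 ≤ γ * (2 * B + 1) := mul_le_mul_of_nonneg_left (by linarith) hγ.le
            linarith
        _ = M := Real.rpow_one _
    exact aux3 hlogB hL1 hlM e1
  have hremoved : ((S₀.filter (fun p : ℕ => (p : ℤ) ∣ x e₀)).card : ℝ) +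
      (badP S₀ (2 * B) G U V).card ≤ C₂ * (M : ℝ) ^ (1 / 2 : ℝ) * (L * Real.log M) := by
    have e0 : L ≤ (M : ℝ) ^ (1 / 2 : ℝ) * (L * Real.log M) := aux2 hL1 hlM hMh1
    have e1 : ((badP S₀ (2 * B) G U V).card : ℝ) ≤ 3 ^ (2 * B + 1) * (M : ℝ) ^ (1 / 2 : ℝ) *
        (((Real.log (2 * B + 1) + 1 + 2 * B) * (L * Real.log M)) / Real.log 2) := by
      refine hb2.trans ?_
      push_cast
      refine mul_le_mul hMhalf ?_ (div_nonneg (add_nonneg (Real.log_nonneg ?_) (by positivity))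
        hl20.le) (by positivity)
      · exact div_le_div_of_nonneg_right (aux4 (by positivity) hL1 hlM hlogG) hl20.le
      · exact one_le_mul_of_one_le_of_one_le (by linarith) hGr1
    calc _ ≤ L / Real.log 2 + 3 ^ (2 * B + 1) * (M : ℝ) ^ (1 / 2 : ℝ) *
        (((Real.log (2 * B + 1) + 1 + 2 * B) * (L * Real.log M)) / Real.log 2) := add_le_add hb1 e1
      _ ≤ ((M : ℝ) ^ (1 / 2 : ℝ) * (L * Real.log M)) / Real.log 2 + 3 ^ (2 * B + 1) *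
        (M : ℝ) ^ (1 / 2 : ℝ) *
        (((Real.log (2 * B + 1) + 1 + 2 * B) * (L * Real.log M)) / Real.log 2) := by
          gcongr
      _ = C₂ * (M : ℝ) ^ (1 / 2 : ℝ) * (L * Real.log M) := by rw [hC₂]; ring
  have hlogX : Real.log X = B * Real.log M := by rw [hXr, Real.log_pow]
  rw [hXr] at hS₀c
  have hlogX' : Real.log ((M : ℝ) ^ B) = B * Real.log M := Real.log_pow _ _
  rw [hlogX'] at hS₀c
  have hML : (M : ℝ) ^ B = M * L := by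
    rw [hL, ← pow_succ']
    congr 1
    omega
  have hfinal : C₂ * (M : ℝ) ^ (1 / 2 : ℝ) * (L * Real.log M) ≤
      c₀ * (M : ℝ) ^ B / (B * Real.log M) / 2 := by
    have e1 : Real.log M ≤ 8 * (M : ℝ) ^ (1 / 8 : ℝ) := by
      have := Real.log_le_rpow_div hM0.le (by norm_num : (0 : ℝ) < 1 / 8)
      calc Real.log M ≤ (M : ℝ) ^ (1 / 8 : ℝ) / (1 / 8) := this
        _ = 8 * (M : ℝ) ^ (1 / 8 : ℝ) := by ring
    have e2 : Real.log M * Real.log M ≤ 64 * (M : ℝ) ^ (1 / 4 : ℝ) := by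
      have e3 : (M : ℝ) ^ (1 / 4 : ℝ) = (M : ℝ) ^ (1 / 8 : ℝ) * (M : ℝ) ^ (1 / 8 : ℝ) := by
        rw [← Real.rpow_add hM0]; norm_num
      rw [e3]
      exact aux5 hlM0.le e1
    have e4 : (M : ℝ) = (M : ℝ) ^ (1 / 2 : ℝ) * ((M : ℝ) ^ (1 / 4 : ℝ) * (M : ℝ) ^ (1 / 4 : ℝ)) := by
      rw [← Real.rpow_add hM0, ← Real.rpow_add hM0]
      norm_num
    have e5 : C₅ * (Real.log M * Real.log M) ≤ (M : ℝ) ^ (1 / 4 : ℝ) * (M : ℝ) ^ (1 / 4 : ℝ) := by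
      have hC₅0 : 0 ≤ C₅ := by rw [hC₅]; positivity
      calc C₅ * (Real.log M * Real.log M) ≤ C₅ * (64 * (M : ℝ) ^ (1 / 4 : ℝ)) :=
            mul_le_mul_of_nonneg_left e2 hC₅0
        _ = (64 * C₅) * (M : ℝ) ^ (1 / 4 : ℝ) := by ring
        _ ≤ (M : ℝ) ^ (1 / 4 : ℝ) * (M : ℝ) ^ (1 / 4 : ℝ) :=
            mul_le_mul_of_nonneg_right hy2 (by positivity)
    have e6 : C₂ = C₅ * c₀ / (2 * B) := by
      rw [hC₅]
      field_simp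
    rw [le_div_iff₀ (by norm_num), le_div_iff₀ (by positivity), hML, e6]
    have e7 : C₅ * c₀ / (2 * B) * (M : ℝ) ^ (1 / 2 : ℝ) * (L * Real.log M) * 2 * (B * Real.log M) =
        c₀ * L * (M : ℝ) ^ (1 / 2 : ℝ) * (C₅ * (Real.log M * Real.log M)) := by
      field_simp
    rw [e7]
    calc c₀ * L * (M : ℝ) ^ (1 / 2 : ℝ) * (C₅ * (Real.log M * Real.log M)) ≤
        c₀ * L * (M : ℝ) ^ (1 / 2 : ℝ) * ((M : ℝ) ^ (1 / 4 : ℝ) * (M : ℝ) ^ (1 / 4 : ℝ)) :=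
          mul_le_mul_of_nonneg_left e5 (by positivity)
      _ = c₀ * (((M : ℝ) ^ (1 / 2 : ℝ) * ((M : ℝ) ^ (1 / 4 : ℝ) * (M : ℝ) ^ (1 / 4 : ℝ))) * L) := by
          ring
      _ = c₀ * (M * L) := by rw [← e4]
  have hSc : c₀ * (M : ℝ) ^ B / (B * Real.log M) / 2 ≤ S.card := by linarith
  have hcore := large_core (σ := σ) (m := m) hd (2 * B) l hl1 hm H X G hXM hGb x e₀ e₁ hne g U V
    h0 h1 S hSp hSb T hT
  rw [hMr] at hcore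
  have hfin : (T.card : ℝ) * ((1 / (2 * (d : ℝ))) ^ 2 * (c₀ * (M : ℝ) ^ B / (B * Real.log M) / 2)) ≤
      10 ^ ((d - 1 + 1) * m + 1) * (M : ℝ) ^ Fintype.card (Idx σ m d) := by
    refine le_trans ?_ hcore
    exact mul_le_mul_of_nonneg_left (mul_le_mul_of_nonneg_left hSc (by positivity))
      (Nat.cast_nonneg _)
  have hpos : 0 < (1 / (2 * (d : ℝ))) ^ 2 * (c₀ * (M : ℝ) ^ B / (B * Real.log M) / 2) := by positivity
  rw [← le_div_iff₀ hpos] at hfin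
  refine hfin.trans (le_of_eq ?_)
  rw [hC]
  field_simp

end Pool.Agent.N120.EH
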