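import Mathlib
import Pool.Agent.N120.EH.LargeP
import Pool.Agent.H353R2.Z2

/-! Points of small height: a root divides the constant term. -/

set_option autoImplicit false

namespace Pool.Agent.N120.EH

open Finset

variable {σ : Type} [Fintype σ] [DecidableEq σ] {m d : ℕ}

/-- the number of the integers that divide `D` -/
theorem card_int_divisors (D : ℤ) (hD : D ≠ 0) (U : Finset ℤ) (hU : ∀ w ∈ U, w ∣ D) :
    U.card ≤ 2 * D.natAbs.divisors.card := by
  classical
  have h1 : U ⊆ (D.natAbs.divisors.image (fun n : ℕ => (n : ℤ))) ∪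
      (D.natAbs.divisors.image (fun n : ℕ => -(n : ℤ))) := by
    intro w hw
    have h2 : w.natAbs ∈ D.natAbs.divisors := by
      rw [Nat.mem_divisors]
      exact ⟨Int.natAbs_dvd_natAbs.2 (hU w hw), Int.natAbs_ne_zero.2 hD⟩
    rw [mem_union, mem_image, mem_image]
    rcases Int.natAbs_eq w with h | h
    · left; exact ⟨w.natAbs, h2, h.symm⟩
    · right; exact ⟨w.natAbs, h2, h.symm⟩
  refine (card_le_card h1).trans ((card_union_le _ _).trans ?_)
  have h2 := card_image_le (s := D.natAbs.divisors) (f := fun n : ℕ => (n : ℤ))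
  have h3 := card_image_le (s := D.natAbs.divisors) (f := fun n : ℕ => -(n : ℤ))
  omega

/-- the coefficient sums after changing one coordinate -/
theorem sum_update {ι : Type} [Fintype ι] [DecidableEq ι] (c' v : ι → ℤ) (j₀ : ι) (t : ℤ)
    (P : ι → Prop) [DecidablePred P] :
    (∑ j, if P j then Function.update c' j₀ t j * v j else 0) =
      (if P j₀ then t * v j₀ else 0) + ∑ j, if P j ∧ j ≠ j₀ then c' j * v j else 0 := by
  have h1 : ∀ j, (if P j then Function.update c' j₀ t j * v j else 0) =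
      (if j = j₀ then (if P j₀ then t * v j₀ else 0) else 0) +
        (if P j ∧ j ≠ j₀ then c' j * v j else 0) := by
    intro j
    by_cases hj : j = j₀
    · subst hj
      have h3 : ¬ (P j ∧ j ≠ j) := fun h => h.2 rfl
      rw [Function.update_self, if_pos rfl, if_neg h3, add_zero]
    · rw [Function.update_of_ne hj, if_neg hj, zero_add]
      by_cases h2 : P j
      · rw [if_pos h2, if_pos ⟨h2, hj⟩]
      · rw [if_neg h2, if_neg (fun h => h2 h.1)]
  rw [sum_congr rfl fun j _ => h1 j, sum_add_distrib, sum_ite_eq' univ j₀, if_pos (mem_univ _)]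

theorem small (hd : 2 ≤ d) (δ : ℝ) (hδ : 0 < δ) : ∃ C : ℝ, 0 < C ∧ ∀ (H : ℕ), 1 ≤ H →
    ∀ (Y : ℝ), 1 ≤ Y → ∀ (x : σ → ℤ), x ≠ 0 → (∀ e, |(x e : ℝ)| ≤ Y) →
    ∀ T : Finset (Idx σ m d → ℤ), (∀ c ∈ T, Good H x c) →
    (T.card : ℝ) ≤ (2 * (H : ℝ) + 1) ^ (Fintype.card (Idx σ m d) - 1) *
      (1 + C * ((Fintype.card (Idx σ m d) : ℝ) * ((2 * (H : ℝ) + 1) * Y ^ ((d - 1 + 1) * m))) ^ δ) := by
  classical
  obtain ⟨C, hC0, hC⟩ := H353.divisor_bound_real δ hδ
  refine ⟨2 * C, by positivity, ?_⟩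
  intro H hH Y hY x hx hxY T hT
  obtain ⟨e₀, he₀⟩ := Function.ne_iff.1 hx
  have he₀' : x e₀ ≠ 0 := he₀
  obtain ⟨J, hJ⟩ : ∃ J : ℕ, J = Fintype.card (Idx σ m d) := ⟨_, rfl⟩
  rw [← hJ]
  obtain ⟨Z, hZ⟩ : ∃ Z : ℝ, Z = (J : ℝ) * ((2 * (H : ℝ) + 1) * Y ^ ((d - 1 + 1) * m)) := ⟨_, rfl⟩
  rw [← hZ]
  obtain ⟨last, hlast⟩ : ∃ last : Fin d, last = ⟨d - 1, by omega⟩ := ⟨_, rfl⟩
  have hlast1 : last.1 = d - 1 := by rw [hlast]
  obtain ⟨j₀, hj₀1, hj₀2⟩ : ∃ j₀ : Idx σ m d, j₀.1 = last ∧ vec x j₀ ≠ 0 := by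
    refine ⟨powIdx m d (by omega) e₀, by rw [hlast]; rfl, ?_⟩
    rw [vec_powIdx]
    exact pow_ne_zero _ he₀'
  obtain ⟨j₁, hj₁1, hj₁2⟩ : ∃ j₁ : Idx σ m d, j₁.1.1 = d - 2 ∧ vec x j₁ ≠ 0 := by
    refine ⟨⟨⟨d - 2, by omega⟩, Sym.replicate ((d - 2 + 1) * m) e₀⟩, rfl, ?_⟩
    unfold vec
    simp only [Sym.coe_replicate]
    rw [Multiset.map_replicate, Multiset.prod_replicate]
    exact pow_ne_zero _ he₀'
  have hj₁last : j₁.1 ≠ last := by
    intro h
    have := congrArg Fin.val h
    rw [hj₁1, hlast1] at this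
    omega
  obtain ⟨D, hD⟩ : ∃ D : (Idx σ m d → ℤ) → ℤ, ∀ c, D c =
    ∑ j : Idx σ m d, if j.1 = last then c j * vec x j else 0 := ⟨_, fun c => rfl⟩
  have hsplit : T.card = (T.filter (fun c => D c = 0)).card + (T.filter (fun c => ¬ D c = 0)).card :=
    (card_filter_add_card_filter_not _).symm
  have h0 : ((T.filter (fun c => D c = 0)).card : ℝ) ≤ (2 * (H : ℝ) + 1) ^ (J - 1) * 1 := by
    rw [hJ]
    refine card_le_fibre H j₀ _ (fun c hc => (hT c (mem_filter.1 hc).1).1) 1 ?_
    intro c' U hU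
    have h1 : U.card ≤ 1 := by
      rw [card_le_one]
      intro t ht t' ht'
      have e1 := (mem_filter.1 (hU t ht)).2
      have e2 := (mem_filter.1 (hU t' ht')).2
      rw [hD, sum_update c' (vec x) j₀ t (fun j => j.1 = last), if_pos hj₀1] at e1
      rw [hD, sum_update c' (vec x) j₀ t' (fun j => j.1 = last), if_pos hj₀1] at e2
      have e3 : (t - t') * vec x j₀ = 0 := by linear_combination e1 - e2
      have := (mul_eq_zero.1 e3).resolve_right hj₀2
      omega
    exact_mod_cast h1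
  have h1 : ((T.filter (fun c => ¬ D c = 0)).card : ℝ) ≤
      (2 * (H : ℝ) + 1) ^ (J - 1) * (2 * C * Z ^ δ) := by
    rw [hJ]
    have hZ0 : 0 ≤ Z := by rw [hZ]; positivity
    refine card_le_fibre H j₁ _ (fun c hc => (hT c (mem_filter.1 hc).1).1) _ ?_
    intro c' U hU
    rcases Finset.eq_empty_or_nonempty U with hUe | ⟨t₀, ht₀⟩
    · subst hUe
      rw [card_empty, Nat.cast_zero]
      positivity
    -- the constant term does not depend on `t`
    have hDt : ∀ t, D (Function.update c' j₁ t) = D (Function.update c' j₁ t₀) := by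
      intro t
      rw [hD, hD, sum_update c' (vec x) j₁ t (fun j => j.1 = last), if_neg hj₁last,
        sum_update c' (vec x) j₁ t₀ (fun j => j.1 = last), if_neg hj₁last]
    obtain ⟨D₀, hD₀⟩ : ∃ D₀ : ℤ, D₀ = D (Function.update c' j₁ t₀) := ⟨_, rfl⟩
    have hD₀0 : D₀ ≠ 0 := by
      rw [hD₀]
      exact (mem_filter.1 (hU t₀ ht₀)).2
    -- choose a root
    have hroot : ∀ t : ℤ, ∃ w : ℤ, t ∈ U → w ^ d + ∑ i : Fin d,
        (∑ j : Idx σ m d, if j.1 = i then Function.update c' j₁ t j * vec x j else 0) *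
          w ^ (d - 1 - i.1) = 0 := by
      intro t
      by_cases ht : t ∈ U
      · obtain ⟨w, hw⟩ := (hT _ (mem_filter.1 (hU t ht)).1).2
        exact ⟨w, fun _ => hw⟩
      · exact ⟨0, fun h => absurd h ht⟩
    choose w hw using hroot
    have hwD : ∀ t ∈ U, w t ∣ D₀ := by
      intro t ht
      have e1 := hw t ht
      rw [← add_sum_erase _ _ (mem_univ last), hlast1, Nat.sub_self, pow_zero, mul_one, ← hD,
        hDt, ← hD₀] at e1
      have e2 : w t ∣ w t ^ d := dvd_pow_self _ (by omega)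
      have e3 : w t ∣ ∑ i ∈ univ.erase last,
          (∑ j : Idx σ m d, if j.1 = i then Function.update c' j₁ t j * vec x j else 0) *
          w t ^ (d - 1 - i.1) := by
        refine dvd_sum fun i hi => ?_
        have hi2 : i.1 ≠ d - 1 := fun h => ne_of_mem_erase hi (Fin.ext (by rw [h, hlast1]))
        have := i.2
        exact (dvd_pow_self _ (by omega)).mul_left _
      have e4 : D₀ = -(w t ^ d + ∑ i ∈ univ.erase last,
          (∑ j : Idx σ m d, if j.1 = i then Function.update c' j₁ t j * vec x j else 0) *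
          w t ^ (d - 1 - i.1)) := by linear_combination e1
      rw [e4]
      exact (dvd_add e2 e3).neg_right
    have hwinj : Set.InjOn w U := by
      intro t ht t' ht' he
      have e1 := hw t ht
      have e2 := hw t' ht'
      rw [← he] at e2
      have hw0 : w t ≠ 0 := by
        intro h
        have := hwD t ht
        rw [h, zero_dvd_iff] at this
        exact hD₀0 this
      have e3 : ∀ t, ∀ i, (∑ j : Idx σ m d, if j.1 = i then Function.update c' j₁ t j * vec x j else 0) =
          (if j₁.1 = i then t * vec x j₁ else 0) +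
            ∑ j : Idx σ m d, if j.1 = i ∧ j ≠ j₁ then c' j * vec x j else 0 := fun t i =>
        sum_update c' (vec x) j₁ t (fun j => j.1 = i)
      simp only [e3, add_mul, sum_add_distrib, ite_mul, zero_mul] at e1 e2
      rw [sum_ite_eq univ j₁.1, if_pos (mem_univ _)] at e1 e2
      have e4 : (t - t') * (vec x j₁ * w t ^ (d - 1 - j₁.1.1)) = 0 := by
        linear_combination e1 - e2
      have e5 := (mul_eq_zero.1 e4).resolve_right (mul_ne_zero hj₁2 (pow_ne_zero _ hw0))
      omega
    have hUc : U.card ≤ 2 * D₀.natAbs.divisors.card := by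
      rw [← card_image_of_injOn hwinj]
      refine card_int_divisors D₀ hD₀0 _ fun z hz => ?_
      obtain ⟨t, ht, rfl⟩ := mem_image.1 hz
      exact hwD t ht
    have hDZ : (D₀.natAbs : ℝ) ≤ Z := by
      have e1 : |(D₀ : ℝ)| ≤ Z := by
        rw [hD₀, hD]
        push_cast
        refine (abs_sum_le_sum_abs _ _).trans ?_
        rw [hZ, hJ]
        refine (sum_le_card_nsmul _ _ ((2 * (H : ℝ) + 1) * Y ^ ((d - 1 + 1) * m))
          fun j _ => ?_).trans (le_of_eq ?_)
        · split_ifs with hj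
          · rw [abs_mul]
            have e2 : |((Function.update c' j₁ t₀ j : ℤ) : ℝ)| ≤ 2 * (H : ℝ) + 1 := by
              have e3 := (hT _ (mem_filter.1 (hU t₀ ht₀)).1).1 j
              have e4 : ((|Function.update c' j₁ t₀ j| : ℤ) : ℝ) ≤ ((H : ℤ) : ℝ) := by exact_mod_cast e3
              rw [Int.cast_abs, Int.cast_natCast] at e4
              linarith [(Nat.cast_nonneg H : (0 : ℝ) ≤ H)]
            have e5 : |(vec x j : ℝ)| ≤ Y ^ ((d - 1 + 1) * m) := by
              have e6 : ∀ s : Multiset σ, |(((s.map x).prod : ℤ) : ℝ)| ≤ Y ^ s.card := by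
                intro s
                induction s using Multiset.induction_on with
                | empty => simp
                | cons a s ih =>
                  rw [Multiset.map_cons, Multiset.prod_cons, Int.cast_mul, abs_mul,
                    Multiset.card_cons, pow_succ']
                  exact mul_le_mul (hxY a) ih (abs_nonneg _) (by linarith)
              have e7 := e6 (j.2 : Multiset σ)
              rw [Sym.card_coe] at e7
              unfold vec
              refine e7.trans (le_of_eq ?_)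
              rw [hj, hlast1]
            exact mul_le_mul e2 e5 (abs_nonneg _) (by positivity)
          · rw [abs_zero]
            positivity
        · rw [card_univ, nsmul_eq_mul]
      rw [Nat.cast_natAbs]
      push_cast
      exact e1
    have h2 := hC D₀.natAbs (Int.natAbs_ne_zero.2 hD₀0)
    have h3 : ((D₀.natAbs : ℕ) : ℝ) ^ δ ≤ Z ^ δ :=
      Real.rpow_le_rpow (Nat.cast_nonneg _) hDZ hδ.le
    calc (U.card : ℝ) ≤ 2 * (D₀.natAbs.divisors.card : ℝ) := by exact_mod_cast hUc
      _ ≤ 2 * (C * Z ^ δ) := by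
          refine mul_le_mul_of_nonneg_left (h2.trans ?_) (by norm_num)
          exact mul_le_mul_of_nonneg_left h3 hC0.le
      _ = 2 * C * Z ^ δ := by ring
  have h2 : (T.card : ℝ) = ((T.filter (fun c => D c = 0)).card : ℝ) +
      ((T.filter (fun c => ¬ D c = 0)).card : ℝ) := by exact_mod_cast hsplit
  rw [h2]
  calc _ ≤ (2 * (H : ℝ) + 1) ^ (J - 1) * 1 + (2 * (H : ℝ) + 1) ^ (J - 1) * (2 * C * Z ^ δ) :=
        add_le_add h0 h1
    _ = (2 * (H : ℝ) + 1) ^ (J - 1) * (1 + 2 * C * Z ^ δ) := by ring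

end Pool.Agent.N120.EH
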