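import Mathlib
import Pool.Agent.N120.EH.Small

/-! The two counting theorems for arbitrary finite sets of points of projective space. -/

set_option autoImplicit false

namespace Pool.Agent.N120.EH

open Finset

variable {σ : Type} [Fintype σ] [DecidableEq σ]

/-- a primitive vector is small or some ratio of its coordinates has large height -/
theorem small_or_large (y : σ → ℤ) (hgcd : univ.gcd y = 1) (Y : ℝ) (hY : 1 ≤ Y) :
    (∀ e, |(y e : ℝ)| ≤ Y ^ Fintype.card σ) ∨ ∃ (e₀ e₁ : σ) (g U V : ℤ), e₀ ≠ e₁ ∧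
      y e₀ = g * V ∧ y e₁ = g * U ∧ IsCoprime U V ∧ y e₀ ≠ 0 ∧ Y < ((max |U| |V| : ℤ) : ℝ) := by
  classical
  have hne : ∃ e₀, y e₀ ≠ 0 := by
    by_contra hcon
    push Not at hcon
    have : univ.gcd y = 0 := Finset.gcd_eq_zero_iff.2 fun e _ => hcon e
    rw [this] at hgcd
    exact zero_ne_one hgcd
  obtain ⟨e₀, he₀⟩ := hne
  by_cases hlarge : ∃ (e₁ : σ) (g U V : ℤ), e₀ ≠ e₁ ∧ y e₀ = g * V ∧ y e₁ = g * U ∧
      IsCoprime U V ∧ Y < ((max |U| |V| : ℤ) : ℝ)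
  · right
    obtain ⟨e₁, g, U, V, h1, h2, h3, h4, h5⟩ := hlarge
    exact ⟨e₀, e₁, g, U, V, h1, h2, h3, h4, he₀, h5⟩
  · left
    have hUV : ∀ e, ∃ U V : ℤ, V ≠ 0 ∧ y e * V = U * y e₀ ∧ |(U : ℝ)| ≤ Y ∧ |(V : ℝ)| ≤ Y := by
      intro e
      by_cases hee : e₀ = e
      · refine ⟨1, 1, one_ne_zero, by rw [hee]; ring, ?_, ?_⟩ <;> simpa using hY
      · have hg : 0 < Int.gcd (y e) (y e₀) := Int.gcd_pos_of_ne_zero_right _ he₀
        obtain ⟨U, V, h1, h2, h3⟩ := Int.exists_gcd_one hg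
        have hcop : IsCoprime U V := Int.isCoprime_iff_gcd_eq_one.2 h1
        have h4 : ¬ Y < ((max |U| |V| : ℤ) : ℝ) := fun h => hlarge
          ⟨e, Int.gcd (y e) (y e₀), U, V, hee, by rw [mul_comm]; exact h3, by rw [mul_comm]; exact h2,
            hcop, h⟩
        rw [not_lt, Int.cast_max, max_le_iff, Int.cast_abs, Int.cast_abs] at h4
        refine ⟨U, V, ?_, ?_, h4.1, h4.2⟩
        · rintro rfl
          rw [zero_mul] at h3
          exact he₀ h3
        · calc y e * V = U * (Int.gcd (y e) (y e₀) : ℤ) * V := by rw [← h2]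
            _ = U * (V * (Int.gcd (y e) (y e₀) : ℤ)) := by ring
            _ = U * y e₀ := by rw [← h3]
    choose U V hV0 hUVe hU hV using hUV
    obtain ⟨W, hW⟩ : ∃ W : ℤ, W = ∏ e ∈ univ.erase e₀, V e := ⟨_, rfl⟩
    have hW0 : W ≠ 0 := by
      rw [hW]
      exact prod_ne_zero_iff.2 fun e _ => hV0 e
    have hdvd : ∀ e, y e₀ ∣ y e * W := by
      intro e
      by_cases hee : e = e₀
      · rw [hee]; exact Dvd.intro _ rfl
      · have h1 : W = V e * ∏ e' ∈ (univ.erase e₀).erase e, V e' := by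
          rw [hW, mul_prod_erase _ _ (mem_erase.2 ⟨hee, mem_univ _⟩)]
        rw [h1, ← mul_assoc, hUVe]
        exact ⟨U e * ∏ e' ∈ (univ.erase e₀).erase e, V e', by ring⟩
    have h1 : y e₀ ∣ W := by
      have h2 : y e₀ ∣ univ.gcd (fun e => y e * W) := Finset.dvd_gcd fun e _ => hdvd e
      rw [Finset.gcd_mul_right, hgcd, one_mul] at h2
      exact (dvd_normalize_iff).1 h2
    have hWY : |(W : ℝ)| ≤ Y ^ (Fintype.card σ - 1) := by
      rw [hW]
      push_cast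
      rw [abs_prod]
      refine (prod_le_prod (fun _ _ => abs_nonneg _) fun e _ => hV e).trans (le_of_eq ?_)
      rw [prod_const, card_erase_of_mem (mem_univ _), card_univ]
    have h2 : |(y e₀ : ℝ)| ≤ Y ^ (Fintype.card σ - 1) := by
      refine le_trans ?_ hWY
      have h3 := Int.le_of_dvd (abs_pos.2 hW0) ((abs_dvd_abs _ _).2 h1)
      rw [← Int.cast_abs, ← Int.cast_abs]
      exact_mod_cast h3
    have hs : 0 < Fintype.card σ := Fintype.card_pos_iff.2 ⟨e₀⟩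
    intro e
    have h3 : |(y e : ℝ)| * |(V e : ℝ)| = |(U e : ℝ)| * |(y e₀ : ℝ)| := by
      rw [← abs_mul, ← abs_mul]
      congr 1
      exact_mod_cast hUVe e
    have h4 : (1 : ℝ) ≤ |(V e : ℝ)| := by
      rw [← Int.cast_abs]
      exact_mod_cast Int.one_le_abs (hV0 e)
    calc |(y e : ℝ)| ≤ |(y e : ℝ)| * |(V e : ℝ)| := le_mul_of_one_le_right (abs_nonneg _) h4
      _ = |(U e : ℝ)| * |(y e₀ : ℝ)| := h3
      _ ≤ Y * Y ^ (Fintype.card σ - 1) := mul_le_mul (hU e) h2 (abs_nonneg _) (by linarith)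
      _ = Y ^ Fintype.card σ := by
          rw [← pow_succ']
          congr 1
          omega

/-- passage to a primitive vector -/
theorem good_of_pointOver {m d : ℕ} (H : ℕ) (x y : σ → ℤ) (g : ℤ) (hg : g ≠ 0)
    (hxy : ∀ e, x e = g * y e) (c : Idx σ m d → ℤ) (hc : ∀ j, |c j| ≤ H)
    (h : PointOver c (fun e => (x e : ℚ))) : Good H y c := by
  refine ⟨hc, int_root_of_pointOver c y ?_⟩
  refine pointOver_scale c (g : ℚ) (by exact_mod_cast hg) _ ?_
  have h1 : (fun e => (g : ℚ) * (y e : ℚ)) = fun e => (x e : ℚ) := by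
    funext e
    rw [hxy e]
    push_cast
    rfl
  rw [h1]
  exact h

/-- arbitrary sets of points, every `m` -/
theorem main_a (σ : Type) [Fintype σ] [DecidableEq σ] (m d : ℕ) (hm : 1 ≤ m) (hd : 2 ≤ d) :
    ∃ C : ℝ, 0 < C ∧ ∀ H : ℕ, 2 ≤ H → ∀ Q : Finset (σ → ℤ), (∀ x ∈ Q, x ≠ 0) →
    ∀ T : Finset (Idx σ m d → ℤ), (∀ c ∈ T, (∀ j, |c j| ≤ H) ∧
      ∃ x ∈ Q, PointOver c (fun e => (x e : ℚ))) →
    (T.card : ℝ) ≤ C * Q.card * (2 * (H : ℝ) + 1) ^ (Fintype.card (Idx σ m d) - 1) *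
      (Real.sqrt H * Real.log H) := by
  classical
  rcases isEmpty_or_nonempty σ with hσ | hσ
  · refine ⟨1, one_pos, fun H hH Q hQ T hT => ?_⟩
    have : T = ∅ := by
      rw [eq_empty_iff_forall_notMem]
      intro c hc
      obtain ⟨x, hx, -⟩ := (hT c hc).2
      exact hQ x hx (funext fun e => (hσ.false e).elim)
    rw [this, card_empty, Nat.cast_zero]
    have : 0 ≤ Real.log H := Real.log_natCast_nonneg H
    positivity
  · obtain ⟨e₀⟩ := hσ
    have hJ : 1 ≤ Fintype.card (Idx σ m d) := Fintype.card_pos_iff.2 ⟨powIdx m d (by omega) e₀⟩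
    obtain ⟨C, hC0, hC⟩ := sieveD d hd (Fintype.card (Idx σ m d)) hJ
    refine ⟨C, hC0, fun H hH Q hQ T hT => ?_⟩
    have hprim : ∀ x : σ → ℤ, ∃ y : σ → ℤ, x ≠ 0 → (∃ g : ℤ, g ≠ 0 ∧ ∀ e, x e = g * y e) ∧
        (∀ p : ℕ, p.Prime → ∃ e, ¬ (p : ℤ) ∣ y e) := by
      intro x
      by_cases hx : x = 0
      · exact ⟨0, fun h => absurd hx h⟩
      · obtain ⟨g, y, h1, h2, h3, -, -⟩ := exists_primitive x hx
        exact ⟨y, fun _ => ⟨⟨g, h1, h2⟩, h3⟩⟩
    choose y hy using hprim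
    have hsub : T ⊆ Q.biUnion (fun x => T.filter (fun c => Good H (y x) c)) := by
      intro c hc
      obtain ⟨h1, x, hx, h2⟩ := hT c hc
      obtain ⟨⟨g, hg, hxy⟩, -⟩ := hy x (hQ x hx)
      rw [mem_biUnion]
      exact ⟨x, hx, mem_filter.2 ⟨hc, good_of_pointOver H x (y x) g hg hxy c h1 h2⟩⟩
    have h1 : (T.card : ℝ) ≤ ∑ x ∈ Q, ((T.filter (fun c => Good H (y x) c)).card : ℝ) := by
      exact_mod_cast (card_le_card hsub).trans card_biUnion_le
    refine h1.trans ((sum_le_card_nsmul _ _ (C * (2 * (H : ℝ) + 1) ^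
      (Fintype.card (Idx σ m d) - 1) * (Real.sqrt H * Real.log H)) fun x hx => ?_).trans
      (le_of_eq ?_))
    · obtain ⟨-, h3⟩ := hy x (hQ x hx)
      refine hC (Idx σ m d) rfl (fun j => j.1) (vec (y x)) (fun p hp => ?_) H hH _ (fun c hc => ?_)
      · obtain ⟨e, he⟩ := h3 p hp
        refine ⟨powIdx m d (by omega) e, rfl, ?_⟩
        rw [vec_powIdx]
        exact fun h => he ((Nat.prime_iff_prime_int.1 hp).dvd_of_dvd_pow h)
      · exact (mem_filter.1 hc).2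
    · rw [nsmul_eq_mul]
      ring

/-- arbitrary sets of points of height at most `exp (H ^ A)`, large `m` -/
theorem main_b (σ : Type) [Fintype σ] [DecidableEq σ] (d : ℕ) (hd : 2 ≤ d) (A ε : ℝ)
    (hε : 0 < ε) : ∃ m₀ : ℕ, ∀ m : ℕ, m₀ ≤ m → ∃ C : ℝ, 0 < C ∧ ∀ H : ℕ, 1 ≤ H →
    ∀ Q : Finset (σ → ℤ), (Q.card : ℝ) ≤ (H : ℝ) ^ A →
    (∀ x ∈ Q, x ≠ 0 ∧ ∀ e, |(x e : ℝ)| ≤ Real.exp ((H : ℝ) ^ A)) →
    ∀ T : Finset (Idx σ m d → ℤ), (∀ c ∈ T, (∀ j, |c j| ≤ H) ∧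
      ∃ x ∈ Q, PointOver c (fun e => (x e : ℚ))) →
    (T.card : ℝ) ≤ C * (H : ℝ) ^ ((Fintype.card (Idx σ m d) : ℝ) - 1 + ε) := by
  classical
  obtain ⟨a, ha⟩ : ∃ a : ℕ, a = ⌈A⌉₊ := ⟨_, rfl⟩
  have hAa : A ≤ a := by rw [ha]; exact Nat.le_ceil A
  obtain ⟨B, hB⟩ : ∃ B : ℕ, B = a + 2 := ⟨_, rfl⟩
  obtain ⟨s, hs⟩ : ∃ s : ℕ, s = Fintype.card σ := ⟨_, rfl⟩
  obtain ⟨γ, hγ⟩ : ∃ γ : ℝ, γ = min ((1 : ℝ) / (2 * (2 * (B : ℝ) + 1)))
      (ε / (2 * ((s : ℝ) ^ 2 + 1))) := ⟨_, rfl⟩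
  have hγ0 : 0 < γ := by rw [hγ]; exact lt_min (by positivity) (by positivity)
  have hγB : γ * (2 * B + 1) ≤ 1 / 2 := by
    have h1 : γ ≤ 1 / (2 * (2 * B + 1)) := by rw [hγ]; exact min_le_left _ _
    have h2 : (0 : ℝ) < 2 * B + 1 := by positivity
    calc γ * (2 * B + 1) ≤ 1 / (2 * (2 * B + 1)) * (2 * B + 1) :=
          mul_le_mul_of_nonneg_right h1 h2.le
      _ = 1 / 2 := by field_simp
  have hγs : γ * (s : ℝ) ^ 2 ≤ ε / 2 := by
    have h1 : γ ≤ ε / (2 * ((s : ℝ) ^ 2 + 1)) := by rw [hγ]; exact min_le_right _ _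
    calc γ * (s : ℝ) ^ 2 ≤ ε / (2 * ((s : ℝ) ^ 2 + 1)) * (s : ℝ) ^ 2 :=
          mul_le_mul_of_nonneg_right h1 (by positivity)
      _ ≤ ε / (2 * ((s : ℝ) ^ 2 + 1)) * ((s : ℝ) ^ 2 + 1) :=
          mul_le_mul_of_nonneg_left (by linarith) (by positivity)
      _ = ε / 2 := by field_simp
  obtain ⟨n₀, hn₀⟩ := large_param d hd B (by omega) γ hγ0 hγB
  refine ⟨n₀, fun m hm => ?_⟩
  obtain ⟨C₁, hC₁0, M₀, hC₁⟩ := hn₀ σ m (hm.trans (Nat.le_mul_of_pos_left m (by omega)))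
  obtain ⟨n, hn⟩ : ∃ n : ℕ, n = (d - 1 + 1) * m := ⟨_, rfl⟩
  obtain ⟨δ, hδ⟩ : ∃ δ : ℝ, δ = ε / (2 * (1 + γ * s * n)) := ⟨_, rfl⟩
  have hδ0 : 0 < δ := by rw [hδ]; positivity
  have hδe : (1 + γ * s * n) * δ = ε / 2 := by
    rw [hδ]
    have : 0 < 1 + γ * s * n := by positivity
    field_simp
  obtain ⟨C₂, hC₂0, hC₂⟩ := small (σ := σ) (m := m) hd δ hδ0
  obtain ⟨J, hJ⟩ : ∃ J : ℕ, J = Fintype.card (Idx σ m d) := ⟨_, rfl⟩
  rw [← hJ] at hC₁ hC₂ ⊢
  obtain ⟨C₃, hC₃⟩ : ∃ C₃ : ℝ, C₃ = C₁ + 3 ^ s * (1 + C₂ * (J : ℝ) ^ δ) := ⟨_, rfl⟩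
  have hC₃0 : 0 < C₃ := by rw [hC₃]; positivity
  obtain ⟨C, hC⟩ : ∃ C : ℝ, C = C₃ * 3 ^ ((J : ℝ) - 1 + ε) + (M₀ : ℝ) ^ J := ⟨_, rfl⟩
  have h3p : (0 : ℝ) < 3 ^ ((J : ℝ) - 1 + ε) := Real.rpow_pos_of_pos (by norm_num) _
  refine ⟨C, by rw [hC]; positivity, ?_⟩
  intro H hH Q hQc hQ T hT
  rcases Finset.eq_empty_or_nonempty T with hTe | ⟨c₀, hc₀⟩
  · subst hTe
    rw [card_empty, Nat.cast_zero, hC]
    positivity
  have hJ1 : 1 ≤ J := by
    obtain ⟨x, hx, -⟩ := (hT c₀ hc₀).2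
    obtain ⟨e, -⟩ := Function.ne_iff.1 (hQ x hx).1
    rw [hJ]
    exact Fintype.card_pos_iff.2 ⟨powIdx m d (by omega) e⟩
  have hJ1r : (1 : ℝ) ≤ J := by exact_mod_cast hJ1
  have hHr : (1 : ℝ) ≤ H := by exact_mod_cast hH
  have hexp : 0 ≤ (J : ℝ) - 1 + ε := by linarith
  have hH1 : 1 ≤ (H : ℝ) ^ ((J : ℝ) - 1 + ε) := Real.one_le_rpow hHr hexp
  rcases lt_or_ge (2 * H + 1) M₀ with hsm | hbig
  · -- small `H`
    have h1 : T.card ≤ (2 * H + 1) ^ J := by
      have h2 : T ⊆ Fintype.piFinset (fun _ => Icc (-(H : ℤ)) H) := by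
        intro c hc
        rw [Fintype.mem_piFinset]
        intro j
        rw [mem_Icc]
        exact abs_le.1 ((hT c hc).1 j)
      have h3 := card_le_card h2
      rw [Fintype.card_piFinset, prod_const, Int.card_Icc, card_univ, ← hJ] at h3
      have h4 : ((H : ℤ) + 1 - -(H : ℤ)).toNat = 2 * H + 1 := by omega
      rwa [h4] at h3
    have h2 : T.card ≤ M₀ ^ J := h1.trans (Nat.pow_le_pow_left hsm.le J)
    calc (T.card : ℝ) ≤ (M₀ : ℝ) ^ J := by exact_mod_cast h2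
      _ ≤ C := by
          rw [hC]
          have : 0 ≤ C₃ * 3 ^ ((J : ℝ) - 1 + ε) := by positivity
          linarith
      _ = C * 1 := (mul_one _).symm
      _ ≤ C * (H : ℝ) ^ ((J : ℝ) - 1 + ε) := by
          refine mul_le_mul_of_nonneg_left hH1 ?_
          rw [hC]; positivity
  · obtain ⟨M, hM⟩ : ∃ M : ℝ, M = 2 * (H : ℝ) + 1 := ⟨_, rfl⟩
    have hM3 : 3 ≤ M := by rw [hM]; linarith
    have hM1 : 1 ≤ M := by linarith
    have hM0 : 0 < M := by linarith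
    have hHM : (H : ℝ) ≤ M := by rw [hM]; linarith
    have hHA : (H : ℝ) ^ A ≤ M ^ a := by
      calc (H : ℝ) ^ A ≤ (H : ℝ) ^ (a : ℝ) := Real.rpow_le_rpow_of_exponent_le hHr hAa
        _ = (H : ℝ) ^ a := Real.rpow_natCast _ _
        _ ≤ M ^ a := pow_le_pow_left₀ (by linarith) hHM _
    have hHAB : (H : ℝ) ^ A ≤ M ^ (B - 1) := by
      refine hHA.trans (pow_le_pow_right₀ hM1 ?_)
      rw [hB]; omega
    obtain ⟨Y, hY⟩ : ∃ Y : ℝ, Y = M ^ γ := ⟨_, rfl⟩
    have hY1 : 1 ≤ Y := by rw [hY]; exact Real.one_le_rpow hM1 hγ0.le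
    have hprim : ∀ x : σ → ℤ, ∃ y : σ → ℤ, x ≠ 0 → (∃ g : ℤ, g ≠ 0 ∧ ∀ e, x e = g * y e) ∧
        (∀ e, |y e| ≤ |x e|) ∧ univ.gcd y = 1 := by
      intro x
      by_cases hx : x = 0
      · exact ⟨0, fun h => absurd hx h⟩
      · obtain ⟨g, y, h1, h2, -, h3, h4⟩ := exists_primitive x hx
        exact ⟨y, fun _ => ⟨⟨g, h1, h2⟩, h3, h4⟩⟩
    choose y hy using hprim
    -- the large points
    obtain ⟨QL, hQL⟩ : ∃ QL : Finset (σ → ℤ), QL = Q.filter (fun x => ∃ (e₀ e₁ : σ) (g U V : ℤ),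
      e₀ ≠ e₁ ∧ y x e₀ = g * V ∧ y x e₁ = g * U ∧ IsCoprime U V ∧ y x e₀ ≠ 0 ∧
        Y < ((max |U| |V| : ℤ) : ℝ)) := ⟨_, rfl⟩
    -- the small points
    obtain ⟨L, hL⟩ : ∃ L : ℤ, L = ⌊Y ^ s⌋ := ⟨_, rfl⟩
    obtain ⟨QS, hQS⟩ : ∃ QS : Finset (σ → ℤ), QS = (Fintype.piFinset
      (fun _ : σ => Icc (-L) L)).filter (fun z => z ≠ 0) := ⟨_, rfl⟩
    have hYs1 : 1 ≤ Y ^ s := one_le_pow₀ hY1
    have hL1 : 1 ≤ L := by rw [hL]; exact Int.le_floor.2 (by exact_mod_cast hYs1)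
    have hLY : (L : ℝ) ≤ Y ^ s := by rw [hL]; exact Int.floor_le _
    have hsub : T ⊆ (QL.biUnion (fun x => T.filter (fun c => Good H (y x) c))) ∪
        (QS.biUnion (fun z => T.filter (fun c => Good H z c))) := by
      intro c hc
      obtain ⟨h1, x, hx, h2⟩ := hT c hc
      obtain ⟨⟨g, hg, hxy⟩, h3, h4⟩ := hy x (hQ x hx).1
      have h5 := good_of_pointOver H x (y x) g hg hxy c h1 h2
      rw [mem_union]
      rcases small_or_large (y x) h4 Y hY1 with h6 | h6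
      · right
        rw [mem_biUnion]
        refine ⟨y x, ?_, mem_filter.2 ⟨hc, h5⟩⟩
        rw [hQS, mem_filter, Fintype.mem_piFinset]
        refine ⟨fun e => ?_, ?_⟩
        · have h7 := h6 e
          rw [← hs, ← Int.cast_abs] at h7
          have h8 : |y x e| ≤ L := by rw [hL]; exact Int.le_floor.2 h7
          exact mem_Icc.2 (abs_le.1 h8)
        · intro h7
          rw [h7] at h4
          have h8 : univ.gcd (0 : σ → ℤ) = 0 := Finset.gcd_eq_zero_iff.2 fun e _ => rfl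
          rw [h8] at h4
          exact zero_ne_one h4
      · left
        rw [mem_biUnion]
        refine ⟨x, ?_, mem_filter.2 ⟨hc, h5⟩⟩
        rw [hQL, mem_filter]
        exact ⟨hx, h6⟩
    have hcard : (T.card : ℝ) ≤ ∑ x ∈ QL, ((T.filter (fun c => Good H (y x) c)).card : ℝ) +
        ∑ z ∈ QS, ((T.filter (fun c => Good H z c)).card : ℝ) := by
      have h1 := (card_le_card hsub).trans ((card_union_le _ _).trans
        (add_le_add card_biUnion_le card_biUnion_le))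
      exact_mod_cast h1
    have hlarge : ∑ x ∈ QL, ((T.filter (fun c => Good H (y x) c)).card : ℝ) ≤
        C₁ * M ^ (J - 1) := by
      have h1 : ∀ x ∈ QL, ((T.filter (fun c => Good H (y x) c)).card : ℝ) ≤
          C₁ * M ^ J * (Real.log M / M ^ B) := by
        intro x hx
        rw [hQL, mem_filter] at hx
        obtain ⟨hxQ, e₀, e₁, g, U, V, h2, h3, h4, h5, h6, h7⟩ := hx
        obtain ⟨-, h8, -⟩ := hy x (hQ x hxQ).1
        have h9 : ∀ e, |(y x e : ℝ)| ≤ Real.exp (M ^ (B - 1)) := by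
          intro e
          have h10 : |(y x e : ℝ)| ≤ |(x e : ℝ)| := by
            rw [← Int.cast_abs, ← Int.cast_abs]
            exact_mod_cast h8 e
          exact h10.trans (((hQ x hxQ).2 e).trans (Real.exp_le_exp.2 hHAB))
        rw [hY] at h7
        rw [hM] at h7 h9 ⊢
        exact hC₁ H hbig (y x) e₀ e₁ g U V h2 h3 h4 h5 h6 h7 (h9 e₀) (h9 e₁) _
          (fun c hc => (mem_filter.1 hc).2)
      have hlogM : Real.log M ≤ M := (Real.log_le_sub_one_of_pos hM0).trans (by linarith)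
      have hlogM0 : 0 ≤ Real.log M := Real.log_nonneg hM1
      have hQLc : (QL.card : ℝ) ≤ M ^ a := by
        refine le_trans ?_ hHA
        refine le_trans ?_ hQc
        rw [hQL]
        exact_mod_cast card_filter_le _ _
      refine (sum_le_card_nsmul _ _ _ h1).trans ?_
      rw [nsmul_eq_mul]
      have h2 : M ^ B = M ^ a * (M * M) := by rw [hB, pow_add]; ring
      have h3 : M ^ J = M ^ (J - 1) * M := by
        rw [← pow_succ]
        congr 1
        omega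
      calc (QL.card : ℝ) * (C₁ * M ^ J * (Real.log M / M ^ B)) ≤
          M ^ a * (C₁ * M ^ J * (M / M ^ B)) := by
            refine mul_le_mul hQLc ?_ (by positivity) (by positivity)
            refine mul_le_mul_of_nonneg_left ?_ (by positivity)
            exact div_le_div_of_nonneg_right hlogM (by positivity)
        _ = C₁ * M ^ (J - 1) := by
            rw [h2, h3]
            field_simp
    have hQSc : (QS.card : ℝ) ≤ 3 ^ s * M ^ (ε / 2) := by
      have h1 : QS.card ≤ (Fintype.piFinset (fun _ : σ => Icc (-L) L)).card := by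
        rw [hQS]; exact card_filter_le _ _
      rw [Fintype.card_piFinset, prod_const, card_univ, ← hs, Int.card_Icc] at h1
      have h2 : (((L + 1 - -L).toNat : ℕ) : ℝ) = 2 * (L : ℝ) + 1 := by
        have h3 : (((L + 1 - -L).toNat : ℕ) : ℤ) = 2 * L + 1 := by omega
        have h4 : ((((L + 1 - -L).toNat : ℕ) : ℤ) : ℝ) = ((2 * L + 1 : ℤ) : ℝ) := by rw [h3]
        rw [Int.cast_natCast] at h4
        rw [h4]
        push_cast
        ring
      calc (QS.card : ℝ) ≤ (((L + 1 - -L).toNat : ℕ) : ℝ) ^ s := by exact_mod_cast h1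
        _ = (2 * (L : ℝ) + 1) ^ s := by rw [h2]
        _ ≤ (3 * Y ^ s) ^ s := by
            refine pow_le_pow_left₀ ?_ (by linarith) _
            have : (1 : ℝ) ≤ L := by exact_mod_cast hL1
            linarith
        _ = 3 ^ s * M ^ (γ * (s : ℝ) ^ 2) := by
            have h5 : (Y ^ s) ^ s = M ^ (γ * (s : ℝ) ^ 2) := by
              rw [← pow_mul, hY, ← Real.rpow_natCast (M ^ γ), ← Real.rpow_mul hM0.le]
              congr 1
              push_cast
              ring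
            rw [mul_pow, h5]
        _ ≤ 3 ^ s * M ^ (ε / 2) := by
            refine mul_le_mul_of_nonneg_left ?_ (by positivity)
            exact Real.rpow_le_rpow_of_exponent_le hM1 hγs
    have hsmall : ∑ z ∈ QS, ((T.filter (fun c => Good H z c)).card : ℝ) ≤
        3 ^ s * (1 + C₂ * (J : ℝ) ^ δ) * (M ^ (J - 1) * M ^ ε) := by
      have hMe1 : 1 ≤ M ^ (ε / 2) := Real.one_le_rpow hM1 (by positivity)
      have h1 : ∀ z ∈ QS, ((T.filter (fun c => Good H z c)).card : ℝ) ≤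
          M ^ (J - 1) * ((1 + C₂ * (J : ℝ) ^ δ) * M ^ (ε / 2)) := by
        intro z hz
        rw [hQS, mem_filter, Fintype.mem_piFinset] at hz
        have h2 : ∀ e, |(z e : ℝ)| ≤ Y ^ s := by
          intro e
          have h3 : |z e| ≤ L := abs_le.2 (mem_Icc.1 (hz.1 e))
          rw [← Int.cast_abs]
          refine le_trans ?_ hLY
          exact_mod_cast h3
        have h3 := hC₂ H hH (Y ^ s) hYs1 z hz.2 h2 (T.filter (fun c => Good H z c))
          (fun c hc => (mem_filter.1 hc).2)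
        rw [← hM] at h3
        refine h3.trans ?_
        refine mul_le_mul_of_nonneg_left ?_ (by positivity)
        have h4 : ((J : ℝ) * (M * (Y ^ s) ^ ((d - 1 + 1) * m))) ^ δ = (J : ℝ) ^ δ * M ^ (ε / 2) := by
          rw [Real.mul_rpow (by positivity) (by positivity)]
          congr 1
          have h5 : M * (Y ^ s) ^ ((d - 1 + 1) * m) = M ^ (1 + γ * s * n) := by
            rw [← pow_mul, hY, ← Real.rpow_natCast (M ^ γ), ← Real.rpow_mul hM0.le,
              Real.rpow_add hM0, Real.rpow_one, hn]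
            congr 2
            push_cast
            ring
          rw [h5, ← Real.rpow_mul hM0.le, hδe]
        rw [h4, add_mul, one_mul, mul_assoc]
        linarith
      refine (sum_le_card_nsmul _ _ _ h1).trans ?_
      rw [nsmul_eq_mul]
      have h6 : M ^ ε = M ^ (ε / 2) * M ^ (ε / 2) := by
        rw [← Real.rpow_add hM0]
        congr 1
        ring
      calc (QS.card : ℝ) * (M ^ (J - 1) * ((1 + C₂ * (J : ℝ) ^ δ) * M ^ (ε / 2))) ≤
          3 ^ s * M ^ (ε / 2) * (M ^ (J - 1) * ((1 + C₂ * (J : ℝ) ^ δ) * M ^ (ε / 2))) :=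
            mul_le_mul_of_nonneg_right hQSc (by positivity)
        _ = 3 ^ s * (1 + C₂ * (J : ℝ) ^ δ) * (M ^ (J - 1) * M ^ ε) := by
            rw [h6]; ring
    have hMe : 1 ≤ M ^ ε := Real.one_le_rpow hM1 hε.le
    have htot : (T.card : ℝ) ≤ C₃ * (M ^ (J - 1) * M ^ ε) := by
      have h1 : C₁ * M ^ (J - 1) ≤ C₁ * (M ^ (J - 1) * M ^ ε) := by
        refine mul_le_mul_of_nonneg_left ?_ hC₁0.le
        exact le_mul_of_one_le_right (by positivity) hMe
      calc (T.card : ℝ) ≤ _ := hcard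
        _ ≤ C₁ * (M ^ (J - 1) * M ^ ε) + 3 ^ s * (1 + C₂ * (J : ℝ) ^ δ) * (M ^ (J - 1) * M ^ ε) :=
            add_le_add (hlarge.trans h1) hsmall
        _ = C₃ * (M ^ (J - 1) * M ^ ε) := by rw [hC₃]; ring
    have hMJ : M ^ (J - 1) * M ^ ε = M ^ ((J : ℝ) - 1 + ε) := by
      rw [Real.rpow_add hM0]
      congr 1
      rw [← Real.rpow_natCast, Nat.cast_sub hJ1, Nat.cast_one]
    rw [hMJ] at htot
    have hM3H : M ≤ 3 * H := by rw [hM]; linarith
    calc (T.card : ℝ) ≤ C₃ * M ^ ((J : ℝ) - 1 + ε) := htot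
      _ ≤ C₃ * (3 * (H : ℝ)) ^ ((J : ℝ) - 1 + ε) := by
          refine mul_le_mul_of_nonneg_left ?_ hC₃0.le
          exact Real.rpow_le_rpow hM0.le hM3H hexp
      _ = C₃ * 3 ^ ((J : ℝ) - 1 + ε) * (H : ℝ) ^ ((J : ℝ) - 1 + ε) := by
          rw [Real.mul_rpow (by norm_num) (by linarith)]
          ring
      _ ≤ C * (H : ℝ) ^ ((J : ℝ) - 1 + ε) := by
          refine mul_le_mul_of_nonneg_right ?_ (by linarith)
          rw [hC]
          have : (0 : ℝ) ≤ (M₀ : ℝ) ^ J := by positivity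
          linarith

end Pool.Agent.N120.EH
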