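import Mathlib
import Pool.Agent.N120.EH.Main
import Pool.Agent.N120.EH.Count
import Pool.Agent.H940D.DC_REPE

/-! Products of elliptic curves. -/

set_option autoImplicit false

namespace Pool.Agent.N120.EH

open Finset Pool.Agent.H925R3.DC Pool.Agent.H925R3.RR

/-- integral homogeneous coordinates of a point in the plane, with their size -/
theorem exists_planeZ (a b : ℤ) (P : (crv ℚ (a : ℚ) (b : ℚ)).Point) :
    ∃ (z : Fin 3 → ℤ) (μ : ℚ), μ ≠ 0 ∧ (∀ k, (z k : ℚ) = μ * plane P k) ∧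
      ∀ k, |(z k : ℝ)| ≤ (1 + |(a : ℝ)| + |(b : ℝ)|) * Real.exp (2 * htp P) := by
  obtain ⟨X, Y, Z, hXZ, hYZ, hP⟩ := Pool.Agent.H940D.repe a b P
  have hexp : 1 ≤ Real.exp (2 * htp P) := Real.one_le_exp (by have := htp_nonneg P; linarith)
  have hK : (1 : ℝ) ≤ 1 + |(a : ℝ)| + |(b : ℝ)| := by
    have := abs_nonneg (a : ℝ); have := abs_nonneg (b : ℝ); linarith
  have hKe : (1 : ℝ) ≤ (1 + |(a : ℝ)| + |(b : ℝ)|) * Real.exp (2 * htp P) :=
    one_le_mul_of_one_le_of_one_le hK hexp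
  rcases hP with ⟨rfl, rfl, rfl, rfl⟩ | ⟨hZ0, hN, hP⟩
  · refine ⟨![0, 1, 0], 1, one_ne_zero, ?_, ?_⟩
    · intro k
      have h0 : (0 : (crv ℚ (a : ℚ) (b : ℚ)).Point) = .zero := rfl
      rw [h0]
      fin_cases k <;> simp [plane]
    · intro k
      fin_cases k
      · simpa using le_trans zero_le_one hKe
      · simpa using hKe
      · simpa using le_trans zero_le_one hKe
  · have hZq : (Z : ℚ) ≠ 0 := by exact_mod_cast hZ0
    refine ⟨![X * Z, Y, Z ^ 3], (Z : ℚ) ^ 3, pow_ne_zero _ hZq, ?_, ?_⟩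
    · intro k
      rw [hP]
      fin_cases k
      · simp [plane]; field_simp
      · simp [plane]; field_simp
      · simp [plane]
    · -- the height
      have hP0 : P ≠ 0 := by
        rw [hP]; exact WeierstrassCurve.Affine.Point.some_ne_zero _
      have hx : xc P = (X : ℚ) / (Z : ℚ) ^ 2 := by rw [hP]; rfl
      have hcop : Nat.Coprime X.natAbs (Z ^ 2).natAbs := by
        have h1 : IsCoprime X (Z ^ 2) := hXZ.pow_right
        exact Int.isCoprime_iff_gcd_eq_one.1 h1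
      have hZ2pos : (0 : ℤ) < Z ^ 2 := by positivity
      have hnum : (xc P).num = X := by
        rw [hx]
        have := Rat.num_div_eq_of_coprime (a := X) (b := Z ^ 2) hZ2pos hcop
        rw [Int.cast_pow] at this
        exact this
      have hden : ((xc P).den : ℤ) = Z ^ 2 := by
        rw [hx]
        have := Rat.den_div_eq_of_coprime (a := X) (b := Z ^ 2) hZ2pos hcop
        rw [Int.cast_pow] at this
        exact this
      obtain ⟨E, hE⟩ : ∃ E : ℝ, E = Real.exp (htp P) := ⟨_, rfl⟩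
      have hmax : ((max |X| (Z ^ 2) : ℤ) : ℝ) = E := by
        rw [hE]
        unfold htp
        rw [if_neg hP0]
        unfold ht
        rw [hnum, hden, Real.exp_log]
        have : (0 : ℤ) < max |X| (Z ^ 2) := lt_of_lt_of_le hZ2pos (le_max_right _ _)
        exact_mod_cast this
      rw [Int.cast_max] at hmax
      have hXE : |(X : ℝ)| ≤ E := by
        rw [← hmax, ← Int.cast_abs]; exact le_max_left _ _
      have hZE : (Z : ℝ) ^ 2 ≤ E := by
        rw [← hmax]
        have := le_max_right ((|X| : ℤ) : ℝ) ((Z ^ 2 : ℤ) : ℝ)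
        push_cast at this ⊢
        exact this
      have hE1 : 1 ≤ E := by rw [hE]; exact Real.one_le_exp (htp_nonneg P)
      have hE2 : Real.exp (2 * htp P) = E ^ 2 := by
        rw [hE, ← Real.exp_nat_mul]
        norm_num
      rw [hE2] at hKe ⊢
      have hE0 : 0 ≤ E := by linarith
      have hZabs : |(Z : ℝ)| ≤ E := by
        have h1 : (1 : ℝ) ≤ |(Z : ℝ)| := by
          rw [← Int.cast_abs]
          exact_mod_cast Int.one_le_abs hZ0
        have h2 : |(Z : ℝ)| ≤ |(Z : ℝ)| * |(Z : ℝ)| := le_mul_of_one_le_right (abs_nonneg _) h1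
        rw [← sq, sq_abs] at h2
        exact h2.trans hZE
      -- `Y`
      have heq : (Y : ℝ) ^ 2 = (X : ℝ) ^ 3 + a * X * (Z : ℝ) ^ 4 + b * (Z : ℝ) ^ 6 := by
        have h1 := (WeierstrassCurve.Affine.equation_iff _ _).1 hN.1
        simp only [crv] at h1
        have h2 : (Y : ℚ) ^ 2 = (X : ℚ) ^ 3 + a * X * (Z : ℚ) ^ 4 + b * (Z : ℚ) ^ 6 := by
          field_simp at h1
          linear_combination h1
        exact_mod_cast h2
      have hY : |(Y : ℝ)| ≤ (1 + |(a : ℝ)| + |(b : ℝ)|) * E ^ 2 := by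
        have h0 : 0 ≤ (1 + |(a : ℝ)| + |(b : ℝ)|) * E ^ 2 := by positivity
        refine abs_le_of_sq_le_sq ?_ h0
        have e1 : (X : ℝ) ^ 3 ≤ E ^ 3 := by
          refine (le_abs_self _).trans ?_
          rw [abs_pow]
          exact pow_le_pow_left₀ (abs_nonneg _) hXE _
        have e2 : (a : ℝ) * X * (Z : ℝ) ^ 4 ≤ |(a : ℝ)| * E ^ 3 := by
          refine (le_abs_self _).trans ?_
          rw [abs_mul, abs_mul]
          have h3 : |(Z : ℝ) ^ 4| ≤ E ^ 2 := by
            rw [abs_of_nonneg (by positivity)]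
            calc (Z : ℝ) ^ 4 = ((Z : ℝ) ^ 2) ^ 2 := by ring
              _ ≤ E ^ 2 := pow_le_pow_left₀ (by positivity) hZE _
          calc |(a : ℝ)| * |(X : ℝ)| * |(Z : ℝ) ^ 4| ≤ |(a : ℝ)| * E * E ^ 2 := by gcongr
            _ = |(a : ℝ)| * E ^ 3 := by ring
        have e3 : (b : ℝ) * (Z : ℝ) ^ 6 ≤ |(b : ℝ)| * E ^ 3 := by
          refine (le_abs_self _).trans ?_
          rw [abs_mul]
          refine mul_le_mul_of_nonneg_left ?_ (abs_nonneg _)
          rw [abs_of_nonneg (by positivity)]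
          calc (Z : ℝ) ^ 6 = ((Z : ℝ) ^ 2) ^ 3 := by ring
            _ ≤ E ^ 3 := pow_le_pow_left₀ (by positivity) hZE _
        have e4 : E ^ 3 ≤ E ^ 4 := pow_le_pow_right₀ hE1 (by norm_num)
        have e5 : (1 + |(a : ℝ)| + |(b : ℝ)|) ≤ (1 + |(a : ℝ)| + |(b : ℝ)|) ^ 2 := by
          nlinarith
        calc (Y : ℝ) ^ 2 ≤ (1 + |(a : ℝ)| + |(b : ℝ)|) * E ^ 3 := by rw [heq]; linarith
          _ ≤ (1 + |(a : ℝ)| + |(b : ℝ)|) * E ^ 4 := by gcongr
          _ ≤ (1 + |(a : ℝ)| + |(b : ℝ)|) ^ 2 * E ^ 4 := by gcongr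
          _ = ((1 + |(a : ℝ)| + |(b : ℝ)|) * E ^ 2) ^ 2 := by ring
      have hEE : E ^ 2 ≤ (1 + |(a : ℝ)| + |(b : ℝ)|) * E ^ 2 :=
        le_mul_of_one_le_left (by positivity) hK
      intro k
      fin_cases k
      · simp only [Fin.zero_eta, Matrix.cons_val_zero]
        rw [Int.cast_mul, abs_mul]
        refine le_trans ?_ hEE
        rw [sq]
        exact mul_le_mul hXE hZabs (abs_nonneg _) hE0
      · simpa using hY
      · have h1 : |((Z ^ 3 : ℤ) : ℝ)| ≤ E ^ 2 := by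
          rw [Int.cast_pow, abs_pow]
          calc |(Z : ℝ)| ^ 3 = |(Z : ℝ)| ^ 2 * |(Z : ℝ)| := by ring
            _ ≤ E * E := by
                refine mul_le_mul ?_ hZabs (abs_nonneg _) hE0
                rw [sq_abs]; exact hZE
            _ = E ^ 2 := by ring
        simpa using h1.trans hEE

/-- integral Segre coordinates -/
theorem exists_segreZ {r : ℕ} (a b : Fin r → ℤ)
    (P : (i : Fin r) → (crv ℚ (a i : ℚ) (b i : ℚ)).Point) :
    ∃ z : (Fin r → Fin 3) → ℤ, z ≠ 0 ∧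
      (∀ {m d : ℕ} (c : Idx (Fin r → Fin 3) m d → ℤ), PointOver c (segre P) →
        PointOver c (fun e => (z e : ℚ))) ∧
      ∀ T : ℝ, 0 ≤ T → (∀ i, htp (P i) ≤ T) → ∀ e, |(z e : ℝ)| ≤
        (∏ i, (1 + |(a i : ℝ)| + |(b i : ℝ)|)) * Real.exp (2 * r * T) := by
  choose z μ hμ hz hb using fun i => exists_planeZ (a i) (b i) (P i)
  have hM : ∏ i, μ i ≠ 0 := prod_ne_zero_iff.2 fun i _ => hμ i
  have hseg : ∀ e : Fin r → Fin 3, ((∏ i, z i (e i) : ℤ) : ℚ) = (∏ i, μ i) * segre P e := by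
    intro e
    unfold segre
    push_cast
    rw [← prod_mul_distrib]
    exact prod_congr rfl fun i _ => hz i (e i)
  refine ⟨fun e => ∏ i, z i (e i), ?_, ?_, ?_⟩
  · intro h0
    have h1 : ∀ i, ∃ k, plane (P i) k ≠ 0 := by
      intro i
      cases P i with
      | zero => exact ⟨1, by simp [plane]⟩
      | some x y h => exact ⟨2, by simp [plane]⟩
    choose k hk using h1
    have h2 := congrFun h0 k
    simp only [Pi.zero_apply] at h2
    have h3 := hseg k
    rw [h2, Int.cast_zero] at h3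
    have h4 : segre P k ≠ 0 := prod_ne_zero_iff.2 fun i _ => hk i
    exact (mul_ne_zero hM h4) h3.symm
  · intro m d c hc
    refine pointOver_scale c (∏ i, μ i)⁻¹ (inv_ne_zero hM) _ ?_
    have h1 : (fun e => (∏ i, μ i)⁻¹ * ((∏ i, z i (e i) : ℤ) : ℚ)) = segre P := by
      funext e
      rw [hseg e, inv_mul_cancel_left₀ hM]
    rw [h1]
    exact hc
  · intro T hT hP e
    push_cast
    rw [abs_prod]
    have h1 : ∀ i, |((z i (e i) : ℤ) : ℝ)| ≤ (1 + |(a i : ℝ)| + |(b i : ℝ)|) * Real.exp (2 * T) := by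
      intro i
      refine (hb i (e i)).trans ?_
      refine mul_le_mul_of_nonneg_left (Real.exp_le_exp.2 ?_) (by positivity)
      have := hP i
      linarith
    refine (prod_le_prod (fun _ _ => abs_nonneg _) fun i _ => h1 i).trans (le_of_eq ?_)
    rw [prod_mul_distrib, prod_const, card_univ, Fintype.card_fin, ← Real.exp_nat_mul]
    congr 2
    ring

/-- the number of the tuples of points of bounded height -/
theorem count_tuples {r : ℕ} (a b : Fin r → ℤ) (hab : ∀ i, 4 * a i ^ 3 + 27 * b i ^ 2 ≠ 0)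
    (ε : ℝ) (hε : 0 < ε) : ∃ C : ℝ, 0 < C ∧ ∀ T : ℝ, 1 ≤ T →
    ∃ F : Finset ((i : Fin r) → (crv ℚ (a i : ℚ) (b i : ℚ)).Point),
      (∀ P, (∀ i, htp (P i) ≤ T) → P ∈ F) ∧ (∀ P ∈ F, ∀ i, htp (P i) ≤ T) ∧
      (F.card : ℝ) ≤ C * T ^ ((∑ i, (Module.finrank ℤ (crv ℚ (a i : ℚ) (b i : ℚ)).Point : ℝ)) / 2 + ε) := by
  classical
  have hε' : 0 < ε / (r + 1) := by positivity
  choose C hC0 hC using fun i => count_points (a i) (b i) (hab i) (ε / (r + 1)) hε'
  refine ⟨∏ i, C i, prod_pos fun i _ => hC0 i, fun T hT => ?_⟩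
  refine ⟨Fintype.piFinset (fun i => (finite_htp (a i) (b i) T).toFinset), ?_, ?_, ?_⟩
  · intro P hP
    rw [Fintype.mem_piFinset]
    intro i
    rw [Set.Finite.mem_toFinset]
    exact hP i
  · intro P hP i
    rw [Fintype.mem_piFinset] at hP
    have := hP i
    rw [Set.Finite.mem_toFinset] at this
    exact this
  · rw [Fintype.card_piFinset]
    push_cast
    have hT0 : 0 < T := by linarith
    calc ∏ i, ((finite_htp (a i) (b i) T).toFinset.card : ℝ) ≤
        ∏ i, (C i * T ^ ((Module.finrank ℤ (crv ℚ (a i : ℚ) (b i : ℚ)).Point : ℝ) / 2 + ε / (r + 1))) := by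
          refine prod_le_prod (fun _ _ => Nat.cast_nonneg _) fun i _ => ?_
          refine hC i T hT _ fun P hP => ?_
          rw [Set.Finite.mem_toFinset] at hP
          exact hP
      _ = (∏ i, C i) * T ^ (∑ i, ((Module.finrank ℤ (crv ℚ (a i : ℚ) (b i : ℚ)).Point : ℝ) / 2 +
            ε / (r + 1))) := by
          rw [prod_mul_distrib, ← Real.rpow_sum_of_pos hT0]
      _ ≤ (∏ i, C i) * T ^ ((∑ i, (Module.finrank ℤ (crv ℚ (a i : ℚ) (b i : ℚ)).Point : ℝ)) / 2 + ε) := by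
          refine mul_le_mul_of_nonneg_left ?_ (prod_nonneg fun i _ => (hC0 i).le)
          refine Real.rpow_le_rpow_of_exponent_le hT ?_
          rw [sum_add_distrib, sum_const, card_univ, Fintype.card_fin, nsmul_eq_mul, sum_div]
          have h1 : (r : ℝ) * (ε / (r + 1)) ≤ ε := by
            rw [mul_div_assoc', div_le_iff₀ (by positivity)]
            nlinarith
          linarith

/-- from finite sets to the cardinality -/
theorem card_sub {ι : Type} [Fintype ι] (H : ℕ) (P : (ι → ℤ) → Prop) (K : ℝ)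
    (h : ∀ T : Finset (ι → ℤ), (∀ c ∈ T, (∀ j, |c j| ≤ H) ∧ P c) → (T.card : ℝ) ≤ K) :
    (Nat.card {c : ι → ℤ // (∀ j, |c j| ≤ H) ∧ P c} : ℝ) ≤ K := by
  classical
  have hfin : {c : ι → ℤ | (∀ j, |c j| ≤ H) ∧ P c}.Finite := by
    refine (Fintype.piFinset (fun _ : ι => Icc (-(H : ℤ)) H)).finite_toSet.subset ?_
    rintro c ⟨hc, -⟩
    rw [mem_coe, Fintype.mem_piFinset]
    intro j
    exact mem_Icc.2 (abs_le.1 (hc j))
  have h1 : Nat.card {c : ι → ℤ // (∀ j, |c j| ≤ H) ∧ P c} = hfin.toFinset.card :=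
    Nat.card_eq_card_finite_toFinset hfin
  rw [h1]
  refine h _ fun c hc => ?_
  rw [Set.Finite.mem_toFinset] at hc
  exact hc

end Pool.Agent.N120.EH
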