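import Mathlib
import Pool.Agent.N120.EH.Ell

/-! The final statements. -/

set_option autoImplicit false

namespace Pool.Agent.N120.EH

open Finset Pool.Agent.H925R3.DC Pool.Agent.H925R3.RR

/-- the trivial bound -/
theorem trivial_card {ι : Type} [Fintype ι] [DecidableEq ι] (H : ℕ) (T : Finset (ι → ℤ))
    (hT : ∀ c ∈ T, ∀ j, |c j| ≤ (H : ℤ)) : T.card ≤ (2 * H + 1) ^ Fintype.card ι := by
  have h2 : T ⊆ Fintype.piFinset (fun _ => Icc (-(H : ℤ)) H) := by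
    intro c hc
    rw [Fintype.mem_piFinset]
    intro j
    rw [mem_Icc]
    exact abs_le.1 (hT c hc j)
  have h3 := card_le_card h2
  rw [Fintype.card_piFinset, prod_const, Int.card_Icc, card_univ] at h3
  have h4 : ((H : ℤ) + 1 - -(H : ℤ)).toNat = 2 * H + 1 := by omega
  rwa [h4] at h3

/-- conversion of the bound of `main_a` -/
theorem conv_a (J H : ℕ) (hJ : 1 ≤ J) (hH : 2 ≤ H) :
    (2 * (H : ℝ) + 1) ^ (J - 1) * (Real.sqrt H * Real.log H) ≤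
      3 ^ (J - 1) * ((H : ℝ) ^ ((J : ℝ) - 1 / 2) * Real.log H) := by
  have hH2 : (2 : ℝ) ≤ H := by exact_mod_cast hH
  have hH0 : (0 : ℝ) < H := by linarith
  have h1 : (2 * (H : ℝ) + 1) ^ (J - 1) ≤ (3 * (H : ℝ)) ^ (J - 1) :=
    pow_le_pow_left₀ (by linarith) (by linarith) _
  have h2 : (H : ℝ) ^ ((J : ℝ) - 1 / 2) = (H : ℝ) ^ (J - 1) * Real.sqrt H := by
    rw [Real.sqrt_eq_rpow, ← Real.rpow_natCast, ← Real.rpow_add hH0, Nat.cast_sub hJ]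
    congr 1
    push_cast
    ring
  have hlog : 0 ≤ Real.log H := Real.log_natCast_nonneg H
  calc (2 * (H : ℝ) + 1) ^ (J - 1) * (Real.sqrt H * Real.log H) ≤
      (3 * (H : ℝ)) ^ (J - 1) * (Real.sqrt H * Real.log H) :=
        mul_le_mul_of_nonneg_right h1 (by positivity)
    _ = 3 ^ (J - 1) * ((H : ℝ) ^ ((J : ℝ) - 1 / 2) * Real.log H) := by
        rw [h2, mul_pow]; ring

/-- points of any height -/
theorem final_a (σ : Type) [Fintype σ] [DecidableEq σ] (m d : ℕ) (hm : 1 ≤ m) (hd : 2 ≤ d) :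
    ∃ C : ℝ, 0 < C ∧ ∀ H : ℕ, 2 ≤ H → ∀ Q : Finset (σ → ℤ), (∀ x ∈ Q, x ≠ 0) →
    (Nat.card {c : Idx σ m d → ℤ // (∀ j, |c j| ≤ H) ∧
      ∃ x ∈ Q, PointOver c (fun e => (x e : ℚ))} : ℝ) ≤
      C * Q.card * ((H : ℝ) ^ ((Fintype.card (Idx σ m d) : ℝ) - 1 / 2) * Real.log H) := by
  classical
  obtain ⟨C, hC0, hC⟩ := main_a σ m d hm hd
  refine ⟨C * 3 ^ (Fintype.card (Idx σ m d) - 1), by positivity, fun H hH Q hQ => ?_⟩
  refine card_sub H _ _ fun T hT => ?_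
  have hlog : 0 ≤ Real.log H := Real.log_natCast_nonneg H
  rcases Finset.eq_empty_or_nonempty T with hTe | ⟨c₀, hc₀⟩
  · rw [hTe, card_empty, Nat.cast_zero]
    positivity
  · have hJ1 : 1 ≤ Fintype.card (Idx σ m d) := by
      obtain ⟨x, hx, -⟩ := (hT c₀ hc₀).2
      obtain ⟨e, -⟩ := Function.ne_iff.1 (hQ x hx)
      exact Fintype.card_pos_iff.2 ⟨powIdx m d (by omega) e⟩
    calc (T.card : ℝ) ≤ C * Q.card * (2 * (H : ℝ) + 1) ^ (Fintype.card (Idx σ m d) - 1) *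
          (Real.sqrt H * Real.log H) := hC H hH Q hQ T hT
      _ = C * Q.card * ((2 * (H : ℝ) + 1) ^ (Fintype.card (Idx σ m d) - 1) *
          (Real.sqrt H * Real.log H)) := by ring
      _ ≤ C * Q.card * (3 ^ (Fintype.card (Idx σ m d) - 1) *
          ((H : ℝ) ^ ((Fintype.card (Idx σ m d) : ℝ) - 1 / 2) * Real.log H)) :=
          mul_le_mul_of_nonneg_left (conv_a _ H hJ1 hH) (by positivity)
      _ = _ := by ring

/-- points of height at most `exp (H^A)` -/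
theorem final_b (σ : Type) [Fintype σ] [DecidableEq σ] (d : ℕ) (hd : 2 ≤ d) (A ε : ℝ)
    (hε : 0 < ε) : ∃ m₀ : ℕ, ∀ m : ℕ, m₀ ≤ m → ∃ C : ℝ, 0 < C ∧ ∀ H : ℕ, 1 ≤ H →
    ∀ Q : Finset (σ → ℤ), (Q.card : ℝ) ≤ (H : ℝ) ^ A →
    (∀ x ∈ Q, x ≠ 0 ∧ ∀ e, |(x e : ℝ)| ≤ Real.exp ((H : ℝ) ^ A)) →
    (Nat.card {c : Idx σ m d → ℤ // (∀ j, |c j| ≤ H) ∧
      ∃ x ∈ Q, PointOver c (fun e => (x e : ℚ))} : ℝ) ≤
      C * (H : ℝ) ^ ((Fintype.card (Idx σ m d) : ℝ) - 1 + ε) := by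
  classical
  obtain ⟨m₀, h₀⟩ := main_b σ d hd A ε hε
  refine ⟨m₀, fun m hm => ?_⟩
  obtain ⟨C, hC0, hC⟩ := h₀ m hm
  exact ⟨C, hC0, fun H hH Q hQ hQ' => card_sub H _ _ fun T hT => hC H hH Q hQ hQ' T hT⟩

section Elliptic

variable {r : ℕ} (a b : Fin r → ℤ)

/-- the sets of integral coordinate vectors of the points of bounded height -/
theorem exists_Q (T : ℝ) (hT : 0 ≤ T)
    (F : Finset ((i : Fin r) → (crv ℚ (a i : ℚ) (b i : ℚ)).Point))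
    (hF : ∀ P, (∀ i, htp (P i) ≤ T) → P ∈ F) (hF' : ∀ P ∈ F, ∀ i, htp (P i) ≤ T) :
    ∃ Q : Finset ((Fin r → Fin 3) → ℤ), Q.card ≤ F.card ∧
      (∀ x ∈ Q, x ≠ 0 ∧ ∀ e, |(x e : ℝ)| ≤
        (∏ i, (1 + |(a i : ℝ)| + |(b i : ℝ)|)) * Real.exp (2 * r * T)) ∧
      ∀ {m d : ℕ} (c : Idx (Fin r → Fin 3) m d → ℤ),
        (∃ P : (i : Fin r) → (crv ℚ (a i : ℚ) (b i : ℚ)).Point, (∀ i, htp (P i) ≤ T) ∧
          PointOver c (segre P)) → ∃ x ∈ Q, PointOver c (fun e => (x e : ℚ)) := by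
  classical
  choose z hz0 hz1 hz2 using fun P => exists_segreZ a b P
  refine ⟨F.image z, card_image_le, ?_, ?_⟩
  · intro x hx
    obtain ⟨P, hP, rfl⟩ := mem_image.1 hx
    exact ⟨hz0 P, hz2 P T hT (hF' P hP)⟩
  · rintro m d c ⟨P, hP, hc⟩
    exact ⟨z P, mem_image_of_mem _ (hF P hP), hz1 P c hc⟩

/-- all weights `m`, points of height at most `exp (H^θ)` -/
theorem final_c (hab : ∀ i, 4 * a i ^ 3 + 27 * b i ^ 2 ≠ 0) (m d : ℕ) (hm : 1 ≤ m) (hd : 2 ≤ d)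
    (ε : ℝ) (hε : 0 < ε) : ∃ C : ℝ, 0 < C ∧ ∀ H : ℕ, 2 ≤ H → ∀ T : ℝ, 1 ≤ T →
    (Nat.card {c : Idx (Fin r → Fin 3) m d → ℤ // (∀ j, |c j| ≤ H) ∧
      ∃ P : (i : Fin r) → (crv ℚ (a i : ℚ) (b i : ℚ)).Point, (∀ i, htp (P i) ≤ T) ∧
        PointOver c (segre P)} : ℝ) ≤
      C * T ^ ((∑ i, (Module.finrank ℤ (crv ℚ (a i : ℚ) (b i : ℚ)).Point : ℝ)) / 2 + ε) *
        ((H : ℝ) ^ ((Fintype.card (Idx (Fin r → Fin 3) m d) : ℝ) - 1 / 2) * Real.log H) := by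
  classical
  obtain ⟨C₁, hC₁0, hC₁⟩ := final_a (Fin r → Fin 3) m d hm hd
  obtain ⟨C₂, hC₂0, hC₂⟩ := count_tuples a b hab ε hε
  refine ⟨C₁ * C₂, by positivity, fun H hH T hT => ?_⟩
  obtain ⟨F, hF, hF', hFc⟩ := hC₂ T hT
  obtain ⟨Q, hQc, hQ, hQ'⟩ := exists_Q a b T (by linarith) F hF hF'
  have hlog : 0 ≤ Real.log H := Real.log_natCast_nonneg H
  have h1 := hC₁ H hH Q fun x hx => (hQ x hx).1
  refine card_sub H _ _ fun U hU => ?_
  have h2 : (U.card : ℝ) ≤ (Nat.card {c : Idx (Fin r → Fin 3) m d → ℤ // (∀ j, |c j| ≤ H) ∧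
      ∃ x ∈ Q, PointOver c (fun e => (x e : ℚ))} : ℝ) := by
    have hfin : {c : Idx (Fin r → Fin 3) m d → ℤ | (∀ j, |c j| ≤ H) ∧
        ∃ x ∈ Q, PointOver c (fun e => (x e : ℚ))}.Finite := by
      refine (Fintype.piFinset (fun _ : Idx (Fin r → Fin 3) m d =>
        Icc (-(H : ℤ)) H)).finite_toSet.subset ?_
      rintro c ⟨hc, -⟩
      rw [mem_coe, Fintype.mem_piFinset]
      intro j
      exact mem_Icc.2 (abs_le.1 (hc j))
    have h3 : Nat.card {c : Idx (Fin r → Fin 3) m d → ℤ // (∀ j, |c j| ≤ H) ∧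
      ∃ x ∈ Q, PointOver c (fun e => (x e : ℚ))} = hfin.toFinset.card :=
      Nat.card_eq_card_finite_toFinset hfin
    rw [h3]
    refine Nat.cast_le.2 (card_le_card fun c hc => ?_)
    rw [Set.Finite.mem_toFinset]
    exact ⟨(hU c hc).1, hQ' c (hU c hc).2⟩
  have h4 : (Q.card : ℝ) ≤ C₂ * T ^ ((∑ i, (Module.finrank ℤ (crv ℚ (a i : ℚ) (b i : ℚ)).Point : ℝ)) /
      2 + ε) := le_trans (by exact_mod_cast hQc) hFc
  calc (U.card : ℝ) ≤ _ := h2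
    _ ≤ _ := h1
    _ ≤ C₁ * (C₂ * T ^ ((∑ i, (Module.finrank ℤ (crv ℚ (a i : ℚ) (b i : ℚ)).Point : ℝ)) /
      2 + ε)) * ((H : ℝ) ^ ((Fintype.card (Idx (Fin r → Fin 3) m d) : ℝ) - 1 / 2) *
        Real.log H) := by
        refine mul_le_mul_of_nonneg_right (mul_le_mul_of_nonneg_left h4 hC₁0.le) ?_
        exact mul_nonneg (Real.rpow_nonneg (by positivity) _) hlog
    _ = _ := by ring

/-- large weights `m`, points of height at most `exp (H^A)` -/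
theorem final_d (hab : ∀ i, 4 * a i ^ 3 + 27 * b i ^ 2 ≠ 0) (d : ℕ) (hd : 2 ≤ d)
    (A ε : ℝ) (hε : 0 < ε) : ∃ m₀ : ℕ, ∀ m : ℕ, m₀ ≤ m → ∃ C : ℝ, 0 < C ∧ ∀ H : ℕ, 1 ≤ H →
    (Nat.card {c : Idx (Fin r → Fin 3) m d → ℤ // (∀ j, |c j| ≤ H) ∧
      ∃ P : (i : Fin r) → (crv ℚ (a i : ℚ) (b i : ℚ)).Point, (∀ i, htp (P i) ≤ (H : ℝ) ^ A) ∧
        PointOver c (segre P)} : ℝ) ≤
      C * (H : ℝ) ^ ((Fintype.card (Idx (Fin r → Fin 3) m d) : ℝ) - 1 + ε) := by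
  classical
  obtain ⟨ρ, hρ⟩ : ∃ ρ : ℝ, ρ = ∑ i, (Module.finrank ℤ (crv ℚ (a i : ℚ) (b i : ℚ)).Point : ℝ) :=
    ⟨_, rfl⟩
  have hρ0 : 0 ≤ ρ := by rw [hρ]; exact sum_nonneg fun i _ => Nat.cast_nonneg _
  obtain ⟨A₁, hA₁⟩ : ∃ A₁ : ℝ, A₁ = max A 0 := ⟨_, rfl⟩
  have hA₁0 : 0 ≤ A₁ := by rw [hA₁]; exact le_max_right _ _
  have hAA₁ : A ≤ A₁ := by rw [hA₁]; exact le_max_left _ _
  obtain ⟨A₂, hA₂⟩ : ∃ A₂ : ℝ, A₂ = A₁ * (ρ / 2 + 1) + A₁ + 1 := ⟨_, rfl⟩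
  obtain ⟨K, hK⟩ : ∃ K : ℝ, K = ∏ i, (1 + |(a i : ℝ)| + |(b i : ℝ)|) := ⟨_, rfl⟩
  have hK0 : 0 < K := by
    rw [hK]
    exact prod_pos fun i _ => by positivity
  obtain ⟨m₀, hm₀⟩ := main_b (Fin r → Fin 3) d hd A₂ ε hε
  obtain ⟨C₂, hC₂0, hC₂⟩ := count_tuples a b hab 1 one_pos
  rw [← hρ] at hC₂
  refine ⟨m₀, fun m hm => ?_⟩
  obtain ⟨C₁, hC₁0, hC₁⟩ := hm₀ m hm
  obtain ⟨J, hJ⟩ : ∃ J : ℕ, J = Fintype.card (Idx (Fin r → Fin 3) m d) := ⟨_, rfl⟩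
  rw [← hJ] at hC₁ ⊢
  have hJ1 : 1 ≤ J := by
    rw [hJ]
    exact Fintype.card_pos_iff.2 ⟨powIdx m d (by omega) (fun _ => 0)⟩
  have hJ1r : (1 : ℝ) ≤ J := by exact_mod_cast hJ1
  obtain ⟨M₀, hM₀⟩ : ∃ M₀ : ℕ, M₀ = ⌈C₂⌉₊ + ⌈K + 2 * r⌉₊ := ⟨_, rfl⟩
  refine ⟨C₁ + (2 * (M₀ : ℝ) + 1) ^ J, by positivity, fun H hH => ?_⟩
  have hHr : (1 : ℝ) ≤ H := by exact_mod_cast hH
  have hexp : 0 ≤ (J : ℝ) - 1 + ε := by linarith
  have hH1 : 1 ≤ (H : ℝ) ^ ((J : ℝ) - 1 + ε) := Real.one_le_rpow hHr hexp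
  refine card_sub H _ _ fun U hU => ?_
  rcases lt_or_ge H M₀ with hsm | hbig
  · have h1 := trivial_card H U fun c hc => (hU c hc).1
    rw [← hJ] at h1
    have h2 : (U.card : ℝ) ≤ (2 * (M₀ : ℝ) + 1) ^ J := by
      have h3 : (2 * H + 1) ^ J ≤ (2 * M₀ + 1) ^ J := Nat.pow_le_pow_left (by omega) J
      exact_mod_cast h1.trans h3
    calc (U.card : ℝ) ≤ C₁ + (2 * (M₀ : ℝ) + 1) ^ J := by linarith
      _ = (C₁ + (2 * (M₀ : ℝ) + 1) ^ J) * 1 := (mul_one _).symm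
      _ ≤ _ := mul_le_mul_of_nonneg_left hH1 (by positivity)
  · have hbigr : (M₀ : ℝ) ≤ H := by exact_mod_cast hbig
    have hb1 : C₂ ≤ H := by
      refine le_trans (Nat.le_ceil _) (le_trans ?_ hbigr)
      rw [hM₀, Nat.cast_add]
      have : (0 : ℝ) ≤ (⌈K + 2 * (r : ℝ)⌉₊ : ℝ) := Nat.cast_nonneg _
      linarith
    have hb2 : K + 2 * r ≤ H := by
      refine le_trans (Nat.le_ceil _) (le_trans ?_ hbigr)
      rw [hM₀, Nat.cast_add]
      have : (0 : ℝ) ≤ (⌈C₂⌉₊ : ℝ) := Nat.cast_nonneg _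
      linarith
    have hH0 : (0 : ℝ) < H := by linarith
    obtain ⟨T, hT⟩ : ∃ T : ℝ, T = (H : ℝ) ^ A₁ := ⟨_, rfl⟩
    have hT1 : 1 ≤ T := by rw [hT]; exact Real.one_le_rpow hHr hA₁0
    have hAT : (H : ℝ) ^ A ≤ T := by rw [hT]; exact Real.rpow_le_rpow_of_exponent_le hHr hAA₁
    obtain ⟨F, hF, hF', hFc⟩ := hC₂ T hT1
    obtain ⟨Q, hQc, hQ, hQ'⟩ := exists_Q a b T (by linarith) F hF hF'
    have hTp : T ^ (ρ / 2 + 1) = (H : ℝ) ^ (A₁ * (ρ / 2 + 1)) := by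
      rw [hT, ← Real.rpow_mul hH0.le]
    have hP1 : 1 ≤ (H : ℝ) ^ (A₁ * (ρ / 2 + 1)) := Real.one_le_rpow hHr (by positivity)
    have hP2 : (H : ℝ) ^ A₂ = (H : ℝ) ^ (A₁ * (ρ / 2 + 1)) * T * H := by
      rw [hA₂, Real.rpow_add hH0, Real.rpow_add hH0, Real.rpow_one, hT]
    have hQ1 : (Q.card : ℝ) ≤ (H : ℝ) ^ A₂ := by
      calc (Q.card : ℝ) ≤ F.card := by exact_mod_cast hQc
        _ ≤ C₂ * (H : ℝ) ^ (A₁ * (ρ / 2 + 1)) := by rw [← hTp]; exact hFc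
        _ ≤ H * (H : ℝ) ^ (A₁ * (ρ / 2 + 1)) := mul_le_mul_of_nonneg_right hb1 (by linarith)
        _ = (H : ℝ) ^ (A₁ * (ρ / 2 + 1)) * 1 * H := by ring
        _ ≤ (H : ℝ) ^ (A₁ * (ρ / 2 + 1)) * T * H := by gcongr
        _ = (H : ℝ) ^ A₂ := hP2.symm
    have hQ2 : ∀ x ∈ Q, x ≠ 0 ∧ ∀ e, |(x e : ℝ)| ≤ Real.exp ((H : ℝ) ^ A₂) := by
      intro x hx
      obtain ⟨h1, h2⟩ := hQ x hx
      refine ⟨h1, fun e => (h2 e).trans ?_⟩
      rw [← hK]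
      have h3 : K ≤ Real.exp K := by
        have := Real.add_one_le_exp K
        linarith
      calc K * Real.exp (2 * r * T) ≤ Real.exp K * Real.exp (2 * r * T) :=
            mul_le_mul_of_nonneg_right h3 (Real.exp_pos _).le
        _ = Real.exp (K + 2 * r * T) := (Real.exp_add _ _).symm
        _ ≤ Real.exp ((H : ℝ) ^ A₂) := by
            refine Real.exp_le_exp.2 ?_
            have h4 : K ≤ K * T := le_mul_of_one_le_right hK0.le hT1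
            have h5 : (K + 2 * r) * T ≤ H * T := mul_le_mul_of_nonneg_right hb2 (by linarith)
            have h6 : 1 * (H * T) ≤ (H : ℝ) ^ (A₁ * (ρ / 2 + 1)) * (H * T) :=
              mul_le_mul_of_nonneg_right hP1 (by positivity)
            rw [hP2]
            linarith
    have h1 := hC₁ H hH Q hQ1 hQ2 U fun c hc => by
      obtain ⟨h2, P, h3, h4⟩ := hU c hc
      exact ⟨h2, hQ' c ⟨P, fun i => (h3 i).trans hAT, h4⟩⟩
    refine h1.trans ?_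
    refine mul_le_mul_of_nonneg_right ?_ (by linarith)
    have : (0 : ℝ) ≤ (2 * (M₀ : ℝ) + 1) ^ J := by positivity
    linarith

/-- the lower bound -/
theorem final_e (m d : ℕ) (hd : 1 ≤ d) (H : ℕ) :
    (2 * H + 1) ^ (Fintype.card (Idx (Fin r → Fin 3) m d) - 1) ≤
    Nat.card {c : Idx (Fin r → Fin 3) m d → ℤ // (∀ j, |c j| ≤ H) ∧
      PointOver c (segre (fun i => (0 : (crv ℚ (a i : ℚ) (b i : ℚ)).Point)))} := by
  classical
  obtain ⟨j₀, hj₀⟩ : ∃ j₀ : Idx (Fin r → Fin 3) m d, j₀ = powIdx m d hd (fun _ => 1) := ⟨_, rfl⟩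
  have hfin : {c : Idx (Fin r → Fin 3) m d → ℤ | (∀ j, |c j| ≤ H) ∧
      PointOver c (segre (fun i => (0 : (crv ℚ (a i : ℚ) (b i : ℚ)).Point)))}.Finite := by
    refine (Fintype.piFinset (fun _ : Idx (Fin r → Fin 3) m d =>
      Icc (-(H : ℤ)) H)).finite_toSet.subset ?_
    rintro c ⟨hc, -⟩
    rw [mem_coe, Fintype.mem_piFinset]
    intro j
    exact mem_Icc.2 (abs_le.1 (hc j))
  have h3 : Nat.card {c : Idx (Fin r → Fin 3) m d → ℤ // (∀ j, |c j| ≤ H) ∧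
      PointOver c (segre (fun i => (0 : (crv ℚ (a i : ℚ) (b i : ℚ)).Point)))} =
      hfin.toFinset.card := Nat.card_eq_card_finite_toFinset hfin
  rw [h3]
  have h4 : (Fintype.piFinset (fun j : Idx (Fin r → Fin 3) m d =>
      if j = j₀ then {(0 : ℤ)} else Icc (-(H : ℤ)) H)).card =
      (2 * H + 1) ^ (Fintype.card (Idx (Fin r → Fin 3) m d) - 1) := by
    rw [Fintype.card_piFinset]
    have h5 : ∀ j : Idx (Fin r → Fin 3) m d,
        (if j = j₀ then {(0 : ℤ)} else Icc (-(H : ℤ)) H).card =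
          if j = j₀ then 1 else 2 * H + 1 := by
      intro j
      split_ifs with h
      · simp
      · rw [Int.card_Icc]; omega
    rw [prod_congr rfl fun j _ => h5 j, prod_ite, prod_const_one, one_mul, prod_const]
    congr 1
    rw [filter_not, card_sdiff_of_subset (filter_subset _ _), card_univ]
    congr 1
    rw [filter_eq', if_pos (mem_univ _), card_singleton]
  rw [← h4]
  refine card_le_card fun c hc => ?_
  rw [Fintype.mem_piFinset] at hc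
  rw [Set.Finite.mem_toFinset]
  have hc0 : c j₀ = 0 := by
    have := hc j₀
    rw [if_pos rfl, mem_singleton] at this
    exact this
  refine ⟨fun j => ?_, 0, ?_⟩
  · have := hc j
    split_ifs at this with h
    · rw [mem_singleton] at this
      rw [this, abs_zero]
      exact Int.natCast_nonneg H
    · exact abs_le.2 (mem_Icc.1 this)
  · rw [zero_pow (by omega), zero_add]
    refine sum_eq_zero fun i _ => ?_
    by_cases hi : i.1 = d - 1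
    · have h6 : form c i (segre (fun i => (0 : (crv ℚ (a i : ℚ) (b i : ℚ)).Point))) = 0 := by
        unfold form
        refine sum_eq_zero fun s _ => ?_
        by_cases hs : ∀ e ∈ (s : Multiset (Fin r → Fin 3)), e = fun _ => 1
        · have h7 : (⟨i, s⟩ : Idx (Fin r → Fin 3) m d) = j₀ := by
            rw [hj₀]
            unfold powIdx
            obtain ⟨i, hi'⟩ := i
            obtain rfl : i = d - 1 := hi
            congr 1
            apply Subtype.ext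
            have h8 := Multiset.eq_replicate.2 ⟨s.2, hs⟩
            exact h8
          rw [h7, hc0, Int.cast_zero, zero_mul]
        · push Not at hs
          obtain ⟨e, he, hne⟩ := hs
          have h7 : segre (fun i => (0 : (crv ℚ (a i : ℚ) (b i : ℚ)).Point)) e = 0 := by
            obtain ⟨k, hk⟩ := Function.ne_iff.1 hne
            unfold segre
            refine prod_eq_zero (mem_univ k) ?_
            have h0 : (0 : (crv ℚ (a k : ℚ) (b k : ℚ)).Point) = .zero := rfl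
            simp only [h0]
            generalize e k = t at hk
            fin_cases t
            · simp [plane]
            · exact absurd rfl hk
            · simp [plane]
          rw [Multiset.prod_eq_zero, mul_zero]
          exact Multiset.mem_map.2 ⟨e, he, h7⟩
      rw [h6, zero_mul]
    · rw [zero_pow (by have := i.2; omega), mul_zero]

/-- the lower bound, for the set in the theorems -/
theorem final_e' (m d : ℕ) (hd : 1 ≤ d) (H : ℕ) (T : ℝ) (hT : 0 ≤ T) :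
    (2 * (H : ℝ) + 1) ^ (Fintype.card (Idx (Fin r → Fin 3) m d) - 1) ≤
    (Nat.card {c : Idx (Fin r → Fin 3) m d → ℤ // (∀ j, |c j| ≤ H) ∧
      ∃ P : (i : Fin r) → (crv ℚ (a i : ℚ) (b i : ℚ)).Point, (∀ i, htp (P i) ≤ T) ∧
        PointOver c (segre P)} : ℝ) := by
  classical
  have h1 := final_e a b m d hd H
  have hfin : {c : Idx (Fin r → Fin 3) m d → ℤ | (∀ j, |c j| ≤ H) ∧
      ∃ P : (i : Fin r) → (crv ℚ (a i : ℚ) (b i : ℚ)).Point, (∀ i, htp (P i) ≤ T) ∧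
        PointOver c (segre P)}.Finite := by
    refine (Fintype.piFinset (fun _ : Idx (Fin r → Fin 3) m d =>
      Icc (-(H : ℤ)) H)).finite_toSet.subset ?_
    rintro c ⟨hc, -⟩
    rw [mem_coe, Fintype.mem_piFinset]
    intro j
    exact mem_Icc.2 (abs_le.1 (hc j))
  have h2 : Nat.card {c : Idx (Fin r → Fin 3) m d → ℤ // (∀ j, |c j| ≤ H) ∧
      PointOver c (segre (fun i => (0 : (crv ℚ (a i : ℚ) (b i : ℚ)).Point)))} ≤
      Nat.card {c : Idx (Fin r → Fin 3) m d → ℤ // (∀ j, |c j| ≤ H) ∧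
      ∃ P : (i : Fin r) → (crv ℚ (a i : ℚ) (b i : ℚ)).Point, (∀ i, htp (P i) ≤ T) ∧
        PointOver c (segre P)} := by
    refine Nat.card_mono hfin ?_
    rintro c ⟨h3, h4⟩
    refine ⟨h3, _, fun i => ?_, h4⟩
    have h0 : htp (0 : (crv ℚ (a i : ℚ) (b i : ℚ)).Point) = 0 := by
      unfold htp
      rw [if_pos rfl]
    rw [h0]
    exact hT
  exact_mod_cast h1.trans h2

end Elliptic

end Pool.Agent.N120.EH
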